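import Pool.Agent.Lib.PolyTime.Binary

/-!
# The algorithm which factors perfect numbers, and its running time
-/

namespace Pool.Agent.Lib.MP_394210_lc

open Pool.Agent.PolyTime Function

universe u v

variable {α : Type u} [Rep α]

/-! ### Integer roots of `1 + z + ... + z ^ e` -/

/-- The sum `1 + z + ... + z ^ e`. -/
def sg (e z : ℕ) : ℕ := Nat.rec (motive := fun _ => ℕ) 1 (fun _ s => s * z + 1) e

@[simp] theorem sg_zero (z : ℕ) : sg 0 z = 1 := rfl
theorem sg_succ (e z : ℕ) : sg (e + 1) z = sg e z * z + 1 := rfl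

theorem sg_eq_sum (e z : ℕ) : sg e z = ∑ k ∈ Finset.range (e + 1), z ^ k := by
  induction e with
  | zero => simp
  | succ e ih =>
    rw [sg_succ, ih, Finset.sum_range_succ' _ (e + 1), Finset.sum_mul, pow_zero]
    simp only [pow_succ]

theorem sg_le_pow (e z : ℕ) : sg e z ≤ (z + 1) ^ e := by
  induction e with
  | zero => simp
  | succ e ih =>
    rw [sg_succ, pow_succ, Nat.mul_add, Nat.mul_one]
    have h1 := Nat.mul_le_mul_right z ih
    have h2 : 1 ≤ (z + 1) ^ e := Nat.one_le_pow _ _ (by omega)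
    omega

theorem sg_mono (e : ℕ) {z z' : ℕ} (h : z ≤ z') : sg e z ≤ sg e z' := by
  induction e with
  | zero => simp
  | succ e ih => rw [sg_succ, sg_succ]; exact Nat.add_le_add_right (Nat.mul_le_mul ih h) 1

theorem BT.sg {e z : α → ℕ} (he : PT e) (hz : BT z) : BT (fun a => sg (e a) (z a)) := by
  have key : ∀ (z m : ℕ), (Nat.rec (motive := fun _ => Bin) ⟨1⟩
      (fun _ s => (⟨s.val * z + 1⟩ : Bin)) m).val = MP_394210_lc.sg m z := by
    intro x m
    induction m with
    | zero => rfl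
    | succ m ih => simp only [ih, sg_succ]
  refine PT.val ((PT.natRec (g := fun a _ (s : Bin) => (⟨s.val * z a + 1⟩ : Bin)) he
    (PT.const ⟨1⟩)
    ?_ (B := fun a => 4 * (sz (e a) * ((z a).size + 2) + 1) + 1)
    (((Bdd.const 4).mul ((he.bdd.mul (hz.bddSize.add (Bdd.const 2))).add (Bdd.const 1))).add
      (Bdd.const 1))
    ?_).congr fun a => Bin.ext (key (z a) (e a)))
  · exact BT.add (BT.mul (PT.val PT.id.snd.snd) (BT.comp hz PT.id.fst)) (BT.const 1)
  · intro a m hm
    refine (sz_bin_le _).trans ?_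
    rw [key]
    have h0 := Nat.size_le_size (sg_le_pow m (z a))
    have h1 := size_pow_le (z a + 1) m
    have h3 := size_add_le (z a) 1
    have h4 : (1 : ℕ).size = 1 := by simp
    have h2 : m * (z a + 1).size ≤ sz (e a) * ((z a).size + 2) := by
      refine Nat.mul_le_mul ?_ (by omega)
      rw [sz_nat]; omega
    omega

/-- One bit of the root. -/
def rtStep (n e M i : ℕ) (z : Bin) : Bin :=
  if z.val + 2 ^ (n.size - 1 - i) ≤ n ∧ sg e (z.val + 2 ^ (n.size - 1 - i)) ≤ M
  then ⟨z.val + 2 ^ (n.size - 1 - i)⟩ else z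

/-- The largest `z ≤ n` with `1 + z + ... + z ^ e ≤ M`. -/
def rt (n e M : ℕ) : ℕ :=
  (Nat.rec (motive := fun _ => Bin) ⟨0⟩ (fun i z => rtStep n e M i z) n.size).val

theorem rt_inv (n e M : ℕ) (hM : 1 ≤ M) (m : ℕ) (hm : m ≤ n.size) :
    let z := (Nat.rec (motive := fun _ => Bin) ⟨0⟩ (fun i z => rtStep n e M i z) m).val
    (z ≤ n ∧ sg e z ≤ M) ∧ ∀ w, w ≤ n → sg e w ≤ M → w < z + 2 ^ (n.size - m) := by
  induction m with
  | zero =>
    refine ⟨⟨Nat.zero_le _, ?_⟩, fun w hw _ => ?_⟩
    · rw [sg_eq_sum, Finset.sum_range_succ']; simp [hM]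
    · simpa using hw.trans_lt (Nat.lt_size_self n)
  | succ m ih =>
    obtain ⟨h1, h2⟩ := ih (by omega)
    set z := (Nat.rec (motive := fun _ => Bin) ⟨0⟩ (fun i z => rtStep n e M i z) m) with hz
    have e1 : n.size - m = (n.size - 1 - m) + 1 := by omega
    have e2 : n.size - (m + 1) = n.size - 1 - m := by omega
    have e3 : (Nat.rec (motive := fun _ => Bin) ⟨0⟩ (fun i z => rtStep n e M i z) (m + 1))
      = rtStep n e M m z := rfl
    simp only [e3, e2]
    rw [e1, pow_succ] at h2
    unfold rtStep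
    split
    · rename_i h
      refine ⟨h, fun w hw hw' => ?_⟩
      have := h2 w hw hw'
      simp only; omega
    · rename_i h
      refine ⟨h1, fun w hw hw' => ?_⟩
      by_contra hc
      push Not at hc
      exact h ⟨hc.trans hw, (sg_mono e hc).trans hw'⟩

theorem rt_spec (n e M : ℕ) (hM : 1 ≤ M) :
    (rt n e M ≤ n ∧ sg e (rt n e M) ≤ M) ∧ ∀ w, w ≤ n → sg e w ≤ M → w ≤ rt n e M := by
  have h := rt_inv n e M hM n.size le_rfl
  refine ⟨h.1, fun w hw hw' => ?_⟩
  have := h.2 w hw hw'
  simp only [Nat.sub_self, pow_zero] at this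
  exact Nat.lt_succ_iff.1 this

theorem rt_le (n e M m : ℕ) :
    (Nat.rec (motive := fun _ => Bin) ⟨0⟩ (fun i z => rtStep n e M i z) m).val ≤ n := by
  induction m with
  | zero => exact Nat.zero_le _
  | succ m ih =>
    change (rtStep n e M m _).val ≤ n
    unfold rtStep
    split
    · rename_i h; exact h.1
    · exact ih

theorem BT.rt {n e M : α → ℕ} (hn : BT n) (he : PT e) (hM : BT M) :
    BT (fun a => rt (n a) (e a) (M a)) := by
  have hmain : PT (fun a => Nat.rec (motive := fun _ => Bin) ⟨0⟩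
      (fun i z => rtStep (n a) (e a) (M a) i z) (n a).size) := by
   refine PT.natRec (g := fun a i (z : Bin) => rtStep (n a) (e a) (M a) i z) hn.size
    (PT.const (Bin.mk 0)) ?_ (B := fun a => 4 * (n a).size + 1)
    (((Bdd.const 4).mul hn.bddSize).add (Bdd.const 1)) ?_
   · have hz : BT (fun p : α × (ℕ × Bin) => p.2.2.val + 2 ^ ((n p.1).size - 1 - p.2.1)) :=
      BT.add (PT.val PT.id.snd.snd) (BT.pow (BT.const 2)
        (PT.sub (PT.sub (BT.size (BT.comp hn PT.id.fst)) (PT.const 1)) PT.id.snd.fst))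
     exact PT.iteProp (PT.decAnd (BT.le hz (BT.comp hn PT.id.fst))
      (BT.le (BT.sg (PT.comp he PT.id.fst) hz) (BT.comp hM PT.id.fst))) hz PT.id.snd.snd
   · intro a m _
     refine (sz_bin_le _).trans ?_
     have := Nat.size_le_size (rt_le (n a) (e a) (M a) m)
     omega
  exact hmain.val

/-! ### Products of powers -/

/-- One step of the product. -/
def ppStep (s : Bin) (p : Bin × ℕ) : Bin := ⟨s.val * p.1.val ^ p.2⟩

/-- The product of the powers `x ^ f` of a list of pairs. -/
def pp (l : List (Bin × ℕ)) : ℕ := (l.foldl ppStep ⟨1⟩).val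

theorem pp_foldl (l : List (Bin × ℕ)) : ∀ s : Bin,
    (l.foldl ppStep s).val
      = s.val * (l.map fun p => p.1.val ^ p.2).prod := by
  induction l with
  | nil => intro s; simp
  | cons p l ih => intro s; rw [List.foldl_cons, ih]; simp [mul_assoc, ppStep]

theorem pp_eq (l : List (Bin × ℕ)) : pp l = (l.map fun p => p.1.val ^ p.2).prod := by
  rw [pp, pp_foldl]; simp

theorem size_pp_le (l : List (Bin × ℕ)) : (pp l).size ≤ sz l * sz l := by
  induction l with
  | nil => simp [pp_eq]
  | cons p l ih =>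
    have e : pp (p :: l) = p.1.val ^ p.2 * pp l := by rw [pp_eq, pp_eq]; simp
    rw [e]
    have h1 := size_mul_le (p.1.val ^ p.2) (pp l)
    have h2 := size_pow_le p.1.val p.2
    have h3 := size_le_sz p.1
    have h4 : sz p = sz p.1 + sz p.2 + 1 := sz_prod p
    have h5 : sz p.2 = 2 * p.2 + 1 := sz_nat _
    have h6 : p.2 * p.1.val.size ≤ p.2 * sz p.1 := Nat.mul_le_mul_left _ h3
    have h7 : sz (p :: l) = sz p + sz l + 1 := sz_cons _ _
    rw [h7, h4, h5]
    have h8 := sz_pos l
    nlinarith [sz_pos p.1]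

theorem BT.pp {l : α → List (Bin × ℕ)} (hl : PT l) : BT (fun a => pp (l a)) := by
  have hg : PT (fun p : α × (Bin × (Bin × ℕ)) => ppStep p.2.1 p.2.2) := by
    have h1 : BT (fun p : α × (Bin × (Bin × ℕ)) => p.2.2.1.val ^ p.2.2.2) :=
      BT.pow (PT.val PT.id.snd.snd.fst) PT.id.snd.snd.snd
    have h2 : BT (fun p : α × (Bin × (Bin × ℕ)) => p.2.1.val * p.2.2.1.val ^ p.2.2.2) :=
      BT.mul (PT.val PT.id.snd.fst) h1
    exact h2
  have hmain : PT (fun a => (l a).foldl ppStep (Bin.mk 1)) := by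
    refine PT.foldl (g := fun _ => ppStep) hl
      (PT.const (Bin.mk 1)) hg (B := fun a => 4 * (sz (l a) * sz (l a)) + 1)
      (((Bdd.const 4).mul (hl.bdd.mul hl.bdd)).add (Bdd.const 1)) ?_
    · intro a l' hl'
      refine (sz_bin_le _).trans ?_
      have h1 := size_pp_le l'
      have h2 := sz_sublist hl'.sublist
      have h3 : sz l' * sz l' ≤ sz (l a) * sz (l a) := Nat.mul_le_mul h2 h2
      have h4 : (l'.foldl ppStep (Bin.mk 1)).val = MP_394210_lc.pp l' := rfl
      rw [h4]
      omega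
  exact hmain.val

/-! ### Solving a system -/

/-- An equation `1 + x + ... + x ^ e = a * ∏ x_j ^ f_j`, as `(a, (e, f))`. -/
abbrev Row : Type := Bin × (ℕ × List ℕ)

/-- One step of the iteration. -/
def step (n : ℕ) (rows : List Row) (x : List Bin) : List Bin :=
  rows.map fun r => ⟨rt n r.2.1 (r.1.val * pp (x.zip r.2.2))⟩

/-- The iteration from above. -/
def solve (n t : ℕ) (rows : List Row) : List Bin :=
  Nat.rec (motive := fun _ => List Bin) (rows.map fun _ => ⟨n⟩) (fun _ x => step n rows x) t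

theorem solve_zero (n : ℕ) (rows : List Row) : solve n 0 rows = rows.map fun _ => ⟨n⟩ := rfl
theorem solve_succ (n t : ℕ) (rows : List Row) :
    solve n (t + 1) rows = step n rows (solve n t rows) := rfl

theorem length_solve (n t : ℕ) (rows : List Row) : (solve n t rows).length = rows.length := by
  cases t with
  | zero => simp [solve_zero]
  | succ t => simp [solve_succ, step]

theorem solve_le (n t : ℕ) (rows : List Row) : ∀ z ∈ solve n t rows, z.val ≤ n := by
  cases t with
  | zero => intro z hz; obtain ⟨r, _, rfl⟩ := List.mem_map.1 hz; exact le_rfl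
  | succ t =>
    intro z hz; obtain ⟨r, _, rfl⟩ := List.mem_map.1 hz
    exact rt_le n _ _ _

theorem PT.solve {n t : α → ℕ} {rows : α → List Row} (hn : BT n) (ht : PT t) (hr : PT rows) :
    PT (fun a => solve (n a) (t a) (rows a)) := by
  refine PT.natRec (g := fun a _ x => step (n a) (rows a) x) ht
    (PT.map (g := fun a (_ : Row) => (⟨n a⟩ : Bin)) hr (BT.comp hn PT.id.fst)) ?_
    (B := fun a => sz (rows a) * (4 * (n a).size + 1 + 1) + 1)
    ((hr.bdd.mul ((((Bdd.const 4).mul hn.bddSize).add (Bdd.const 1)).add (Bdd.const 1))).add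
      (Bdd.const 1)) ?_
  · refine PT.map (α := α × (ℕ × List Bin)) (l := fun p => rows p.1)
      (g := fun p r => (⟨MP_394210_lc.rt (n p.1) r.2.1
        (r.1.val * MP_394210_lc.pp (p.2.2.zip r.2.2))⟩ : Bin)) (PT.comp hr PT.id.fst) ?_
    exact BT.rt (BT.comp hn PT.id.fst.fst) PT.id.snd.snd.fst
      (BT.mul (PT.val PT.id.snd.fst) (BT.pp (PT.zip PT.id.fst.snd.snd PT.id.snd.snd.snd)))
  · intro a m _
    refine (sz_le_of_forall _ (4 * (n a).size + 1) ?_).trans ?_
    · intro z hz
      refine (sz_bin_le z).trans ?_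
      have := Nat.size_le_size (solve_le (n a) m (rows a) z hz)
      omega
    · change (MP_394210_lc.solve (n a) m (rows a)).length * _ + 1 ≤ _
      rw [length_solve]
      have := Nat.mul_le_mul_right (4 * (n a).size + 1 + 1) (length_le_sz (rows a))
      omega

end Pool.Agent.Lib.MP_394210_lc
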