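import Pool.Agent.Lib.MP_394210_lc.Alg

/-!
# The algorithm, second part: trial division and enumeration
-/

namespace Pool.Agent.Lib.MP_394210_lc

open Pool.Agent.PolyTime Function

universe u v

variable {α : Type u} [Rep α] {β : Type v} [Rep β]

/-! ### Enumeration of tuples -/

/-- The lists of length `k` over `l`, cut after `t` elements in each step. -/
def tuples {β : Type v} (l : List β) (t k : ℕ) : List (List β) :=
  Nat.rec (motive := fun _ => List (List β)) [[]]
    (fun _ acc => (l.flatMap fun b => acc.map fun v => b :: v).take t) k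

omit [Rep β] in
theorem tuples_zero (l : List β) (t : ℕ) : tuples l t 0 = [[]] := rfl

omit [Rep β] in
theorem tuples_succ (l : List β) (t k : ℕ) :
    tuples l t (k + 1) = (l.flatMap fun b => (tuples l t k).map fun v => b :: v).take t := rfl

omit [Rep β] in
theorem length_tuples_le (l : List β) (t k : ℕ) : (tuples l t k).length ≤ t + 1 := by
  cases k with
  | zero => simp [tuples_zero]
  | succ k => rw [tuples_succ]; exact (List.length_take_le _ _).trans (Nat.le_succ _)

omit [Rep β] in
theorem mem_tuples (l : List β) (t k : ℕ) : ∀ v ∈ tuples l t k, v.length = k ∧ ∀ b ∈ v, b ∈ l := by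
  induction k with
  | zero => intro v hv; simp [tuples_zero] at hv; simp [hv]
  | succ k ih =>
    intro v hv
    rw [tuples_succ] at hv
    have h1 := List.mem_of_mem_take hv
    obtain ⟨b, hb, h2⟩ := List.mem_flatMap.1 h1
    obtain ⟨w, hw, rfl⟩ := List.mem_map.1 h2
    obtain ⟨h3, h4⟩ := ih w hw
    refine ⟨by simp [h3], fun c hc => ?_⟩
    rcases List.mem_cons.1 hc with rfl | hc
    · exact hb
    · exact h4 c hc

theorem sz_tuples_le (l : List β) (t k : ℕ) :
    sz (tuples l t k) ≤ (t + 1) * (k * (sz l + 1) + 1 + 1) + 1 := by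
  refine (sz_le_of_forall _ (k * (sz l + 1) + 1) ?_).trans ?_
  · intro v hv
    obtain ⟨h1, h2⟩ := mem_tuples l t k v hv
    refine (sz_le_of_forall v (sz l) fun b hb => sz_mem_le (h2 b hb)).trans ?_
    rw [h1]
  · have := Nat.mul_le_mul_right (k * (sz l + 1) + 1 + 1) (length_tuples_le l t k)
    omega

theorem PT.tuples {l : α → List β} {t k : α → ℕ} (hl : PT l) (ht : PT t) (hk : PT k) :
    PT (fun a => tuples (l a) (t a) (k a)) := by
  refine PT.natRec
    (g := fun a _ acc => (((l a).flatMap fun b => acc.map fun v => b :: v).take (t a))) hk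
    (PT.const [[]]) ?_
    (B := fun a => (sz (t a) + 1) * (sz (k a) * (sz (l a) + 1) + 1 + 1) + 1)
    (((ht.bdd.add (Bdd.const 1)).mul (((hk.bdd.mul (hl.bdd.add (Bdd.const 1))).add
      (Bdd.const 1)).add (Bdd.const 1))).add (Bdd.const 1)) ?_
  · refine PT.take (PT.flatMap (α := α × (ℕ × List (List β)))
      (g := fun p b => p.2.2.map fun v => b :: v) (PT.comp hl PT.id.fst) ?_)
      (PT.comp ht PT.id.fst)
    exact PT.map (α := (α × (ℕ × List (List β))) × β) (g := fun q v => q.2 :: v)
      PT.id.fst.snd.snd (PT.cons PT.id.fst.snd PT.id.snd)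
  · intro a m hm
    refine (sz_tuples_le (l a) (t a) m).trans ?_
    have h1 : t a + 1 ≤ sz (t a) + 1 := by rw [sz_nat]; omega
    have h2 : m ≤ sz (k a) := by rw [sz_nat]; omega
    have h3 := Nat.mul_le_mul_right (sz (l a) + 1) h2
    have h4 := Nat.mul_le_mul h1 (Nat.add_le_add_right (Nat.add_le_add_right h3 1) 1)
    omega

/-! ### Trial division -/

/-- One step of dividing by `d`. -/
def stripStep (d : ℕ) (s : Bin × ℕ) : Bin × ℕ :=
  if s.1.val % d = 0 then (⟨s.1.val / d⟩, s.2 + 1) else s

/-- Divide `m` by `d` as often as possible; the number and the exponent. -/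
def strip (d m : ℕ) : Bin × ℕ :=
  Nat.rec (motive := fun _ => Bin × ℕ) (⟨m⟩, 0) (fun _ s => stripStep d s) m.size

theorem strip_bound (d m k : ℕ) :
    (Nat.rec (motive := fun _ => Bin × ℕ) (⟨m⟩, 0) (fun _ s => stripStep d s) k).1.val ≤ m ∧
    (Nat.rec (motive := fun _ => Bin × ℕ) (⟨m⟩, 0) (fun _ s => stripStep d s) k).2 ≤ k := by
  induction k with
  | zero => exact ⟨le_rfl, le_rfl⟩
  | succ k ih =>
    change (stripStep d _).1.val ≤ m ∧ (stripStep d _).2 ≤ k + 1
    unfold stripStep
    split
    · exact ⟨(Nat.div_le_self _ _).trans ih.1, Nat.add_le_add_right ih.2 1⟩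
    · exact ⟨ih.1, ih.2.trans (Nat.le_succ _)⟩

theorem strip_inv (d m k : ℕ) :
    let s := (Nat.rec (motive := fun _ => Bin × ℕ) (⟨m⟩, 0) (fun _ s => stripStep d s) k)
    m = s.1.val * d ^ s.2 ∧ (s.2 = k ∨ ¬ d ∣ s.1.val) := by
  induction k with
  | zero => exact ⟨by simp, Or.inl rfl⟩
  | succ k ih =>
    obtain ⟨h1, h2⟩ := ih
    set s := (Nat.rec (motive := fun _ => Bin × ℕ) (⟨m⟩, 0) (fun _ s => stripStep d s) k) with hs
    have e : (Nat.rec (motive := fun _ => Bin × ℕ) (⟨m⟩, 0) (fun _ s => stripStep d s) (k + 1))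
      = stripStep d s := rfl
    simp only [e]
    unfold stripStep
    split
    · rename_i h
      have hdvd : d ∣ s.1.val := Nat.dvd_of_mod_eq_zero h
      refine ⟨?_, ?_⟩
      · simp only
        rw [pow_succ, ← mul_assoc, mul_right_comm, Nat.div_mul_cancel hdvd]
        exact h1
      · rcases h2 with h2 | h2
        · left; simp only; omega
        · exact absurd hdvd h2
    · rename_i h
      exact ⟨h1, Or.inr fun hdvd => h (Nat.mod_eq_zero_of_dvd hdvd)⟩

theorem strip_spec (d m : ℕ) (hd : 2 ≤ d) (hm : 0 < m) :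
    m = (strip d m).1.val * d ^ (strip d m).2 ∧ ¬ d ∣ (strip d m).1.val := by
  obtain ⟨h1, h2⟩ := strip_inv d m m.size
  refine ⟨h1, ?_⟩
  rcases h2 with h2 | h2
  · exfalso
    have h3 : (strip d m).2 = m.size := h2
    have h4 : m = (strip d m).1.val * d ^ (strip d m).2 := h1
    rw [h3] at h4
    have h5 : 0 < (strip d m).1.val := by
      rcases Nat.eq_zero_or_pos (strip d m).1.val with h | h
      · rw [h, zero_mul] at h4; omega
      · exact h
    have h6 : 2 ^ m.size ≤ d ^ m.size := Nat.pow_le_pow_left hd _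
    have h7 : 1 * d ^ m.size ≤ (strip d m).1.val * d ^ m.size := Nat.mul_le_mul_right _ h5
    have h8 := Nat.lt_size_self m
    omega
  · exact h2

theorem PT.strip {d m : α → ℕ} (hd : BT d) (hm : BT m) : PT (fun a => strip (d a) (m a)) := by
  refine PT.natRec (g := fun a _ s => stripStep (d a) s) hm.size
    (PT.pair hm (PT.const 0)) ?_ (B := fun a => 4 * (m a).size + 1 + (2 * (m a).size + 1) + 1)
    ((((((Bdd.const 4).mul hm.bddSize).add (Bdd.const 1))).add
      (((Bdd.const 2).mul hm.bddSize).add (Bdd.const 1))).add (Bdd.const 1)) ?_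
  · have h1 : BT (fun p : α × (ℕ × (Bin × ℕ)) => p.2.2.1.val) := PT.val PT.id.snd.snd.fst
    have h2 : BT (fun p : α × (ℕ × (Bin × ℕ)) => d p.1) := BT.comp hd PT.id.fst
    exact PT.iteProp (c := fun p : α × (ℕ × (Bin × ℕ)) => p.2.2.1.val % d p.1 = 0)
      (BT.eq (BT.mod h1 h2) (BT.const 0))
      (PT.pair (BT.div h1 h2) (PT.succ PT.id.snd.snd.snd)) PT.id.snd.snd
  · intro a k hk
    obtain ⟨h1, h2⟩ := strip_bound (d a) (m a) k
    rw [sz_prod]
    have h3 := sz_bin_le (Nat.rec (motive := fun _ => Bin × ℕ) (⟨m a⟩, 0)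
      (fun _ s => stripStep (d a) s) k).1
    have h4 := Nat.size_le_size h1
    rw [sz_nat]
    omega

/-- One step of the trial division. -/
def tdStep (s : Bin × List (Bin × ℕ)) (i : ℕ) : Bin × List (Bin × ℕ) :=
  ((strip (i + 2) s.1.val).1, (⟨i + 2⟩, (strip (i + 2) s.1.val).2) :: s.2)

/-- Trial division of `m` by `2, ..., t + 1`. -/
def td (t m : ℕ) : Bin × List (Bin × ℕ) := (List.range t).foldl tdStep (⟨m⟩, [])

theorem td_bound (l : List ℕ) (m t : ℕ) (hl : ∀ i ∈ l, i < t) :
    ∀ s : Bin × List (Bin × ℕ), s.1.val ≤ m →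
    (∀ p ∈ s.2, p.1.val ≤ t + 1 ∧ p.2 ≤ m.size) →
    (l.foldl tdStep s).1.val ≤ m ∧
    (∀ p ∈ (l.foldl tdStep s).2, p.1.val ≤ t + 1 ∧ p.2 ≤ m.size) ∧
    (l.foldl tdStep s).2.length = s.2.length + l.length := by
  induction l with
  | nil => intro s h1 h2; exact ⟨h1, h2, rfl⟩
  | cons i l ih =>
    intro s h1 h2
    rw [List.foldl_cons]
    obtain ⟨g1, g2⟩ := strip_bound (i + 2) s.1.val s.1.val.size
    have h3 := ih (fun j hj => hl j (List.mem_cons_of_mem _ hj)) (tdStep s i) (g1.trans h1) (by
      intro p hp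
      rcases List.mem_cons.1 hp with rfl | hp
      · have := hl i List.mem_cons_self
        exact ⟨by simp only; omega, g2.trans (Nat.size_le_size h1)⟩
      · exact h2 p hp)
    refine ⟨h3.1, h3.2.1, ?_⟩
    rw [h3.2.2]
    simp only [tdStep, List.length_cons]; omega

theorem PT.td {t m : α → ℕ} (ht : PT t) (hm : BT m) : PT (fun a => td (t a) (m a)) := by
  refine PT.foldl (g := fun _ => tdStep) (PT.range ht) (PT.pair hm (PT.const [])) ?_
    (B := fun a => 4 * (m a).size + 1 +
      (sz (t a) * (4 * (sz (t a) + 1) + 1 + (2 * (m a).size + 1) + 1 + 1) + 1) + 1)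
    ((((((Bdd.const 4).mul hm.bddSize).add (Bdd.const 1))).add
      ((ht.bdd.mul ((((((Bdd.const 4).mul (ht.bdd.add (Bdd.const 1))).add (Bdd.const 1)).add
        (((Bdd.const 2).mul hm.bddSize).add (Bdd.const 1))).add (Bdd.const 1)).add
        (Bdd.const 1))).add (Bdd.const 1))).add (Bdd.const 1)) ?_
  · have h1 : BT (fun p : α × ((Bin × List (Bin × ℕ)) × ℕ) => p.2.2 + 2) :=
      PT.toBin (PT.add PT.id.snd.snd (PT.const 2))
    have h2 : BT (fun p : α × ((Bin × List (Bin × ℕ)) × ℕ) => p.2.1.1.val) :=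
      PT.val PT.id.snd.fst.fst
    exact PT.pair (PT.strip h1 h2).fst
      (PT.cons (PT.pair h1 (PT.strip h1 h2).snd) PT.id.snd.fst.snd)
  · intro a l' hl'
    have hmem : ∀ i ∈ l', i < t a := fun i hi => List.mem_range.1 (hl'.subset hi)
    obtain ⟨h1, h2, h3⟩ := td_bound l' (m a) (t a) hmem (⟨m a⟩, []) le_rfl (by simp)
    rw [sz_prod]
    have h4 := sz_bin_le (l'.foldl tdStep (⟨m a⟩, [])).1
    have h5 := Nat.size_le_size h1
    have h6 := sz_le_of_forall (l'.foldl tdStep (⟨m a⟩, [])).2
      (4 * (sz (t a) + 1) + 1 + (2 * (m a).size + 1) + 1) (by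
        intro p hp
        obtain ⟨g1, g2⟩ := h2 p hp
        rw [sz_prod, sz_nat p.2]
        have g3 := sz_bin_le p.1
        have g4 : p.1.val.size ≤ t a + 1 :=
          Nat.size_le.2 (Nat.lt_of_le_of_lt g1 Nat.lt_two_pow_self)
        have g5 : sz (t a) = 2 * t a + 1 := sz_nat _
        omega)
    have h7 : (l'.foldl tdStep (⟨m a⟩, [])).2.length ≤ sz (t a) := by
      rw [h3]
      have := hl'.length_le
      rw [List.length_range] at this
      rw [sz_nat]; simp only [List.length_nil]; omega
    have h8 := Nat.mul_le_mul_right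
      (4 * (sz (t a) + 1) + 1 + (2 * (m a).size + 1) + 1 + 1) h7
    omega

/-! ### The list of divisors -/

/-- One step of the list of divisors. -/
def divStep' (t : ℕ) (p : Bin × ℕ) (acc : List Bin) : List Bin :=
  ((List.range (p.2 + 1)).flatMap fun j => acc.map fun a => ⟨a.val * p.1.val ^ j⟩).take t

/-- The products of powers `d ^ j`, `j ≤ v`, for the pairs `(d, v)` of the list `l`, cut after
`t` elements in each step. -/
def divL (t : ℕ) (l : List (Bin × ℕ)) : List Bin := l.foldr (divStep' t) [⟨1⟩]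

theorem length_divL_le (t : ℕ) (l : List (Bin × ℕ)) : (divL t l).length ≤ t + 1 := by
  cases l with
  | nil => simp [divL]
  | cons p l => exact (List.length_take_le _ _).trans (Nat.le_succ _)

theorem size_divL (t : ℕ) (l : List (Bin × ℕ)) :
    ∀ a ∈ divL t l, a.val.size ≤ sz l * sz l := by
  induction l with
  | nil => intro a ha; simp [divL] at ha; simp [ha]
  | cons p l ih =>
    intro a ha
    have h1 := List.mem_of_mem_take ha
    obtain ⟨j, hj, h2⟩ := List.mem_flatMap.1 h1
    obtain ⟨b, hb, rfl⟩ := List.mem_map.1 h2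
    have hj' : j ≤ p.2 := Nat.lt_succ_iff.1 (List.mem_range.1 hj)
    have g0 := ih b hb
    simp only
    have g1 := size_mul_le b.val (p.1.val ^ j)
    have g2 := size_pow_le p.1.val j
    have g3 := size_le_sz p.1
    have g4 : sz p = sz p.1 + sz p.2 + 1 := sz_prod p
    have g5 : sz p.2 = 2 * p.2 + 1 := sz_nat _
    have g6 : j * p.1.val.size ≤ p.2 * sz p.1 := Nat.mul_le_mul hj' g3
    have g7 : sz (p :: l) = sz p + sz l + 1 := sz_cons _ _
    rw [g7, g4, g5]
    have g8 := sz_pos l
    nlinarith [sz_pos p.1]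

theorem PT.divL {t : α → ℕ} {l : α → List (Bin × ℕ)} (ht : PT t) (hl : PT l) :
    PT (fun a => divL (t a) (l a)) := by
  refine PT.foldr (g := fun a p acc => divStep' (t a) p acc) hl (PT.const [Bin.mk 1]) ?_
    (B := fun a => (sz (t a) + 1) * (4 * (sz (l a) * sz (l a)) + 1 + 1) + 1)
    (((ht.bdd.add (Bdd.const 1)).mul ((((Bdd.const 4).mul (hl.bdd.mul hl.bdd)).add
      (Bdd.const 1)).add (Bdd.const 1))).add (Bdd.const 1)) ?_
  · refine PT.take (PT.flatMap (α := α × ((Bin × ℕ) × List Bin))
      (g := fun p j => p.2.2.map fun a => (⟨a.val * p.2.1.1.val ^ j⟩ : Bin))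
      (PT.range (PT.succ PT.id.snd.fst.snd)) ?_) (PT.comp ht PT.id.fst)
    refine PT.map (α := (α × ((Bin × ℕ) × List Bin)) × ℕ)
      (g := fun q a => (⟨a.val * q.1.2.1.1.val ^ q.2⟩ : Bin)) PT.id.fst.snd.snd ?_
    exact BT.mul (PT.val PT.id.snd) (BT.pow (PT.val PT.id.fst.fst.snd.fst.fst) PT.id.fst.snd)
  · intro a l' hl'
    have h0 := sz_sublist hl'.sublist
    refine (sz_le_of_forall _ (4 * (sz (l a) * sz (l a)) + 1) ?_).trans ?_
    · intro b hb
      refine (sz_bin_le b).trans ?_
      have h1 := size_divL (t a) l' b hb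
      have h2 := Nat.mul_le_mul h0 h0
      omega
    · have h1 := length_divL_le (t a) l'
      have h2 : t a ≤ sz (t a) := by rw [sz_nat]; omega
      have h3 := Nat.mul_le_mul_right (4 * (sz (l a) * sz (l a)) + 1 + 1)
        (h1.trans (Nat.add_le_add_right h2 1))
      change (MP_394210_lc.divL (t a) l').length * _ + 1 ≤ _
      omega

/-! ### The main algorithm -/

/-- All equations for `K` unknowns with coefficient in `L` and exponents up to `N`. -/
def rowsOf (L : List Bin) (N t K : ℕ) : List Row :=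
  L ×ˢ (((List.range N).map fun e => e + 1) ×ˢ tuples (List.range (N + 1)) t K)

/-- The list with `v` copies of `d`, for all pairs `(d, v)`. -/
def expand (l : List (Bin × ℕ)) : List Bin := l.flatMap fun p => List.replicate p.2 p.1

/-- The factorisation of `B` given by a solution, if it is one. -/
def good (B : ℕ) (x : List Bin) (rows : List Row) : List Bin :=
  if pp (x.zip (rows.map fun r => r.2.1)) = B ∧ (x.all fun z => decide (2 ≤ z.val)) = true
  then expand (x.zip (rows.map fun r => r.2.1)) else []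

/-- The longer of two lists. -/
def longer (b c : List Bin) : List Bin := if b.length < c.length then c else b

/-- A longest list in a list of lists. -/
def longest (l : List (List Bin)) : List Bin := l.foldl longer []

/-- The product of the coefficients of a list of equations. -/
def rprod (v : List Row) : ℕ := pp (v.map fun r => (r.1, 1))

/-- The lists of `k` equations from `l` whose product of coefficients divides `A`, cut after
`t` elements in each step. -/
def rtuples (A : ℕ) (l : List Row) (t k : ℕ) : List (List Row) :=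
  Nat.rec (motive := fun _ => List (List Row)) [[]]
    (fun _ acc => ((l.flatMap fun b => acc.map fun v => b :: v).filter
      fun v => decide (A % rprod v = 0)).take t) k

theorem rtuples_zero (A : ℕ) (l : List Row) (t : ℕ) : rtuples A l t 0 = [[]] := rfl

theorem rtuples_succ (A : ℕ) (l : List Row) (t k : ℕ) :
    rtuples A l t (k + 1) = ((l.flatMap fun b => (rtuples A l t k).map fun v => b :: v).filter
      fun v => decide (A % rprod v = 0)).take t := rfl

theorem length_rtuples_le (A : ℕ) (l : List Row) (t k : ℕ) :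
    (rtuples A l t k).length ≤ t + 1 := by
  cases k with
  | zero => simp [rtuples_zero]
  | succ k => rw [rtuples_succ]; exact (List.length_take_le _ _).trans (Nat.le_succ _)

theorem mem_rtuples (A : ℕ) (l : List Row) (t k : ℕ) :
    ∀ v ∈ rtuples A l t k, v.length = k ∧ ∀ b ∈ v, b ∈ l := by
  induction k with
  | zero => intro v hv; simp [rtuples_zero] at hv; simp [hv]
  | succ k ih =>
    intro v hv
    rw [rtuples_succ] at hv
    have h1 := (List.mem_filter.1 (List.mem_of_mem_take hv)).1
    obtain ⟨b, hb, h2⟩ := List.mem_flatMap.1 h1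
    obtain ⟨w, hw, rfl⟩ := List.mem_map.1 h2
    obtain ⟨h3, h4⟩ := ih w hw
    refine ⟨by simp [h3], fun c hc => ?_⟩
    rcases List.mem_cons.1 hc with rfl | hc
    · exact hb
    · exact h4 c hc

theorem sz_rtuples_le (A : ℕ) (l : List Row) (t k : ℕ) :
    sz (rtuples A l t k) ≤ (t + 1) * (k * (sz l + 1) + 1 + 1) + 1 := by
  refine (sz_le_of_forall _ (k * (sz l + 1) + 1) ?_).trans ?_
  · intro v hv
    obtain ⟨h1, h2⟩ := mem_rtuples A l t k v hv
    refine (sz_le_of_forall v (sz l) fun b hb => sz_mem_le (h2 b hb)).trans ?_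
    rw [h1]
  · have := Nat.mul_le_mul_right (k * (sz l + 1) + 1 + 1) (length_rtuples_le A l t k)
    omega

theorem BT.rprod {v : α → List Row} (hv : PT v) : BT (fun a => rprod (v a)) :=
  BT.pp (PT.map (g := fun _ (r : Row) => (r.1, 1)) hv (PT.pair PT.id.snd.fst (PT.const 1)))

theorem PT.rtuples {A : α → ℕ} {l : α → List Row} {t k : α → ℕ} (hA : BT A) (hl : PT l)
    (ht : PT t) (hk : PT k) : PT (fun a => rtuples (A a) (l a) (t a) (k a)) := by
  refine PT.natRec
    (g := fun a _ acc => (((l a).flatMap fun b => acc.map fun v => b :: v).filter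
      fun v => decide (A a % MP_394210_lc.rprod v = 0)).take (t a)) hk
    (PT.const [[]]) ?_
    (B := fun a => (sz (t a) + 1) * (sz (k a) * (sz (l a) + 1) + 1 + 1) + 1)
    (((ht.bdd.add (Bdd.const 1)).mul (((hk.bdd.mul (hl.bdd.add (Bdd.const 1))).add
      (Bdd.const 1)).add (Bdd.const 1))).add (Bdd.const 1)) ?_
  · refine PT.take (PT.filter (α := α × (ℕ × List (List Row)))
      (g := fun p v => decide (A p.1 % MP_394210_lc.rprod v = 0))
      (PT.flatMap (α := α × (ℕ × List (List Row)))
      (g := fun p b => p.2.2.map fun v => b :: v) (PT.comp hl PT.id.fst) ?_) ?_)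
      (PT.comp ht PT.id.fst)
    · exact PT.map (α := (α × (ℕ × List (List Row))) × Row) (g := fun q v => q.2 :: v)
        PT.id.fst.snd.snd (PT.cons PT.id.fst.snd PT.id.snd)
    · exact BT.eq (BT.mod (BT.comp hA PT.id.fst.fst) (BT.rprod PT.id.snd)) (BT.const 0)
  · intro a m hm
    refine (sz_rtuples_le (A a) (l a) (t a) m).trans ?_
    have h1 : t a + 1 ≤ sz (t a) + 1 := by rw [sz_nat]; omega
    have h2 : m ≤ sz (k a) := by rw [sz_nat]; omega
    have h3 := Nat.mul_le_mul_right (sz (l a) + 1) h2
    have h4 := Nat.mul_le_mul h1 (Nat.add_le_add_right (Nat.add_le_add_right h3 1) 1)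
    omega

/-- All factorisations of `B` found. -/
def cands (n B A t N : ℕ) (L : List Bin) : List (List Bin) :=
  (List.range (N + 1)).flatMap fun K =>
    (rtuples A (rowsOf L N t K) t K).map fun rows => good B (solve n t rows) rows

/-- The algorithm. -/
def factor (n c t : ℕ) : List Bin :=
  expand (td t n).2 ++ longest (cands n (td t n).1.val (pp (td t (c * n)).2) t n.size
    (divL t (td t (c * n)).2))

theorem PT.rowsOf {L : α → List Bin} {N t K : α → ℕ} (hL : PT L) (hN : PT N) (ht : PT t)
    (hK : PT K) : PT (fun a => rowsOf (L a) (N a) (t a) (K a)) :=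
  PT.product hL (PT.product (PT.map (g := fun _ e => e + 1) (PT.range hN) (PT.succ PT.id.snd))
    (PT.tuples (PT.range (PT.succ hN)) ht hK))

theorem PT.expand {l : α → List (Bin × ℕ)} (hl : PT l) : PT (fun a => expand (l a)) :=
  PT.flatMap (g := fun _ (p : Bin × ℕ) => List.replicate p.2 p.1) hl
    (PT.replicate PT.id.snd.snd PT.id.snd.fst)

theorem PT.good {B : α → ℕ} {x : α → List Bin} {rows : α → List Row} (hB : BT B) (hx : PT x)
    (hr : PT rows) : PT (fun a => good (B a) (x a) (rows a)) := by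
  have h1 : PT (fun a => (x a).zip ((rows a).map fun r => r.2.1)) :=
    PT.zip hx (PT.map (g := fun _ (r : Row) => r.2.1) hr PT.id.snd.snd.fst)
  have h2 : PT (fun a => (x a).all fun z => decide (2 ≤ z.val)) :=
    PT.all (g := fun _ (z : Bin) => decide (2 ≤ z.val)) hx
      (BT.le (BT.const 2) (PT.val PT.id.snd))
  refine PT.iteProp (PT.decAnd (BT.eq (BT.pp h1) hB) ?_) (PT.expand h1) (PT.const [])
  exact h2.congr fun a => Bool.decide_eq_true.symm

theorem PT.longest {l : α → List (List Bin)} (hl : PT l) : PT (fun a => longest (l a)) := by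
  refine PT.foldl (g := fun _ => longer) hl (PT.const []) ?_ (B := fun a => sz (l a))
    hl.bdd ?_
  · exact PT.iteProp (c := fun p : α × (List Bin × List Bin) => p.2.1.length < p.2.2.length)
      (PT.lt PT.id.snd.fst.length PT.id.snd.snd.length) PT.id.snd.snd PT.id.snd.fst
  · intro a l' hl'
    have key : ∀ (l : List (List Bin)) (b : List Bin), sz (l.foldl longer b) ≤ max (sz b) (sz l) := by
      intro l
      induction l with
      | nil => intro b; simp
      | cons c l ih =>
        intro b
        rw [List.foldl_cons]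
        refine (ih _).trans ?_
        have : sz (longer b c) ≤ max (sz b) (sz c) := by
          unfold longer; split
          · exact le_max_right _ _
          · exact le_max_left _ _
        simp only [sz_cons]
        omega
    have h1 := key l' []
    have h2 := sz_sublist hl'.sublist
    have h3 := sz_pos l'
    have h4 : sz ([] : List Bin) = 1 := rfl
    omega

theorem PT.cands {n B A t N : α → ℕ} {L : α → List Bin} (hn : BT n) (hB : BT B) (hA : BT A)
    (ht : PT t) (hN : PT N) (hL : PT L) :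
    PT (fun a => cands (n a) (B a) (A a) (t a) (N a) (L a)) := by
  refine PT.flatMap (g := fun a K =>
    (MP_394210_lc.rtuples (A a) (MP_394210_lc.rowsOf (L a) (N a) (t a) K) (t a) K).map fun rows =>
      MP_394210_lc.good (B a) (MP_394210_lc.solve (n a) (t a) rows) rows)
    (PT.range (PT.succ hN)) ?_
  refine PT.map (α := α × ℕ) (g := fun p rows => MP_394210_lc.good (B p.1)
    (MP_394210_lc.solve (n p.1) (t p.1) rows) rows)
    (PT.rtuples (BT.comp hA PT.id.fst)
      (PT.rowsOf (PT.comp hL PT.id.fst) (PT.comp hN PT.id.fst) (PT.comp ht PT.id.fst)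
      PT.id.snd) (PT.comp ht PT.id.fst) PT.id.snd) ?_
  exact PT.good (BT.comp hB PT.id.fst.fst) (PT.solve (BT.comp hn PT.id.fst.fst)
    (PT.comp ht PT.id.fst.fst) PT.id.snd) PT.id.snd

theorem PT.factor {n c t : α → ℕ} (hn : BT n) (hc : BT c) (ht : PT t) :
    PT (fun a => factor (n a) (c a) (t a)) :=
  PT.append (PT.expand (PT.td ht hn).snd) (PT.longest (PT.cands hn (PT.val (PT.td ht hn).fst)
    (BT.pp (PT.td ht (BT.mul hc hn)).snd) ht
    hn.size (PT.divL ht (PT.td ht (BT.mul hc hn)).snd)))

end Pool.Agent.Lib.MP_394210_lc
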