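import Pool.Agent.Lib.MP_394210_lc.Alg2

/-!
# Correctness of trial division and of the enumerations
-/

namespace Pool.Agent.Lib.MP_394210_lc

open Pool.Agent.PolyTime Function

universe v

/-! ### Trial division -/

theorem td_succ (t m : ℕ) : td (t + 1) m = tdStep (td t m) t := by
  rw [td, td, List.range_succ, List.foldl_append]; rfl

theorem pp_cons (p : Bin × ℕ) (l : List (Bin × ℕ)) :
    pp (p :: l) = p.1.val ^ p.2 * pp l := by rw [pp_eq, pp_eq]; simp

@[simp] theorem pp_nil : pp [] = 1 := rfl

theorem td_spec (t m : ℕ) (hm : 0 < m) :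
    m = (td t m).1.val * pp (td t m).2 ∧
    (∀ p ∈ (td t m).2, p.2 ≠ 0 → p.1.val.Prime) ∧
    (∀ p ∈ (td t m).2, p.1.val ≤ t + 1) ∧
    (∀ q : ℕ, q.Prime → q ∣ (td t m).1.val → t + 1 < q) ∧
    ((td t m).2.map fun p => p.1.val).Nodup := by
  induction t with
  | zero =>
    refine ⟨by simp [td], by simp [td], by simp [td], fun q hq _ => ?_, by simp [td]⟩
    exact hq.one_lt
  | succ t ih =>
    obtain ⟨h1, h2, h3, h4, h5⟩ := ih
    rw [td_succ]
    set s := td t m with hs
    have hpos : 0 < s.1.val := by
      rcases Nat.eq_zero_or_pos s.1.val with h | h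
      · rw [h, zero_mul] at h1; omega
      · exact h
    obtain ⟨g1, g2⟩ := strip_spec (t + 2) s.1.val (by omega) hpos
    refine ⟨?_, ?_, ?_, ?_, ?_⟩
    · change m = (strip (t + 2) s.1.val).1.val *
        pp ((⟨t + 2⟩, (strip (t + 2) s.1.val).2) :: s.2)
      rw [pp_cons, ← mul_assoc]
      simp only
      rw [← g1]; exact h1
    · intro p hp hp0
      rcases List.mem_cons.1 hp with rfl | hp
      · simp only at hp0 ⊢
        have hdvd : t + 2 ∣ s.1.val := by
          rw [g1]
          exact Dvd.dvd.mul_left (dvd_pow_self _ hp0) _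
        have hq := Nat.minFac_prime (n := t + 2) (by omega)
        have hq1 := h4 _ hq ((Nat.minFac_dvd _).trans hdvd)
        have hq2 := Nat.minFac_le (n := t + 2) (by omega)
        have hq3 : (t + 2).minFac = t + 2 := by omega
        rw [← hq3]; exact hq
      · exact h2 p hp hp0
    · intro p hp
      rcases List.mem_cons.1 hp with rfl | hp
      · simp only; omega
      · exact (h3 p hp).trans (Nat.le_succ _)
    · intro q hq hqd
      have hqd' : q ∣ (strip (t + 2) s.1.val).1.val := hqd
      have e1 : q ∣ s.1.val := by rw [g1]; exact Dvd.dvd.mul_right hqd' _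
      have e2 := h4 q hq e1
      have e3 : q ≠ t + 2 := by
        rintro rfl
        exact g2 hqd'
      omega
    · change (((⟨t + 2⟩, (strip (t + 2) s.1.val).2) :: s.2).map
        fun p : Bin × ℕ => p.1.val).Nodup
      rw [List.map_cons, List.nodup_cons]
      refine ⟨fun hmem => ?_, h5⟩
      obtain ⟨p, hp, hp'⟩ := List.mem_map.1 hmem
      have := h3 p hp
      simp only at hp'
      omega

theorem prod_expand (l : List (Bin × ℕ)) : ((expand l).map Bin.val).prod = pp l := by
  induction l with
  | nil => rfl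
  | cons p l ih =>
    have e : expand (p :: l) = List.replicate p.2 p.1 ++ expand l := rfl
    rw [e, List.map_append, List.prod_append, ih, pp_cons, List.map_replicate,
      List.prod_replicate]

theorem mem_expand {l : List (Bin × ℕ)} {z : Bin} (hz : z ∈ expand l) :
    ∃ p ∈ l, p.2 ≠ 0 ∧ p.1 = z := by
  obtain ⟨p, hp, hz⟩ := List.mem_flatMap.1 hz
  obtain ⟨h1, h2⟩ := List.mem_replicate.1 hz
  exact ⟨p, hp, h1, h2.symm⟩

theorem length_expand (l : List (Bin × ℕ)) : (expand l).length = (l.map Prod.snd).sum := by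
  induction l with
  | nil => rfl
  | cons p l ih =>
    have e : expand (p :: l) = List.replicate p.2 p.1 ++ expand l := rfl
    rw [e, List.length_append, ih, List.length_replicate]; simp

/-! ### Divisors -/

theorem length_divStep' (p : Bin × ℕ) (acc : List Bin) :
    ((List.range (p.2 + 1)).flatMap fun j =>
      acc.map fun a => (⟨a.val * p.1.val ^ j⟩ : Bin)).length = (p.2 + 1) * acc.length := by
  rw [List.length_flatMap]
  simp

theorem mem_divL (t : ℕ) (l : List (Bin × ℕ)) (hp : ∀ p ∈ l, p.2 ≠ 0 → p.1.val.Prime)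
    (hl : (l.map fun p => p.2 + 1).prod ≤ t) :
    (divL t l).length = (l.map fun p => p.2 + 1).prod ∧
    ∀ a, a ∣ pp l → (⟨a⟩ : Bin) ∈ divL t l := by
  induction l with
  | nil =>
    refine ⟨rfl, fun a ha => ?_⟩
    rw [pp_nil, Nat.dvd_one] at ha
    simp [divL, ha]
  | cons p l ih =>
    rw [List.map_cons, List.prod_cons] at hl
    have hpos : 1 ≤ (l.map fun p => p.2 + 1).prod := by
      apply Nat.one_le_iff_ne_zero.2
      rw [Ne, List.prod_eq_zero_iff]
      intro h
      obtain ⟨q, _, hq⟩ := List.mem_map.1 h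
      omega
    have hle : (l.map fun p => p.2 + 1).prod ≤ t := by nlinarith
    obtain ⟨h1, h2⟩ := ih (fun q hq => hp q (List.mem_cons_of_mem _ hq)) hle
    have e : divL t (p :: l) = ((List.range (p.2 + 1)).flatMap fun j =>
        (divL t l).map fun a => (⟨a.val * p.1.val ^ j⟩ : Bin)).take t := rfl
    have e2 := length_divStep' p (divL t l)
    rw [h1] at e2
    rw [e, List.take_of_length_le (by rw [e2]; exact hl)]
    refine ⟨by rw [e2]; simp, fun a ha => ?_⟩
    rw [pp_cons, Nat.dvd_mul] at ha
    obtain ⟨a1, a2, ha1, ha2, rfl⟩ := ha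
    have h3 : ∃ j ≤ p.2, a1 = p.1.val ^ j := by
      rcases Nat.eq_zero_or_pos p.2 with h0 | h0
      · rw [h0, pow_zero, Nat.dvd_one] at ha1
        exact ⟨0, Nat.zero_le _, by rw [ha1, pow_zero]⟩
      · exact (Nat.dvd_prime_pow (hp p List.mem_cons_self (by omega))).1 ha1
    obtain ⟨j, hj, rfl⟩ := h3
    refine List.mem_flatMap.2 ⟨j, List.mem_range.2 (by omega), List.mem_map.2
      ⟨⟨a2⟩, h2 a2 ha2, ?_⟩⟩
    simp [mul_comm]

theorem prod_succ_eq_card (l : List (Bin × ℕ)) (hp : ∀ p ∈ l, p.2 ≠ 0 → p.1.val.Prime)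
    (hn : (l.map fun p => p.1.val).Nodup) :
    (l.map fun p => p.2 + 1).prod = (pp l).divisors.card ∧
    ∀ q : ℕ, q.Prime → q ∣ pp l → q ∈ l.map fun p => p.1.val := by
  induction l with
  | nil =>
    refine ⟨by simp, fun q hq hqd => ?_⟩
    rw [pp_nil, Nat.dvd_one] at hqd
    exact absurd hqd hq.one_lt.ne'
  | cons p l ih =>
    rw [List.map_cons, List.nodup_cons] at hn
    obtain ⟨h1, h2⟩ := ih (fun q hq => hp q (List.mem_cons_of_mem _ hq)) hn.2
    have hdiv : ∀ q : ℕ, q.Prime → q ∣ p.1.val ^ p.2 → q = p.1.val := by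
      intro q hq hqd
      have h0 : p.2 ≠ 0 := by
        intro h0; rw [h0, pow_zero, Nat.dvd_one] at hqd
        exact absurd hqd hq.one_lt.ne'
      exact (Nat.prime_dvd_prime_iff_eq hq (hp p List.mem_cons_self h0)).1
        (hq.dvd_of_dvd_pow hqd)
    have hcop : Nat.Coprime (p.1.val ^ p.2) (pp l) := by
      rw [Nat.coprime_iff_gcd_eq_one]
      by_contra hg
      obtain ⟨q, hq, hqd⟩ := Nat.exists_prime_and_dvd hg
      have e1 := hdiv q hq (hqd.trans (Nat.gcd_dvd_left _ _))
      have e2 := h2 q hq (hqd.trans (Nat.gcd_dvd_right _ _))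
      rw [e1] at e2
      exact hn.1 e2
    refine ⟨?_, fun q hq hqd => ?_⟩
    · rw [List.map_cons, List.prod_cons, pp_cons, hcop.card_divisors_mul, h1]
      congr 1
      rcases Nat.eq_zero_or_pos p.2 with h0 | h0
      · simp [h0]
      · rw [Nat.divisors_prime_pow (hp p List.mem_cons_self (by omega))]; simp
    · rw [pp_cons] at hqd
      rcases (Nat.Prime.dvd_mul hq).1 hqd with h | h
      · rw [hdiv q hq h]; simp
      · rw [List.map_cons]; exact List.mem_cons_of_mem _ (h2 q hq h)

/-! ### Tuples -/

theorem mem_tuples_of {β : Type v} (l : List β) (t k : ℕ) (hl : l.length ^ k ≤ t)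
    (h1 : 1 ≤ l.length) :
    (tuples l t k).length = l.length ^ k ∧
    ∀ v : List β, v.length = k → (∀ b ∈ v, b ∈ l) → v ∈ tuples l t k := by
  induction k with
  | zero =>
    refine ⟨rfl, fun v hv _ => ?_⟩
    rw [List.length_eq_zero_iff] at hv
    simp [hv, tuples_zero]
  | succ k ih =>
    have hle : l.length ^ k ≤ t := (Nat.pow_le_pow_right h1 (Nat.le_succ k)).trans hl
    obtain ⟨g1, g2⟩ := ih hle
    have e : (l.flatMap fun b => (tuples l t k).map fun v => b :: v).length
        = l.length ^ (k + 1) := by
      rw [List.length_flatMap]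
      simp [g1, pow_succ, mul_comm]
    rw [tuples_succ, List.take_of_length_le (by rw [e]; exact hl)]
    refine ⟨e, fun v hv hb => ?_⟩
    cases v with
    | nil => simp at hv
    | cons b v =>
      refine List.mem_flatMap.2 ⟨b, hb b List.mem_cons_self, List.mem_map.2 ⟨v, g2 v ?_ ?_, rfl⟩⟩
      · simpa using hv
      · exact fun c hc => hb c (List.mem_cons_of_mem _ hc)

/-! ### The longest list -/

theorem longest_spec (l : List (List Bin)) :
    (longest l = [] ∨ longest l ∈ l) ∧ ∀ c ∈ l, c.length ≤ (longest l).length := by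
  have key : ∀ (l : List (List Bin)) (b : List Bin),
      (l.foldl longer b = b ∨ l.foldl longer b ∈ l) ∧ b.length ≤ (l.foldl longer b).length ∧
      ∀ c ∈ l, c.length ≤ (l.foldl longer b).length := by
    intro l
    induction l with
    | nil => intro b; simp
    | cons c l ih =>
      intro b
      rw [List.foldl_cons]
      obtain ⟨h1, h2, h3⟩ := ih (longer b c)
      have h4 : longer b c = b ∨ longer b c = c := by
        unfold longer; split
        · right; rfl
        · left; rfl
      have h5 : b.length ≤ (longer b c).length ∧ c.length ≤ (longer b c).length := by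
        unfold longer; split <;> constructor <;> omega
      refine ⟨?_, by omega, ?_⟩
      · rcases h1 with h1 | h1
        · rw [h1]
          rcases h4 with h4 | h4
          · left; exact h4
          · right; rw [h4]; exact List.mem_cons_self
        · right; exact List.mem_cons_of_mem _ h1
      · intro d hd
        rcases List.mem_cons.1 hd with rfl | hd
        · omega
        · exact h3 d hd
  obtain ⟨h1, _, h3⟩ := key l []
  exact ⟨h1, h3⟩

theorem good_spec {B : ℕ} {x : List Bin} {rows : List Row} {l : List Bin}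
    (h : good B x rows = l) (hl : l ≠ []) :
    (l.map Bin.val).prod = B ∧ ∀ z ∈ l, 2 ≤ z.val := by
  unfold good at h
  split at h
  · rename_i h1
    subst h
    refine ⟨by rw [prod_expand]; exact h1.1, fun z hz => ?_⟩
    obtain ⟨p, hp, _, rfl⟩ := mem_expand hz
    have h2 := (List.of_mem_zip hp).1
    have h3 := List.all_eq_true.1 h1.2 _ h2
    simpa using h3
  · exact absurd h.symm hl

/-- A list of numbers `≥ 2` with product `B` has at most `Ω(B)` elements, and if it has
`Ω(B)` elements then all are prime. -/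
theorem prime_of_length (l : List ℕ) (h2 : ∀ z ∈ l, 2 ≤ z) :
    l.length ≤ (l.prod).primeFactorsList.length ∧
    ((l.prod).primeFactorsList.length ≤ l.length → ∀ z ∈ l, z.Prime) := by
  induction l with
  | nil => simp
  | cons z l ih =>
    obtain ⟨h3, h4⟩ := ih fun w hw => h2 w (List.mem_cons_of_mem _ hw)
    have hz := h2 z List.mem_cons_self
    have hp0 : l.prod ≠ 0 := by
      rw [Ne, List.prod_eq_zero_iff]
      intro h0
      have := h2 0 (List.mem_cons_of_mem _ h0)
      omega
    have e : ((z :: l).prod).primeFactorsList.length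
        = z.primeFactorsList.length + (l.prod).primeFactorsList.length := by
      rw [List.prod_cons, (Nat.perm_primeFactorsList_mul (by omega) hp0).length_eq,
        List.length_append]
    have hz1 : 1 ≤ z.primeFactorsList.length := by
      rw [Nat.one_le_iff_ne_zero, Ne, List.length_eq_zero_iff, Nat.primeFactorsList_eq_nil]
      omega
    rw [e, List.length_cons]
    refine ⟨by omega, fun h w hw => ?_⟩
    have h5 : z.primeFactorsList.length = 1 := by omega
    rcases List.mem_cons.1 hw with rfl | hw
    · obtain ⟨q, hq⟩ := List.length_eq_one_iff.1 h5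
      have h6 := Nat.prod_primeFactorsList (n := w) (by omega)
      rw [hq] at h6
      have h7 : q ∈ w.primeFactorsList := by rw [hq]; exact List.mem_cons_self
      have h8 := Nat.prime_of_mem_primeFactorsList h7
      simp at h6
      rw [← h6]; exact h8
    · exact h4 (by omega) w hw

end Pool.Agent.Lib.MP_394210_lc
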