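import Mathlib
import Pool.Agent.Lib.MP_394210_lc.Corr1

/-!
# Counting divisors and systems by Rankin's trick
-/

namespace Pool.Agent.Lib.MP_394210_lc

open Pool.Agent.PolyTime Function

/-- The sum of `(p ^ j) ^ (-d)` for `j ≤ v`. -/
noncomputable def gs (d : ℝ) (p : Bin × ℕ) : ℝ :=
  ∑ j ∈ Finset.range (p.2 + 1), (((p.1.val : ℝ) ^ j) ^ (-d))

theorem sum_map_flatMap {β γ : Type*} (l : List β) (g : β → List γ) (f : γ → ℝ) :
    ((l.flatMap g).map f).sum = (l.map fun b => ((g b).map f).sum).sum := by
  induction l with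
  | nil => rfl
  | cons b l ih => rw [List.flatMap_cons, List.map_append, List.sum_append, ih]; simp

theorem sum_map_mul_left' {β : Type*} (l : List β) (c : ℝ) (f : β → ℝ) :
    (l.map fun b => c * f b).sum = c * (l.map f).sum := by
  induction l with
  | nil => simp
  | cons b l ih => simp [ih, mul_add]

theorem sum_list_range (f : ℕ → ℝ) (m : ℕ) :
    ((List.range m).map f).sum = ∑ j ∈ Finset.range m, f j := by
  induction m with
  | zero => rfl
  | succ m ih => rw [List.range_succ, List.map_append, List.sum_append, ih,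
      Finset.sum_range_succ]; simp

theorem ws_divL (d : ℝ) (t : ℕ) (l : List (Bin × ℕ))
    (hl : (l.map fun p => p.2 + 1).prod ≤ t) :
    ((divL t l).map fun a => (a.val : ℝ) ^ (-d)).sum = (l.map (gs d)).prod := by
  induction l with
  | nil => simp [divL]
  | cons p l ih =>
    rw [List.map_cons, List.prod_cons] at hl
    have hpos : 1 ≤ (l.map fun p => p.2 + 1).prod := by
      apply Nat.one_le_iff_ne_zero.2
      rw [Ne, List.prod_eq_zero_iff]
      intro h
      obtain ⟨q, _, hq⟩ := List.mem_map.1 h
      omega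
    have hle : (l.map fun p => p.2 + 1).prod ≤ t := by nlinarith
    have h1 := ih hle
    have hlen : ∀ (l : List (Bin × ℕ)), (l.map fun p => p.2 + 1).prod ≤ t →
        (divL t l).length = (l.map fun p => p.2 + 1).prod := by
      intro l
      induction l with
      | nil => intro _; rfl
      | cons p l ih =>
        intro hl
        rw [List.map_cons, List.prod_cons] at hl
        have hpos : 1 ≤ (l.map fun p => p.2 + 1).prod := by
          apply Nat.one_le_iff_ne_zero.2
          rw [Ne, List.prod_eq_zero_iff]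
          intro h
          obtain ⟨q, _, hq⟩ := List.mem_map.1 h
          omega
        have hle : (l.map fun p => p.2 + 1).prod ≤ t := by nlinarith
        have e : divL t (p :: l) = ((List.range (p.2 + 1)).flatMap fun j =>
            (divL t l).map fun a => (⟨a.val * p.1.val ^ j⟩ : Bin)).take t := rfl
        have e2 := length_divStep' p (divL t l)
        rw [ih hle] at e2
        rw [e, List.take_of_length_le (by rw [e2]; exact hl), e2]
        simp
    have e : divL t (p :: l) = ((List.range (p.2 + 1)).flatMap fun j =>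
        (divL t l).map fun a => (⟨a.val * p.1.val ^ j⟩ : Bin)).take t := rfl
    have e2 := length_divStep' p (divL t l)
    rw [hlen l hle] at e2
    rw [e, List.take_of_length_le (by rw [e2]; exact hl), sum_map_flatMap]
    have e3 : ∀ j : ℕ, (((divL t l).map fun a => (⟨a.val * p.1.val ^ j⟩ : Bin)).map
        fun a => (a.val : ℝ) ^ (-d)).sum
        = (((p.1.val : ℝ) ^ j) ^ (-d)) * (l.map (gs d)).prod := by
      intro j
      rw [← h1, ← sum_map_mul_left', List.map_map]
      congr 1
      refine List.map_congr_left fun a _ => ?_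
      simp only [comp_apply]
      push_cast
      rw [Real.mul_rpow (by positivity) (by positivity), mul_comm]
    simp only [e3]
    rw [List.map_cons, List.prod_cons, gs, Finset.sum_mul, sum_list_range]

theorem gs_nonneg (d : ℝ) (p : Bin × ℕ) : 0 ≤ gs d p :=
  Finset.sum_nonneg fun j _ => by positivity

theorem one_le_gs (d : ℝ) (p : Bin × ℕ) : 1 ≤ gs d p := by
  rw [gs, Finset.sum_range_succ']
  have : 0 ≤ ∑ k ∈ Finset.range p.2, ((p.1.val : ℝ) ^ (k + 1)) ^ (-d) :=
    Finset.sum_nonneg fun j _ => by positivity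
  simp only [pow_zero, Real.one_rpow]
  linarith

/-- The number of divisors. -/
theorem prod_succ_le {d : ℝ} (hd : 0 ≤ d) (l : List (Bin × ℕ))
    (hp : ∀ p ∈ l, p.2 ≠ 0 → p.1.val.Prime) :
    (((l.map fun p => p.2 + 1).prod : ℕ) : ℝ) ≤ ((pp l : ℕ) : ℝ) ^ d * (l.map (gs d)).prod := by
  induction l with
  | nil => simp
  | cons p l ih =>
    have h1 := ih fun q hq => hp q (List.mem_cons_of_mem _ hq)
    have h2 : ((p.2 + 1 : ℕ) : ℝ) ≤ ((p.1.val : ℝ) ^ p.2) ^ d * gs d p := by
      rcases Nat.eq_zero_or_pos p.2 with h0 | h0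
      · rw [h0]; simp only [zero_add, Nat.cast_one, pow_zero, Real.one_rpow, one_mul]
        exact one_le_gs d p
      · have hq := hp p List.mem_cons_self h0.ne'
        have hq1 : (1 : ℝ) ≤ p.1.val := by exact_mod_cast hq.one_lt.le
        have hq0 : (0 : ℝ) < p.1.val := by linarith
        rw [gs, Finset.mul_sum]
        have : ∀ j ∈ Finset.range (p.2 + 1), (1 : ℝ) ≤
            ((p.1.val : ℝ) ^ p.2) ^ d * ((p.1.val : ℝ) ^ j) ^ (-d) := by
          intro j hj
          have hj' : j ≤ p.2 := Nat.lt_succ_iff.1 (Finset.mem_range.1 hj)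
          rw [Real.rpow_neg (by positivity), ← div_eq_mul_inv, le_div_iff₀ (by positivity), one_mul]
          exact Real.rpow_le_rpow (by positivity) (pow_le_pow_right₀ hq1 hj') hd
        have h3 := Finset.sum_le_sum this
        simpa using h3
    rw [List.map_cons, List.prod_cons, List.map_cons, List.prod_cons, pp_cons, Nat.cast_mul,
      Nat.cast_mul, Nat.cast_pow, Real.mul_rpow (by positivity) (by positivity)]
    calc ((p.2 + 1 : ℕ) : ℝ) * (((l.map fun p => p.2 + 1).prod : ℕ) : ℝ)
        ≤ (((p.1.val : ℝ) ^ p.2) ^ d * gs d p) *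
          ((((pp l : ℕ) : ℝ) ^ d) * (l.map (gs d)).prod) := by
          refine mul_le_mul h2 h1 (Nat.cast_nonneg _) ?_
          exact mul_nonneg (by positivity) (gs_nonneg d p)
      _ = _ := by ring

theorem gs_le_succ {d : ℝ} (hd : 0 ≤ d) (p : Bin × ℕ) (hp : p.2 ≠ 0 → p.1.val.Prime) :
    gs d p ≤ p.2 + 1 := by
  rcases Nat.eq_zero_or_pos p.2 with h0 | h0
  · rw [gs, h0]; simp
  · have hq := hp h0.ne'
    have hq1 : (1 : ℝ) ≤ p.1.val := by exact_mod_cast hq.one_lt.le
    have : ∀ j ∈ Finset.range (p.2 + 1), ((p.1.val : ℝ) ^ j) ^ (-d) ≤ 1 := by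
      intro j _
      exact Real.rpow_le_one_of_one_le_of_nonpos (one_le_pow₀ hq1) (by linarith)
    have h3 := Finset.sum_le_sum this
    rw [gs]
    simpa using h3

theorem gs_le_of_large {d δ : ℝ} (hδ0 : 0 ≤ δ) (hδ1 : δ ≤ 1 / 2) (p : Bin × ℕ)
    (h : (p.1.val : ℝ) ^ (-d) ≤ δ) : gs d p ≤ 1 + 2 * δ := by
  set x : ℝ := (p.1.val : ℝ) ^ (-d) with hx
  have hx0 : 0 ≤ x := by positivity
  have e1 : gs d p = ∑ j ∈ Finset.range (p.2 + 1), x ^ j := by
    rw [gs]
    refine Finset.sum_congr rfl fun j _ => ?_
    rw [hx, ← Real.rpow_natCast, ← Real.rpow_mul (Nat.cast_nonneg _), ← Real.rpow_natCast,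
      ← Real.rpow_mul (Nat.cast_nonneg _), mul_comm]
  rw [e1]
  have e2 : (∑ j ∈ Finset.range (p.2 + 1), x ^ j) * (1 - x) = 1 - x ^ (p.2 + 1) := by
    have := geom_sum_mul x (p.2 + 1)
    linarith
  have e3 : (∑ j ∈ Finset.range (p.2 + 1), x ^ j) * (1 - x) ≤ (1 + 2 * δ) * (1 - x) := by
    rw [e2]
    have : 0 ≤ x ^ (p.2 + 1) := by positivity
    nlinarith
  exact le_of_mul_le_mul_right e3 (by linarith)

theorem prod_gs_le {d δ : ℝ} (hd : 0 ≤ d) (hδ0 : 0 ≤ δ) (hδ1 : δ ≤ 1 / 2) (P0 N' : ℕ)
    (hP0 : ∀ p : ℕ, P0 < p → (p : ℝ) ^ (-d) ≤ δ) (l : List (Bin × ℕ))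
    (hp : ∀ p ∈ l, p.2 ≠ 0 → p.1.val.Prime) (hN : ∀ p ∈ l, p.2 ≤ N') :
    (l.map (gs d)).prod ≤ ((N' : ℝ) + 1) ^ (l.filter fun p => p.1.val ≤ P0).length *
      (1 + 2 * δ) ^ (l.map Prod.snd).sum := by
  induction l with
  | nil => simp
  | cons p l ih =>
    have h1 := ih (fun q hq => hp q (List.mem_cons_of_mem _ hq))
      (fun q hq => hN q (List.mem_cons_of_mem _ hq))
    rw [List.map_cons, List.prod_cons, List.map_cons, List.sum_cons, pow_add]
    have h2 : gs d p ≤ ((N' : ℝ) + 1) ^ (if p.1.val ≤ P0 then 1 else 0) * (1 + 2 * δ) ^ p.2 := by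
      have hδ2 : (1 : ℝ) ≤ (1 + 2 * δ) ^ p.2 := one_le_pow₀ (by linarith)
      by_cases h : p.1.val ≤ P0
      · rw [if_pos h, pow_one]
        have g1 := gs_le_succ hd p (hp p List.mem_cons_self)
        have g2 : (p.2 : ℝ) ≤ N' := by exact_mod_cast hN p List.mem_cons_self
        have g3 : (0 : ℝ) ≤ N' := Nat.cast_nonneg _
        nlinarith
      · rw [if_neg h, pow_zero, one_mul]
        rcases Nat.eq_zero_or_pos p.2 with h0 | h0
        · rw [h0, pow_zero, gs, h0]; simp
        · refine (gs_le_of_large hδ0 hδ1 p (hP0 _ (by omega))).trans ?_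
          exact le_self_pow₀ (by linarith) h0.ne'
    have h3 : (List.filter (fun p : Bin × ℕ => p.1.val ≤ P0) (p :: l)).length
        = (if p.1.val ≤ P0 then 1 else 0) + (l.filter fun p => p.1.val ≤ P0).length := by
      rw [List.filter_cons]
      by_cases h : p.1.val ≤ P0
      · simp [h, add_comm]
      · simp [h]
    rw [h3, pow_add]
    calc gs d p * (l.map (gs d)).prod ≤ (((N' : ℝ) + 1) ^ (if p.1.val ≤ P0 then 1 else 0) *
          (1 + 2 * δ) ^ p.2) * (((N' : ℝ) + 1) ^ (l.filter fun p => p.1.val ≤ P0).length *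
          (1 + 2 * δ) ^ (l.map Prod.snd).sum) := by
          refine mul_le_mul h2 h1 ?_ (by positivity)
          exact List.prod_nonneg fun x hx => by
            obtain ⟨q, _, rfl⟩ := List.mem_map.1 hx
            exact gs_nonneg d q
      _ = _ := by ring

theorem length_filter_le_of_nodup (l : List (Bin × ℕ)) (hn : (l.map fun p => p.1.val).Nodup)
    (P0 : ℕ) : (l.filter fun p => p.1.val ≤ P0).length ≤ P0 + 1 := by
  have h1 : ((l.filter fun p => p.1.val ≤ P0).map fun p => p.1.val).Nodup :=
    hn.sublist (List.filter_sublist.map _)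
  have h2 : ((l.filter fun p => p.1.val ≤ P0).map fun p => p.1.val) ⊆ List.range (P0 + 1) := by
    intro x hx
    obtain ⟨p, hp, rfl⟩ := List.mem_map.1 hx
    have := (List.mem_filter.1 hp).2
    rw [List.mem_range]
    simp only [decide_eq_true_eq] at this
    omega
  have h3 := (h1.subperm h2).length_le
  simpa using h3

theorem sum_snd_le (l : List (Bin × ℕ)) (hp : ∀ p ∈ l, p.2 ≠ 0 → p.1.val.Prime) :
    2 ^ (l.map Prod.snd).sum ≤ pp l := by
  induction l with
  | nil => simp
  | cons p l ih =>
    have h1 := ih fun q hq => hp q (List.mem_cons_of_mem _ hq)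
    rw [List.map_cons, List.sum_cons, pow_add, pp_cons]
    refine Nat.mul_le_mul ?_ h1
    rcases Nat.eq_zero_or_pos p.2 with h0 | h0
    · rw [h0]; simp
    · exact Nat.pow_le_pow_left (hp p List.mem_cons_self h0.ne').two_le _

/-! ### The enumeration of systems -/

theorem rprod_cons (b : Row) (v : List Row) : rprod (b :: v) = b.1.val * rprod v := by
  rw [rprod, List.map_cons, pp_cons, pow_one]; rfl

theorem rprod_nil : rprod [] = 1 := rfl

/-- The weight of a list of equations. -/
noncomputable def wr (d : ℝ) (A : ℕ) (v : List Row) : ℝ := ((A : ℝ) / rprod v) ^ d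

theorem rtuples_spec {A : ℕ} (hA : 0 < A) {d : ℝ} (hd : 0 ≤ d) (l : List Row) (t K : ℕ)
    {S : ℝ} (hS : S = (l.map fun r => (r.1.val : ℝ) ^ (-d)).sum) (hS1 : 1 ≤ S)
    (ht : (A : ℝ) ^ d * S ^ K ≤ t) : ∀ k ≤ K,
      ((rtuples A l t k).map (wr d A)).sum ≤ (A : ℝ) ^ d * S ^ k ∧
      ∀ v : List Row, v.length = k → (∀ b ∈ v, b ∈ l) → rprod v ∣ A → v ∈ rtuples A l t k := by
  intro k
  induction k with
  | zero =>
    intro _
    refine ⟨by simp [rtuples_zero, wr, rprod_nil], fun v hv _ _ => ?_⟩
    rw [List.length_eq_zero_iff] at hv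
    simp [hv, rtuples_zero]
  | succ k ih =>
    intro hk
    obtain ⟨g1, g2⟩ := ih (by omega)
    set F := l.flatMap fun b => (rtuples A l t k).map fun v => b :: v with hF
    set G := F.filter fun v => decide (A % rprod v = 0) with hG
    have hwr0 : ∀ v, 0 ≤ wr d A v := fun v => by unfold wr; positivity
    have h1 : (F.map (wr d A)).sum = S * ((rtuples A l t k).map (wr d A)).sum := by
      rw [hF, sum_map_flatMap, hS]
      have e1 : ∀ b : Row, (((rtuples A l t k).map fun v => b :: v).map (wr d A)).sum
          = ((rtuples A l t k).map (wr d A)).sum * (b.1.val : ℝ) ^ (-d) := by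
        intro b
        rw [mul_comm, ← sum_map_mul_left', List.map_map]
        congr 1
        refine List.map_congr_left fun v _ => ?_
        simp only [comp_apply, wr, rprod_cons]
        push_cast
        rw [mul_comm (b.1.val : ℝ), ← div_div, Real.div_rpow (by positivity) (by positivity),
          Real.rpow_neg (by positivity), div_eq_mul_inv, mul_comm]
      simp only [e1]
      rw [sum_map_mul_left', mul_comm]
    have h2 : (G.map (wr d A)).sum ≤ (F.map (wr d A)).sum := by
      have : ∀ (l : List (List Row)), ((l.filter fun v => decide (A % rprod v = 0)).map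
          (wr d A)).sum ≤ (l.map (wr d A)).sum := by
        intro l
        induction l with
        | nil => simp
        | cons v l ih =>
          rw [List.filter_cons]
          have := hwr0 v
          split_ifs
          · simp only [List.map_cons, List.sum_cons]; linarith
          · simp only [List.map_cons, List.sum_cons]; linarith
      exact this F
    have h3 : (G.map (wr d A)).sum ≤ (A : ℝ) ^ d * S ^ (k + 1) := by
      refine h2.trans ?_
      rw [h1, pow_succ]
      have := mul_le_mul_of_nonneg_left g1 (by linarith : 0 ≤ S)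
      linarith
    have h4 : (G.length : ℝ) ≤ (G.map (wr d A)).sum := by
      have : ∀ (l : List (List Row)), (∀ v ∈ l, A % rprod v = 0) →
          (l.length : ℝ) ≤ (l.map (wr d A)).sum := by
        intro l
        induction l with
        | nil => intro _; simp
        | cons v l ih =>
          intro h
          have h5 := ih fun w hw => h w (List.mem_cons_of_mem _ hw)
          have h6 := Nat.dvd_of_mod_eq_zero (h v List.mem_cons_self)
          have h7 : 0 < rprod v := Nat.pos_of_dvd_of_pos h6 hA
          have h8 : 1 ≤ wr d A v := by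
            unfold wr
            refine Real.one_le_rpow ?_ hd
            rw [le_div_iff₀ (by exact_mod_cast h7), one_mul]
            exact_mod_cast Nat.le_of_dvd hA h6
          simp only [List.length_cons, List.map_cons, List.sum_cons]
          push_cast
          linarith
      refine this G fun v hv => ?_
      have := (List.mem_filter.1 hv).2
      simpa using this
    have h5 : (G.length : ℝ) ≤ t := by
      refine h4.trans (h3.trans (le_trans ?_ ht))
      exact mul_le_mul_of_nonneg_left (pow_le_pow_right₀ hS1 hk) (by positivity)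
    have h6 : G.length ≤ t := by exact_mod_cast h5
    have h7 : rtuples A l t (k + 1) = G := by
      rw [rtuples_succ, List.take_of_length_le h6]
    rw [h7]
    refine ⟨h3, fun v hv hb hdvd => ?_⟩
    cases v with
    | nil => simp at hv
    | cons b v =>
      refine List.mem_filter.2 ⟨List.mem_flatMap.2 ⟨b, hb b List.mem_cons_self,
        List.mem_map.2 ⟨v, g2 v ?_ ?_ ?_, rfl⟩⟩, ?_⟩
      · simpa using hv
      · exact fun c hc => hb c (List.mem_cons_of_mem _ hc)
      · rw [rprod_cons] at hdvd
        exact (Dvd.intro_left _ rfl).trans hdvd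
      · simpa using Nat.mod_eq_zero_of_dvd hdvd

end Pool.Agent.Lib.MP_394210_lc
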