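import Mathlib
import Pool.Agent.Lib.MP_394210_lc.Alg

/-!
# Convergence of the iteration
-/

namespace Pool.Agent.Lib.MP_394210_lc

open Finset

variable {K : ℕ}

/-- `J` is closed if all the exponents of its primes come from `J`. -/
def Closed (e : Fin K → ℕ) (f : Fin K → Fin K → ℕ) (J : Finset (Fin K)) : Prop :=
  ∀ j ∈ J, ∑ i ∈ J, f i j = e j

/-- The gain of one step of the iteration. -/
noncomputable def cw (Ω k : ℕ) : ℝ := 1 / 2 * (1 / (8 * ((Ω : ℝ) + 1))) ^ k

theorem cw_pos (Ω k : ℕ) : 0 < cw Ω k := by unfold cw; positivity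

theorem cw_le (Ω k : ℕ) : cw Ω k ≤ 1 / 2 := by
  unfold cw
  have h : (1 / (8 * ((Ω : ℝ) + 1))) ^ k ≤ 1 := by
    refine pow_le_one₀ (by positivity) ?_
    rw [div_le_one (by positivity)]
    have : (0 : ℝ) ≤ Ω := Nat.cast_nonneg _
    linarith
  linarith

/-- Weights for which the linear part of the iteration is a contraction. -/
theorem exists_weights (Ω k : ℕ) :
    ∀ (K : ℕ) (e : Fin K → ℕ) (f : Fin K → Fin K → ℕ) (J : Finset (Fin K)), J.card ≤ k →
      (∀ j ∈ J, e j ≤ Ω) → (∀ j ∈ J, 1 ≤ e j) → (∀ j ∈ J, ∑ i ∈ J, f i j ≤ e j) →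
      (∀ J' ⊆ J, J'.Nonempty → ¬ Closed e f J') →
      ∃ w : Fin K → ℝ, (∀ i ∈ J, 1 ≤ w i ∧ w i ≤ 2) ∧
        ∀ j ∈ J, ∑ i ∈ J, w i * (f i j : ℝ) ≤ (1 - cw Ω k) * (w j * e j) := by
  induction k with
  | zero =>
    intro K e f J hJ _ _ _ _
    have : J = ∅ := Finset.card_eq_zero.1 (by omega)
    subst this
    exact ⟨fun _ => 1, by simp, by simp⟩
  | succ k ih =>
    have hc0 := cw_pos Ω k
    have hc1 := cw_le Ω k
    set c' := cw Ω k with hc'
    set δ : ℝ := 1 / (4 * ((Ω : ℝ) + 1)) with hδ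
    have hΩ : (0 : ℝ) ≤ Ω := Nat.cast_nonneg _
    have hδ0 : 0 < δ := by positivity
    have hδ1 : δ * (4 * ((Ω : ℝ) + 1)) = 1 := by rw [hδ]; field_simp
    have hδ2 : δ ≤ 1 / 4 := by nlinarith
    have hcs : cw Ω (k + 1) = δ * c' / 2 := by
      rw [hc', hδ, cw, cw, pow_succ]; field_simp; norm_num
    rw [hcs]
    intro K e f J hJ he he1 hf hcl
    classical
    set J' := J.filter (fun j => ∑ i ∈ J, f i j = e j) with hJ'
    have hsub : J' ⊆ J := Finset.filter_subset _ _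
    have hmem' : ∀ j ∈ J', ∑ i ∈ J, f i j = e j := fun j hj => (Finset.mem_filter.1 hj).2
    rcases Finset.eq_empty_or_nonempty J with h0 | h0
    · subst h0
      exact ⟨fun _ => 1, by simp, by simp⟩
    have hne : J' ≠ J := by
      intro h
      refine hcl J le_rfl h0 fun j hj => ?_
      rw [← h] at hj
      exact hmem' j hj
    have hcard : J'.card ≤ k := by
      have := Finset.card_lt_card (Finset.ssubset_iff_subset_ne.2 ⟨hsub, hne⟩)
      omega
    have hsum' : ∀ j, ∑ i ∈ J', f i j ≤ ∑ i ∈ J, f i j := fun j =>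
      Finset.sum_le_sum_of_subset hsub
    obtain ⟨w', hw1, hw2⟩ := ih K e f J' hcard (fun j hj => he j (hsub hj))
      (fun j hj => he1 j (hsub hj)) (fun j hj => (hsum' j).trans (hf j (hsub hj)))
      (fun J'' h1 h2 => hcl J'' (h1.trans hsub) h2)
    refine ⟨fun i => if i ∈ J' then 1 + δ * w' i else 1, ?_, ?_⟩
    · intro i _
      by_cases h : i ∈ J'
      · obtain ⟨g1, g2⟩ := hw1 i h
        simp only [h, if_true]
        constructor
        · nlinarith
        · nlinarith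
      · simp only [h, if_false]; norm_num
    · intro j hj
      have hsplit : ∑ i ∈ J, (if i ∈ J' then 1 + δ * w' i else 1) * (f i j : ℝ)
          = (∑ i ∈ J, (f i j : ℝ)) + δ * ∑ i ∈ J', w' i * (f i j : ℝ) := by
        have e1 : ∑ i ∈ J', w' i * (f i j : ℝ) = ∑ i ∈ J, if i ∈ J' then w' i * (f i j : ℝ) else 0 := by
          rw [← Finset.sum_filter]
          congr 1
          ext i
          simp only [Finset.mem_filter]
          exact ⟨fun h => ⟨hsub h, h⟩, fun h => h.2⟩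
        rw [e1, Finset.mul_sum, ← Finset.sum_add_distrib]
        refine Finset.sum_congr rfl fun i _ => ?_
        by_cases h : i ∈ J'
        · simp only [h, if_true]; ring
        · simp only [h, if_false]; ring
      rw [hsplit]
      have hej : (e j : ℝ) ≤ Ω := by exact_mod_cast he j hj
      have hej1 : (1 : ℝ) ≤ e j := by exact_mod_cast he1 j hj
      by_cases h : j ∈ J'
      · simp only [h, if_true]
        have e1 : (∑ i ∈ J, (f i j : ℝ)) = e j := by exact_mod_cast hmem' j h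
        have e2 := hw2 j h
        obtain ⟨g1, g2⟩ := hw1 j h
        rw [e1]
        have e3 : δ * ∑ i ∈ J', w' i * (f i j : ℝ) ≤ δ * ((1 - c') * (w' j * e j)) :=
          mul_le_mul_of_nonneg_left e2 hδ0.le
        have e4 : 1 + δ * w' j ≤ 2 := by nlinarith
        have e5 : δ * c' / 2 * ((1 + δ * w' j) * e j) ≤ δ * c' * (w' j * e j) := by
          have : (1 + δ * w' j) * (e j : ℝ) ≤ 2 * (w' j * e j) := by nlinarith
          have h6 : 0 ≤ δ * c' := by positivity
          nlinarith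
        nlinarith
      · simp only [h, if_false, one_mul]
        have e1 : (∑ i ∈ J, (f i j : ℝ)) ≤ e j - 1 := by
          have g1 := hf j hj
          have g2 : ∑ i ∈ J, f i j ≠ e j := fun g => h (Finset.mem_filter.2 ⟨hj, g⟩)
          have g3 : ∑ i ∈ J, f i j + 1 ≤ e j := by omega
          have g4 : (∑ i ∈ J, (f i j : ℝ)) + 1 ≤ e j := by exact_mod_cast g3
          linarith
        have e2 : ∑ i ∈ J', w' i * (f i j : ℝ) ≤ 2 * e j := by
          have g1 : ∑ i ∈ J', w' i * (f i j : ℝ) ≤ ∑ i ∈ J', 2 * (f i j : ℝ) :=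
            Finset.sum_le_sum fun i hi =>
              mul_le_mul_of_nonneg_right (hw1 i hi).2 (Nat.cast_nonneg _)
          have g2 : ∑ i ∈ J', (f i j : ℝ) ≤ e j := by
            exact_mod_cast (hsum' j).trans (hf j hj)
          rw [← Finset.mul_sum] at g1
          linarith
        have e3 : δ * ∑ i ∈ J', w' i * (f i j : ℝ) ≤ δ * (2 * e j) :=
          mul_le_mul_of_nonneg_left e2 hδ0.le
        have e4 : δ * (2 * (e j : ℝ)) ≤ 1 / 2 := by nlinarith
        have e5 : δ * c' / 2 * e j ≤ 1 / 2 := by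
          have : δ * c' / 2 ≤ δ / 4 := by nlinarith
          have g3 : δ * c' / 2 * (e j : ℝ) ≤ δ / 4 * e j := mul_le_mul_of_nonneg_right this (by linarith)
          nlinarith
        nlinarith

/-! ### The nonlinear part -/

theorem sg_cast (e z : ℕ) : (sg e z : ℝ) = ∑ k ∈ range (e + 1), (z : ℝ) ^ k := by
  rw [sg_eq_sum]; push_cast; rfl

theorem sg_pos (e z : ℕ) : 0 < sg e z := by
  rw [sg_eq_sum, Finset.sum_range_succ']; simp

/-- The sum of the powers of `1 / z`. -/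
noncomputable def hh (e : ℕ) (z : ℝ) : ℝ := ∑ k ∈ range (e + 1), (z⁻¹) ^ k

theorem sg_eq_hh (e z : ℕ) (hz : 0 < z) : (sg e z : ℝ) = (z : ℝ) ^ e * hh e z := by
  have hz' : (z : ℝ) ≠ 0 := by exact_mod_cast hz.ne'
  rw [sg_cast, hh, Finset.mul_sum, ← Finset.sum_range_reflect]
  refine Finset.sum_congr rfl fun k hk => ?_
  have h1 : k ≤ e := Nat.lt_succ_iff.1 (Finset.mem_range.1 hk)
  have h2 : e + 1 - 1 - k = e - k := by omega
  rw [h2]
  have h3 : (z : ℝ) ^ e = (z : ℝ) ^ (e - k) * (z : ℝ) ^ k := by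
    rw [← pow_add]; congr 1; omega
  rw [h3, mul_assoc, ← mul_pow, mul_inv_cancel₀ hz', one_pow, mul_one]

theorem one_le_hh (e : ℕ) {z : ℝ} (hz : 0 < z) : 1 ≤ hh e z := by
  rw [hh, Finset.sum_range_succ']
  have : 0 ≤ ∑ k ∈ range e, (z⁻¹) ^ (k + 1) := Finset.sum_nonneg fun k _ => by positivity
  simp only [pow_zero]; linarith

theorem hh_sub (e : ℕ) {p z : ℝ} (hp : 2 ≤ p) (hz : p ≤ z) :
    hh e p - hh e z ≤ 2 * e / p * Real.log (z / p) := by
  have hp0 : 0 < p := by linarith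
  have hz0 : 0 < z := by linarith
  set L := Real.log (z / p) with hL
  have hL0 : 0 ≤ L := Real.log_nonneg (by rw [le_div_iff₀ hp0]; linarith)
  have h1 : ∀ k ∈ range (e + 1), (p⁻¹) ^ k - (z⁻¹) ^ k ≤ (p⁻¹) ^ k * (k * L) := by
    intro k _
    have g1 : (z⁻¹) ^ k = (p⁻¹) ^ k * Real.exp (-(k * L)) := by
      have : Real.exp (-(k * L)) = (p / z) ^ k := by
        rw [← mul_neg, mul_comm, Real.exp_mul, hL, Real.exp_neg, Real.exp_log (by positivity),
          Real.rpow_natCast]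
        congr 1
        field_simp
      rw [this, ← mul_pow]
      congr 1
      field_simp
    have g2 : 1 - k * L ≤ Real.exp (-(k * L)) := by
      have := Real.add_one_le_exp (-(k * L)); linarith
    have g3 : 0 ≤ (p⁻¹) ^ k := by positivity
    rw [g1]
    nlinarith
  have h2 : hh e p - hh e z ≤ ∑ k ∈ range (e + 1), (p⁻¹) ^ k * (k * L) := by
    rw [hh, hh, ← Finset.sum_sub_distrib]
    exact Finset.sum_le_sum h1
  refine h2.trans ?_
  rw [Finset.sum_range_succ']
  simp only [Nat.cast_zero, zero_mul, mul_zero, add_zero]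
  have h3 : ∀ k ∈ range e, (p⁻¹) ^ (k + 1) * (((k + 1 : ℕ) : ℝ) * L)
      ≤ (e * L / p) * (1 / 2 : ℝ) ^ k := by
    intro k hk
    have g1 : k + 1 ≤ e := Finset.mem_range.1 hk
    have g2 : ((k + 1 : ℕ) : ℝ) ≤ e := by exact_mod_cast g1
    have g3 : (p⁻¹) ^ k ≤ (1 / 2 : ℝ) ^ k := by
      refine pow_le_pow_left₀ (by positivity) ?_ k
      rw [one_div]; exact inv_anti₀ (by norm_num) hp
    rw [pow_succ]
    have g4 : (p⁻¹) ^ k * p⁻¹ * (((k + 1 : ℕ) : ℝ) * L)
        = (p⁻¹) ^ k * ((((k + 1 : ℕ) : ℝ) * L) / p) := by field_simp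
    rw [g4, mul_comm (e * L / p)]
    refine mul_le_mul g3 ?_ (by positivity) (by positivity)
    refine div_le_div_of_nonneg_right ?_ hp0.le
    exact mul_le_mul_of_nonneg_right g2 hL0
  refine (Finset.sum_le_sum h3).trans ?_
  rw [← Finset.mul_sum]
  have h4 : ∑ k ∈ range e, (1 / 2 : ℝ) ^ k ≤ 2 := by
    rw [geom_sum_eq (by norm_num)]
    have : (0 : ℝ) < (1 / 2) ^ e := by positivity
    rw [div_le_iff_of_neg (by norm_num)]
    linarith
  have h5 : 0 ≤ e * L / p := by positivity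
  calc (e * L / p) * ∑ k ∈ range e, (1 / 2 : ℝ) ^ k ≤ (e * L / p) * 2 :=
        mul_le_mul_of_nonneg_left h4 h5
    _ = 2 * e / p * L := by ring

theorem log_sg (e p z : ℕ) (hp : 2 ≤ p) (hz : p ≤ z) :
    ((e : ℝ) - 2 * e / p) * Real.log (z / p) ≤ Real.log (sg e z) - Real.log (sg e p) := by
  have hp0 : (0 : ℝ) < p := by exact_mod_cast (by omega : 0 < p)
  have hz0 : (0 : ℝ) < z := by exact_mod_cast (by omega : 0 < z)
  have hp2 : (2 : ℝ) ≤ p := by exact_mod_cast hp
  have hzr : (p : ℝ) ≤ z := by exact_mod_cast hz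
  have h1 : Real.log (sg e z) = e * Real.log z + Real.log (hh e z) := by
    rw [sg_eq_hh e z (by omega), Real.log_mul (by positivity)
      (by have := one_le_hh e hz0; positivity), Real.log_pow]
  have h2 : Real.log (sg e p) = e * Real.log p + Real.log (hh e p) := by
    rw [sg_eq_hh e p (by omega), Real.log_mul (by positivity)
      (by have := one_le_hh e hp0; positivity), Real.log_pow]
  have h3 : Real.log ((z : ℝ) / p) = Real.log z - Real.log p :=
    Real.log_div hz0.ne' hp0.ne'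
  have h4 := hh_sub e hp2 hzr
  have a1 := one_le_hh e hp0
  have a2 := one_le_hh e hz0
  have h5 : Real.log (hh e p) - Real.log (hh e z) ≤ 2 * e / p * Real.log ((z : ℝ) / p) := by
    rw [← Real.log_div (by positivity) (by positivity)]
    have g1 := Real.log_le_sub_one_of_pos (x := hh e p / hh e z) (by positivity)
    have g2 : hh e p / hh e z - 1 = (hh e p - hh e z) / hh e z := by field_simp
    rcases le_total 0 (hh e p - hh e z) with h | h
    · have g3 : (hh e p - hh e z) / hh e z ≤ hh e p - hh e z := div_le_self h a2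
      linarith
    · have g3 : (hh e p - hh e z) / hh e z ≤ 0 := div_nonpos_of_nonpos_of_nonneg h (by positivity)
      have g4 : 0 ≤ Real.log ((z : ℝ) / p) :=
        Real.log_nonneg (by rw [le_div_iff₀ hp0]; linarith)
      have g5 : 0 ≤ 2 * e / p * Real.log ((z : ℝ) / p) := by positivity
      linarith
  rw [h1, h2, sub_mul]
  have h6 : (e : ℝ) * Real.log ((z : ℝ) / p) = e * Real.log z - e * Real.log p := by
    rw [h3]; ring
  linarith

/-! ### The iteration -/

/-- The data of a system with its solution. -/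
structure Sys (K n : ℕ) where
  /-- the primes -/
  p : Fin K → ℕ
  /-- their exponents -/
  e : Fin K → ℕ
  /-- the smooth parts -/
  a : Fin K → ℕ
  /-- the exponents of the large primes -/
  f : Fin K → Fin K → ℕ
  two_le : ∀ i, 2 ≤ p i
  p_le : ∀ i, p i ≤ n
  e_pos : ∀ i, 1 ≤ e i
  eqn : ∀ i, sg (e i) (p i) = a i * ∏ j, p j ^ f i j

namespace Sys

variable {n : ℕ} (S : Sys K n)

/-- One step. -/
def next (x : Fin K → ℕ) : Fin K → ℕ := fun i => rt n (S.e i) (S.a i * ∏ j, x j ^ S.f i j)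

/-- The iteration. -/
def it : ℕ → Fin K → ℕ
  | 0 => fun _ => n
  | t + 1 => S.next (it t)

theorem a_pos (i : Fin K) : 0 < S.a i := by
  rcases Nat.eq_zero_or_pos (S.a i) with h | h
  · have h1 := S.eqn i
    rw [h, zero_mul] at h1
    have := sg_pos (S.e i) (S.p i)
    omega
  · exact h

theorem le_prod {x : Fin K → ℕ} (hx : ∀ i, S.p i ≤ x i) (i : Fin K) :
    sg (S.e i) (S.p i) ≤ S.a i * ∏ j, x j ^ S.f i j := by
  rw [S.eqn i]
  exact Nat.mul_le_mul_left _ (Finset.prod_le_prod' fun j _ => Nat.pow_le_pow_left (hx j) _)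

theorem le_next {x : Fin K → ℕ} (hx : ∀ i, S.p i ≤ x i) (i : Fin K) : S.p i ≤ S.next x i := by
  have h1 := S.le_prod hx i
  have h2 := sg_pos (S.e i) (S.p i)
  exact (rt_spec n (S.e i) _ (by omega)).2 _ (S.p_le i) h1

theorem le_it (t : ℕ) (i : Fin K) : S.p i ≤ S.it t i := by
  induction t generalizing i with
  | zero => exact S.p_le i
  | succ t ih => exact S.le_next ih i

theorem it_le (t : ℕ) (i : Fin K) : S.it t i ≤ n := by
  cases t with
  | zero => exact le_rfl
  | succ t => exact rt_le n _ _ _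

theorem next_log {x : Fin K → ℕ} (hx : ∀ i, S.p i ≤ x i) (i : Fin K) :
    ((S.e i : ℝ) - 2 * S.e i / S.p i) * Real.log ((S.next x i : ℝ) / S.p i)
      ≤ ∑ j, (S.f i j : ℝ) * Real.log ((x j : ℝ) / S.p j) := by
  have hp0 : ∀ j, (0 : ℝ) < S.p j := fun j => by
    have := S.two_le j
    exact_mod_cast (by omega : 0 < S.p j)
  have hx0 : ∀ j, (0 : ℝ) < x j := fun j => by
    have := S.two_le j
    have := hx j
    exact_mod_cast (by omega : 0 < x j)
  have h1 := log_sg (S.e i) (S.p i) (S.next x i) (S.two_le i) (S.le_next hx i)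
  refine h1.trans ?_
  have h2 := S.le_prod hx i
  have h3 := sg_pos (S.e i) (S.p i)
  have h4 := (rt_spec n (S.e i) (S.a i * ∏ j, x j ^ S.f i j) (by omega)).1.2
  have h5 : (sg (S.e i) (S.next x i) : ℝ) ≤ (S.a i : ℝ) * ∏ j, (x j : ℝ) ^ S.f i j := by
    exact_mod_cast h4
  have h6 : (sg (S.e i) (S.p i) : ℝ) = (S.a i : ℝ) * ∏ j, (S.p j : ℝ) ^ S.f i j := by
    rw [S.eqn i]; push_cast; rfl
  have ha : (0 : ℝ) < S.a i := by exact_mod_cast S.a_pos i
  have hlog : ∀ y : Fin K → ℝ, (∀ j, 0 < y j) →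
      Real.log ((S.a i : ℝ) * ∏ j, (y j) ^ S.f i j)
        = Real.log (S.a i) + ∑ j, (S.f i j : ℝ) * Real.log (y j) := by
    intro y hy
    rw [Real.log_mul ha.ne' (Finset.prod_pos fun j _ => pow_pos (hy j) _).ne',
      Real.log_prod (fun j _ => (pow_pos (hy j) _).ne')]
    simp only [Real.log_pow]
  have h7 : Real.log (sg (S.e i) (S.next x i))
      ≤ Real.log (S.a i) + ∑ j, (S.f i j : ℝ) * Real.log (x j) := by
    rw [← hlog (fun j => (x j : ℝ)) hx0]
    exact Real.log_le_log (by exact_mod_cast sg_pos _ _) h5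
  rw [h6, hlog (fun j => (S.p j : ℝ)) hp0]
  have h8 : ∑ j, (S.f i j : ℝ) * Real.log ((x j : ℝ) / S.p j)
      = ∑ j, (S.f i j : ℝ) * Real.log (x j) - ∑ j, (S.f i j : ℝ) * Real.log (S.p j) := by
    rw [← Finset.sum_sub_distrib]
    refine Finset.sum_congr rfl fun j _ => ?_
    rw [Real.log_div (hx0 j).ne' (hp0 j).ne']; ring
  rw [h8]
  linarith

/-- The potential. -/
noncomputable def pot (w : Fin K → ℝ) (x : Fin K → ℕ) : ℝ :=
  ∑ i, w i * (S.e i * Real.log ((x i : ℝ) / S.p i))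

theorem log_nonneg' {x : Fin K → ℕ} (hx : ∀ i, S.p i ≤ x i) (i : Fin K) :
    0 ≤ Real.log ((x i : ℝ) / S.p i) := by
  have hp0 : (0 : ℝ) < S.p i := by
    have := S.two_le i
    exact_mod_cast (by omega : 0 < S.p i)
  refine Real.log_nonneg ?_
  rw [le_div_iff₀ hp0, one_mul]
  exact_mod_cast hx i

theorem pot_next {c : ℝ} (hc0 : 0 < c) (hc1 : c ≤ 1 / 2) (w : Fin K → ℝ)
    (hw : ∀ i, 1 ≤ w i ∧ w i ≤ 2)
    (hwf : ∀ j, ∑ i, w i * (S.f i j : ℝ) ≤ (1 - c) * (w j * S.e j))
    (hy : ∀ i, 4 / c ≤ S.p i) {x : Fin K → ℕ} (hx : ∀ i, S.p i ≤ x i) :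
    S.pot w (S.next x) ≤ (1 - c / 2) * S.pot w x := by
  have hp0 : ∀ i, (0 : ℝ) < S.p i := fun i => by
    have := S.two_le i
    exact_mod_cast (by omega : 0 < S.p i)
  have h1 : (1 - c / 2) * S.pot w (S.next x)
      ≤ ∑ i, w i * (((S.e i : ℝ) - 2 * S.e i / S.p i)
        * Real.log ((S.next x i : ℝ) / S.p i)) := by
    rw [pot, Finset.mul_sum]
    refine Finset.sum_le_sum fun i _ => ?_
    have g1 := S.log_nonneg' (S.le_next hx) i
    have g2 : 2 * (S.e i : ℝ) / S.p i ≤ c / 2 * S.e i := by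
      rw [div_le_iff₀ (hp0 i)]
      have g3 := hy i
      rw [div_le_iff₀ hc0] at g3
      have g4 : (0 : ℝ) ≤ S.e i := Nat.cast_nonneg _
      nlinarith
    have g5 := (hw i).1
    have g6 : (1 - c / 2) * (S.e i * Real.log ((S.next x i : ℝ) / S.p i))
        ≤ ((S.e i : ℝ) - 2 * S.e i / S.p i) * Real.log ((S.next x i : ℝ) / S.p i) := by
      nlinarith
    have g7 := mul_le_mul_of_nonneg_left g6 (by linarith : 0 ≤ w i)
    linarith
  have h2 : ∑ i, w i * (((S.e i : ℝ) - 2 * S.e i / S.p i)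
        * Real.log ((S.next x i : ℝ) / S.p i))
      ≤ ∑ i, w i * ∑ j, (S.f i j : ℝ) * Real.log ((x j : ℝ) / S.p j) :=
    Finset.sum_le_sum fun i _ =>
      mul_le_mul_of_nonneg_left (S.next_log hx i) (by have := (hw i).1; linarith)
  have h3 : ∑ i, w i * ∑ j, (S.f i j : ℝ) * Real.log ((x j : ℝ) / S.p j)
      = ∑ j, (∑ i, w i * (S.f i j : ℝ)) * Real.log ((x j : ℝ) / S.p j) := by
    simp only [Finset.mul_sum, Finset.sum_mul]
    rw [Finset.sum_comm]
    refine Finset.sum_congr rfl fun j _ => Finset.sum_congr rfl fun i _ => by ring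
  have h4 : ∑ j, (∑ i, w i * (S.f i j : ℝ)) * Real.log ((x j : ℝ) / S.p j)
      ≤ (1 - c) * S.pot w x := by
    rw [pot, Finset.mul_sum]
    refine Finset.sum_le_sum fun j _ => ?_
    have := mul_le_mul_of_nonneg_right (hwf j) (S.log_nonneg' hx j)
    linarith
  have h5 : 0 ≤ S.pot w x := Finset.sum_nonneg fun i _ => by
    have g1 := S.log_nonneg' hx i
    have g2 := (hw i).1
    positivity
  have h6 : (1 - c / 2) * S.pot w (S.next x) ≤ (1 - c) * S.pot w x := by linarith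
  have h7 : (1 - c) * S.pot w x ≤ (1 - c / 2) * ((1 - c / 2) * S.pot w x) := by
    have h : (1 - c) ≤ (1 - c / 2) * (1 - c / 2) := by nlinarith [sq_nonneg c]
    rw [← mul_assoc]
    exact mul_le_mul_of_nonneg_right h h5
  have h8 : 0 < 1 - c / 2 := by linarith
  exact le_of_mul_le_mul_left (h6.trans h7) h8

theorem pot_it {c : ℝ} (hc0 : 0 < c) (hc1 : c ≤ 1 / 2) (w : Fin K → ℝ)
    (hw : ∀ i, 1 ≤ w i ∧ w i ≤ 2)
    (hwf : ∀ j, ∑ i, w i * (S.f i j : ℝ) ≤ (1 - c) * (w j * S.e j))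
    (hy : ∀ i, 4 / c ≤ S.p i) (t : ℕ) :
    S.pot w (S.it t) ≤ (1 - c / 2) ^ t * S.pot w (S.it 0) := by
  induction t with
  | zero => simp
  | succ t ih =>
    have h1 := S.pot_next hc0 hc1 w hw hwf hy (S.le_it t)
    have h2 : 0 ≤ 1 - c / 2 := by linarith
    have h3 := mul_le_mul_of_nonneg_left ih h2
    change S.pot w (S.next (S.it t)) ≤ _
    rw [pow_succ]
    linarith

theorem it_eq {c : ℝ} (hc0 : 0 < c) (hc1 : c ≤ 1 / 2) (w : Fin K → ℝ)
    (hw : ∀ i, 1 ≤ w i ∧ w i ≤ 2)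
    (hwf : ∀ j, ∑ i, w i * (S.f i j : ℝ) ≤ (1 - c) * (w j * S.e j))
    (hy : ∀ i, 4 / c ≤ S.p i) {Ω : ℕ} (hΩ : ∀ i, S.e i ≤ Ω) (t : ℕ)
    (ht : (1 - c / 2) ^ t * (2 * K * Ω * Real.log n) < 1 / (n + 1)) :
    S.it t = S.p := by
  have hp0 : ∀ i, (0 : ℝ) < S.p i := fun i => by
    have := S.two_le i
    exact_mod_cast (by omega : 0 < S.p i)
  have h0 : S.pot w (S.it 0) ≤ 2 * K * Ω * Real.log n := by
    have g1 : ∀ i ∈ (Finset.univ : Finset (Fin K)), w i * (S.e i * Real.log ((S.it 0 i : ℝ) / S.p i))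
        ≤ 2 * (Ω * Real.log n) := by
      intro i _
      have g2 : Real.log ((S.it 0 i : ℝ) / S.p i) ≤ Real.log n := by
        have hn : (0 : ℝ) < n := by
          have := S.two_le i
          have := S.p_le i
          exact_mod_cast (by omega : 0 < n)
        refine Real.log_le_log (div_pos hn (hp0 i)) ?_
        refine div_le_self hn.le ?_
        exact_mod_cast (by have := S.two_le i; omega : 1 ≤ S.p i)
      have g3 := S.log_nonneg' (S.le_it 0) i
      have g4 : (S.e i : ℝ) ≤ Ω := by exact_mod_cast hΩ i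
      have g5 : (S.e i : ℝ) * Real.log ((S.it 0 i : ℝ) / S.p i) ≤ Ω * Real.log n :=
        mul_le_mul g4 g2 g3 (Nat.cast_nonneg _)
      have g6 : 0 ≤ (S.e i : ℝ) * Real.log ((S.it 0 i : ℝ) / S.p i) := by positivity
      exact mul_le_mul (hw i).2 g5 g6 (by norm_num)
    have g7 := Finset.sum_le_sum g1
    rw [Finset.sum_const, Finset.card_univ, Fintype.card_fin, nsmul_eq_mul] at g7
    unfold pot
    linarith
  have h1 := S.pot_it hc0 hc1 w hw hwf hy t
  have h2 : 0 ≤ (1 - c / 2) ^ t := pow_nonneg (by linarith) t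
  have h3 : S.pot w (S.it t) < 1 / (n + 1) :=
    (h1.trans (mul_le_mul_of_nonneg_left h0 h2)).trans_lt ht
  funext i
  have g0 := S.le_it t i
  have g1 := S.log_nonneg' (S.le_it t) i
  have g2 : Real.log ((S.it t i : ℝ) / S.p i) ≤ S.pot w (S.it t) := by
    have g3 : w i * (S.e i * Real.log ((S.it t i : ℝ) / S.p i)) ≤ S.pot w (S.it t) := by
      refine Finset.single_le_sum (f := fun i => w i * (S.e i * Real.log ((S.it t i : ℝ) / S.p i)))
        (fun j _ => ?_) (Finset.mem_univ i)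
      have a1 := S.log_nonneg' (S.le_it t) j
      have a2 := (hw j).1
      positivity
    have g4 : (1 : ℝ) ≤ S.e i := by exact_mod_cast S.e_pos i
    have g5 := (hw i).1
    have g6 : Real.log ((S.it t i : ℝ) / S.p i)
        ≤ S.e i * Real.log ((S.it t i : ℝ) / S.p i) := le_mul_of_one_le_left g1 g4
    have g7 : (S.e i : ℝ) * Real.log ((S.it t i : ℝ) / S.p i)
        ≤ w i * (S.e i * Real.log ((S.it t i : ℝ) / S.p i)) :=
      le_mul_of_one_le_left (by positivity) g5
    linarith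
  by_contra hne
  have h4 : S.p i + 1 ≤ S.it t i := by omega
  have h5 : ((S.p i : ℝ) + 1) / S.p i ≤ (S.it t i : ℝ) / S.p i := by
    refine div_le_div_of_nonneg_right ?_ (hp0 i).le
    exact_mod_cast h4
  have h6 : Real.log (((S.p i : ℝ) + 1) / S.p i) ≤ Real.log ((S.it t i : ℝ) / S.p i) :=
    Real.log_le_log (by have := hp0 i; positivity) h5
  have h7 : 1 / ((S.p i : ℝ) + 1) ≤ Real.log (((S.p i : ℝ) + 1) / S.p i) := by
    have b1 := Real.one_sub_inv_le_log_of_pos (x := ((S.p i : ℝ) + 1) / S.p i)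
      (by have := hp0 i; positivity)
    have b2 : 1 - (((S.p i : ℝ) + 1) / S.p i)⁻¹ = 1 / ((S.p i : ℝ) + 1) := by
      have := hp0 i
      field_simp
      ring
    linarith
  have h8 : 1 / ((n : ℝ) + 1) ≤ 1 / ((S.p i : ℝ) + 1) := by
    have := hp0 i
    have b3 : (S.p i : ℝ) ≤ n := by exact_mod_cast S.p_le i
    exact one_div_le_one_div_of_le (by positivity) (by linarith)
  linarith

/-- No closed subsets, for large primes. -/
theorem not_closed (hK : ∀ i, 2 * K + 1 ≤ S.p i) (J : Finset (Fin K)) (hJ : J.Nonempty) :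
    ¬ Closed S.e S.f J := by
  intro hcl
  have hp0 : ∀ i, 0 < S.p i := fun i => by have := S.two_le i; omega
  have hKpos : 0 < K := by
    obtain ⟨i, _⟩ := hJ
    exact i.pos
  -- divisibility
  have h1 : ∏ j ∈ J, S.p j ^ S.e j ∣ ∏ i ∈ J, sg (S.e i) (S.p i) := by
    have g1 : ∏ i ∈ J, ∏ j ∈ J, S.p j ^ S.f i j ∣ ∏ i ∈ J, sg (S.e i) (S.p i) := by
      refine Finset.prod_dvd_prod_of_dvd _ _ fun i _ => ?_
      rw [S.eqn i]
      exact Dvd.dvd.mul_left (Finset.prod_dvd_prod_of_subset _ _ _ (Finset.subset_univ _)) _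
    rw [Finset.prod_comm] at g1
    have g2 : ∏ j ∈ J, ∏ i ∈ J, S.p j ^ S.f i j = ∏ j ∈ J, S.p j ^ S.e j := by
      refine Finset.prod_congr rfl fun j hj => ?_
      rw [Finset.prod_pow_eq_pow_sum, hcl j hj]
    rwa [g2] at g1
  -- lower bound
  have h2 : ∏ j ∈ J, S.p j ^ S.e j < ∏ i ∈ J, sg (S.e i) (S.p i) := by
    refine Finset.prod_lt_prod_of_nonempty (fun i _ => Nat.pow_pos (hp0 i)) (fun i _ => ?_) hJ
    rw [sg_eq_sum, Finset.sum_range_succ]
    have : 0 < ∑ k ∈ range (S.e i), S.p i ^ k := by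
      obtain ⟨m, hm⟩ : ∃ m, S.e i = m + 1 := ⟨S.e i - 1, by have := S.e_pos i; omega⟩
      rw [hm, Finset.sum_range_succ']; simp
    omega
  obtain ⟨m, hm⟩ := h1
  have hPpos : 0 < ∏ j ∈ J, S.p j ^ S.e j := Finset.prod_pos fun i _ => Nat.pow_pos (hp0 i)
  have hm2 : 2 ≤ m := by
    rcases Nat.lt_or_ge m 2 with h | h
    · exfalso
      interval_cases m
      · rw [mul_zero] at hm; omega
      · rw [mul_one] at hm; omega
    · exact h
  -- upper bound
  have hKr : (0 : ℝ) < K := by exact_mod_cast hKpos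
  have h3 : ∀ i ∈ J, (sg (S.e i) (S.p i) : ℝ) ≤ (S.p i : ℝ) ^ S.e i * Real.exp (1 / (2 * K)) := by
    intro i _
    have g0 : (0 : ℝ) < S.p i := by exact_mod_cast hp0 i
    have g1 : (2 * K + 1 : ℝ) ≤ S.p i := by exact_mod_cast hK i
    have g2 : (sg (S.e i) (S.p i) : ℝ) * ((S.p i : ℝ) - 1) = (S.p i : ℝ) ^ (S.e i + 1) - 1 := by
      rw [sg_cast, geom_sum_mul]
    have g3 : (sg (S.e i) (S.p i) : ℝ) * ((S.p i : ℝ) - 1)
        ≤ ((S.p i : ℝ) ^ S.e i * (1 + 1 / (2 * K))) * ((S.p i : ℝ) - 1) := by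
      rw [g2, pow_succ]
      have g4 : (S.p i : ℝ) ≤ (1 + 1 / (2 * K)) * ((S.p i : ℝ) - 1) := by
        have : (1 : ℝ) ≤ 1 / (2 * K) * ((S.p i : ℝ) - 1) := by
          rw [one_div, inv_mul_eq_div, le_div_iff₀ (by positivity)]; linarith
        linarith
      have g5 : 0 < (S.p i : ℝ) ^ S.e i := by positivity
      nlinarith
    have g6 := le_of_mul_le_mul_right g3 (by linarith)
    refine g6.trans (mul_le_mul_of_nonneg_left ?_ (by positivity))
    have := Real.add_one_le_exp (1 / (2 * (K : ℝ)))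
    linarith
  have h4 : (∏ i ∈ J, (sg (S.e i) (S.p i) : ℝ))
      ≤ (∏ i ∈ J, (S.p i : ℝ) ^ S.e i) * Real.exp (1 / 2) := by
    refine (Finset.prod_le_prod (fun i _ => by positivity) h3).trans ?_
    rw [Finset.prod_mul_distrib, Finset.prod_const, ← Real.exp_nat_mul]
    refine mul_le_mul_of_nonneg_left (Real.exp_le_exp.2 ?_)
      (Finset.prod_nonneg fun i _ => by positivity)
    have g1 : (J.card : ℝ) ≤ K := by
      have := Finset.card_le_univ J
      rw [Fintype.card_fin] at this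
      exact_mod_cast this
    rw [mul_one_div, div_le_iff₀ (by positivity)]
    linarith
  have h5 : Real.exp (1 / 2) < 2 := by
    have g1 := Real.exp_one_lt_d9
    have g2 : Real.exp (1 / 2) * Real.exp (1 / 2) = Real.exp 1 := by
      rw [← Real.exp_add]; norm_num
    have g3 := Real.exp_pos (1 / 2)
    nlinarith
  have h6 : (∏ i ∈ J, (sg (S.e i) (S.p i) : ℝ)) = (∏ i ∈ J, (S.p i : ℝ) ^ S.e i) * m := by
    exact_mod_cast hm
  have h7 : (0 : ℝ) < ∏ i ∈ J, (S.p i : ℝ) ^ S.e i := by exact_mod_cast hPpos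
  rw [h6] at h4
  have h8 := le_of_mul_le_mul_left h4 h7
  have h9 : (2 : ℝ) ≤ m := by exact_mod_cast hm2
  linarith

end Sys

end Pool.Agent.Lib.MP_394210_lc
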