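import Mathlib
import Pool.Agent.Lib.MP_394210_lc.Math
import Pool.Agent.Lib.MP_394210_lc.Corr2

/-!
# The system of equations of a number whose sum of divisors divides a small multiple
-/

namespace Pool.Agent.Lib.MP_394210_lc

open Finset ArithmeticFunction Pool.Agent.PolyTime

open scoped ArithmeticFunction.sigma

/-! ### The smooth and the rough part -/

/-- The rough part of `n`, and the smooth part of `c * n`. -/
theorem rough_smooth {n c t : ℕ} (hn : 0 < n) (hc : 0 < c) (hct : c ≤ t) :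
    n = (td t n).1.val * pp (td t n).2 ∧
    c * n = (td t n).1.val * pp (td t (c * n)).2 ∧
    Nat.Coprime (pp (td t (c * n)).2) (td t n).1.val ∧
    Nat.Coprime (pp (td t n).2) (td t n).1.val := by
  obtain ⟨a1, a2, a3, a4, a5⟩ := td_spec t n hn
  obtain ⟨b1, b2, b3, b4, b5⟩ := td_spec t (c * n) (Nat.mul_pos hc hn)
  have hsm : ∀ m q : ℕ, 0 < m → q.Prime → q ∣ pp (td t m).2 → q ≤ t + 1 := by
    intro m q hm hq hqd
    obtain ⟨_, c2, c3, _, c5⟩ := td_spec t m hm
    have h1 := (prod_succ_eq_card _ c2 c5).2 q hq hqd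
    obtain ⟨p, hp, rfl⟩ := List.mem_map.1 h1
    exact c3 p hp
  have hcop : ∀ m m' : ℕ, 0 < m → 0 < m' →
      Nat.Coprime (pp (td t m).2) (td t m').1.val := by
    intro m m' hm hm'
    rw [Nat.coprime_iff_gcd_eq_one]
    by_contra hg
    obtain ⟨q, hq, hqd⟩ := Nat.exists_prime_and_dvd hg
    have h1 := hsm m q hm hq (hqd.trans (Nat.gcd_dvd_left _ _))
    have h2 := (td_spec t m' hm').2.2.2.1 q hq (hqd.trans (Nat.gcd_dvd_right _ _))
    omega
  have hcopc : ∀ m' : ℕ, 0 < m' → Nat.Coprime c (td t m').1.val := by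
    intro m' hm'
    rw [Nat.coprime_iff_gcd_eq_one]
    by_contra hg
    obtain ⟨q, hq, hqd⟩ := Nat.exists_prime_and_dvd hg
    have h1 := Nat.le_of_dvd hc (hqd.trans (Nat.gcd_dvd_left _ _))
    have h2 := (td_spec t m' hm').2.2.2.1 q hq (hqd.trans (Nat.gcd_dvd_right _ _))
    omega
  have e : (td t n).1.val = (td t (c * n)).1.val := by
    have ha1 : (td t n).1.val ∣ n := Dvd.intro _ a1.symm
    have hb1 : (td t (c * n)).1.val ∣ c * n := Dvd.intro _ b1.symm
    apply Nat.dvd_antisymm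
    · have h1 : (td t n).1.val ∣ (td t (c * n)).1.val * pp (td t (c * n)).2 :=
        (Dvd.dvd.mul_left ha1 c).trans (dvd_of_eq b1)
      exact (hcop (c * n) n (Nat.mul_pos hc hn) hn).symm.dvd_of_dvd_mul_right h1
    · have h2 := (hcopc (c * n) (Nat.mul_pos hc hn)).symm.dvd_of_dvd_mul_left hb1
      exact (hcop n (c * n) hn (Nat.mul_pos hc hn)).symm.dvd_of_dvd_mul_right
        (h2.trans (dvd_of_eq a1))
  exact ⟨a1, by rw [e]; exact b1, hcop _ _ (Nat.mul_pos hc hn) hn, hcop _ _ hn hn⟩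

/-! ### The system -/

/-- The primes of `B`. -/
noncomputable def pr (B : ℕ) : Fin B.primeFactors.card → ℕ := B.primeFactors.orderEmbOfFin rfl

theorem pr_mem (B : ℕ) (i : Fin B.primeFactors.card) : pr B i ∈ B.primeFactors :=
  Finset.orderEmbOfFin_mem _ _ _

theorem pr_prime (B : ℕ) (i : Fin B.primeFactors.card) : (pr B i).Prime :=
  Nat.prime_of_mem_primeFactors (pr_mem B i)

theorem prod_pr {M : Type*} [CommMonoid M] (B : ℕ) (g : ℕ → M) :
    ∏ q ∈ B.primeFactors, g q = ∏ i, g (pr B i) := by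
  conv_lhs => rw [← Finset.map_orderEmbOfFin_univ B.primeFactors rfl]
  rw [Finset.prod_map]
  rfl

theorem sum_pr {M : Type*} [AddCommMonoid M] (B : ℕ) (g : ℕ → M) :
    ∑ q ∈ B.primeFactors, g q = ∑ i, g (pr B i) := by
  conv_lhs => rw [← Finset.map_orderEmbOfFin_univ B.primeFactors rfl]
  rw [Finset.sum_map]
  rfl

theorem prod_pr_pow {B m : ℕ} (hm : m ∣ B) (hB : B ≠ 0) :
    m = ∏ i, pr B i ^ m.factorization (pr B i) := by
  have hm0 : m ≠ 0 := fun h => hB (by rw [h] at hm; exact Nat.eq_zero_of_zero_dvd hm)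
  conv_lhs => rw [← Nat.prod_factorization_pow_eq_self hm0]
  rw [Finsupp.prod, Nat.support_factorization, ← prod_pr B (fun q => q ^ m.factorization q)]
  refine Finset.prod_subset (Nat.primeFactors_mono hm hB) fun q _ hq => ?_
  rw [← Nat.support_factorization, Finsupp.notMem_support_iff] at hq
  rw [hq, pow_zero]

/-- The exponents of `B`. -/
noncomputable def ex (B : ℕ) (i : Fin B.primeFactors.card) : ℕ := B.factorization (pr B i)

theorem sigma_rough {B : ℕ} (hB : B ≠ 0) : σ 1 B = ∏ i, sg (ex B i) (pr B i) := by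
  rw [sigma_eq_prod_primeFactors_sum_range_factorization_pow_mul hB]
  simp only [mul_one]
  rw [prod_pr B (fun p => ∑ i ∈ range (B.factorization p + 1), p ^ i)]
  refine Finset.prod_congr rfl fun i _ => ?_
  rw [sg_eq_sum]; rfl

theorem ex_pos {B : ℕ} (hB : B ≠ 0) (i : Fin B.primeFactors.card) : 1 ≤ ex B i := by
  have h := pr_mem B i
  exact (Nat.prime_of_mem_primeFactors h).factorization_pos_of_dvd hB
    (Nat.dvd_of_mem_primeFactors h)

theorem pr_le {B : ℕ} (hB : B ≠ 0) (i : Fin B.primeFactors.card) : pr B i ≤ B :=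
  Nat.le_of_dvd (Nat.pos_of_ne_zero hB) (Nat.dvd_of_mem_primeFactors (pr_mem B i))

/-- The existence of the system. -/
theorem exists_sys {B A n : ℕ} (hB : B ≠ 0) (hBn : B ≤ n) (hcop : Nat.Coprime A B)
    (hσ : σ 1 B ∣ B * A) :
    ∃ S : Sys B.primeFactors.card n, S.p = pr B ∧ S.e = ex B ∧ (∀ i, S.a i ∣ A) ∧
      (∀ j, ∑ i, S.f i j ≤ ex B j) ∧ ∏ i, S.a i ∣ A := by
  have hdvd : ∀ i, sg (ex B i) (pr B i) ∣ B * A := fun i =>
    (Finset.dvd_prod_of_mem _ (Finset.mem_univ i)).trans ((sigma_rough hB) ▸ hσ)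
  have hsplit : ∀ i, sg (ex B i) (pr B i)
      = Nat.gcd (sg (ex B i) (pr B i)) A * Nat.gcd (sg (ex B i) (pr B i)) B := by
    intro i
    rw [← hcop.gcd_mul, mul_comm A B]
    exact (Nat.gcd_eq_left (hdvd i)).symm
  refine ⟨⟨pr B, ex B, fun i => Nat.gcd (sg (ex B i) (pr B i)) A,
    fun i j => (Nat.gcd (sg (ex B i) (pr B i)) B).factorization (pr B j),
    fun i => (pr_prime B i).two_le, fun i => (pr_le hB i).trans hBn, fun i => ex_pos hB i,
    fun i => ?_⟩, rfl, rfl, fun i => Nat.gcd_dvd_right _ _, fun j => ?_, ?_⟩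
  · conv_lhs => rw [hsplit i]
    congr 1
    exact prod_pr_pow (Nat.gcd_dvd_right _ _) hB
  · simp only
    have h0 : ∀ i ∈ (Finset.univ : Finset (Fin B.primeFactors.card)),
        Nat.gcd (sg (ex B i) (pr B i)) B ≠ 0 := fun i _ =>
      (Nat.gcd_pos_of_pos_right _ (Nat.pos_of_ne_zero hB)).ne'
    have h1 : ∏ i, Nat.gcd (sg (ex B i) (pr B i)) B ∣ B := by
      have g1 : ∏ i, Nat.gcd (sg (ex B i) (pr B i)) B ∣ B * A := by
        refine (Finset.prod_dvd_prod_of_dvd _ (fun i => sg (ex B i) (pr B i))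
          fun i _ => Nat.gcd_dvd_left _ _).trans ?_
        rw [← sigma_rough hB]; exact hσ
      have g2 : Nat.Coprime (∏ i, Nat.gcd (sg (ex B i) (pr B i)) B) A :=
        Nat.Coprime.prod_left fun i _ =>
          (Nat.Coprime.coprime_dvd_right (Nat.gcd_dvd_right _ _) hcop).symm
      exact g2.dvd_of_dvd_mul_right g1
    have h2 := (Nat.factorization_le_iff_dvd (Finset.prod_ne_zero_iff.2 h0) hB).2 h1
    have h3 := h2 (pr B j)
    rw [Nat.factorization_prod h0, Finsupp.finsetSum_apply] at h3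
    exact h3
  · simp only
    have g1 : ∏ i, Nat.gcd (sg (ex B i) (pr B i)) A ∣ B * A := by
      refine (Finset.prod_dvd_prod_of_dvd _ (fun i => sg (ex B i) (pr B i))
        fun i _ => Nat.gcd_dvd_left _ _).trans ?_
      rw [← sigma_rough hB]; exact hσ
    have g2 : Nat.Coprime (∏ i, Nat.gcd (sg (ex B i) (pr B i)) A) B :=
      Nat.Coprime.prod_left fun i _ =>
        Nat.Coprime.coprime_dvd_left (Nat.gcd_dvd_right _ _) hcop
    exact g2.dvd_of_dvd_mul_left g1

/-! ### Lists -/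

section lists

variable {K n : ℕ}

theorem zip_ofFn' {α β : Type*} (x : Fin K → α) (y : Fin K → β) :
    (List.ofFn x).zip (List.ofFn y) = List.ofFn fun i => (x i, y i) := by
  apply List.ext_getElem
  · simp
  · intro i h1 h2
    simp

theorem pp_ofFn (x : Fin K → ℕ) (g : Fin K → ℕ) :
    pp ((List.ofFn fun i => Bin.mk (x i)).zip (List.ofFn g)) = ∏ i, x i ^ g i := by
  rw [zip_ofFn', pp_eq, List.map_ofFn, List.prod_ofFn]
  rfl

/-- The list of equations of a system. -/
def rowsL (S : Sys K n) : List Row :=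
  List.ofFn fun i => (⟨S.a i⟩, (S.e i, List.ofFn (S.f i)))

theorem solve_rowsL (S : Sys K n) (t : ℕ) :
    solve n t (rowsL S) = List.ofFn fun i => Bin.mk (S.it t i) := by
  induction t with
  | zero =>
    rw [solve_zero, rowsL, List.map_ofFn]; rfl
  | succ t ih =>
    rw [solve_succ, ih, step]
    unfold rowsL
    rw [List.map_ofFn]
    congr 1
    funext i
    simp only [Function.comp_apply, pp_ofFn]
    rfl

theorem rprod_rowsL (S : Sys K n) : rprod (rowsL S) = ∏ i, S.a i := by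
  rw [rprod, rowsL, List.map_ofFn, pp_eq, List.map_ofFn, List.prod_ofFn]
  simp

theorem map_e_rowsL (S : Sys K n) : ((rowsL S).map fun r => r.2.1) = List.ofFn S.e := by
  rw [rowsL, List.map_ofFn]; rfl

end lists

/-- The sum of the weights of the equations. -/
theorem sum_rowsOf (d : ℝ) (L : List Bin) (N t K : ℕ)
    (hT : (tuples (List.range (N + 1)) t K).length = (N + 1) ^ K) :
    ((rowsOf L N t K).map fun r => (r.1.val : ℝ) ^ (-d)).sum
      = (L.map fun a => (a.val : ℝ) ^ (-d)).sum * (N * (N + 1) ^ K) := by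
  have e : rowsOf L N t K = L.flatMap fun a => ((((List.range N).map fun e => e + 1) ×ˢ
      tuples (List.range (N + 1)) t K)).map (Prod.mk a) := rfl
  rw [e, sum_map_flatMap]
  have e1 : ∀ a : Bin, ((((((List.range N).map fun e => e + 1) ×ˢ
      tuples (List.range (N + 1)) t K)).map (Prod.mk a)).map
      fun r : Row => (r.1.val : ℝ) ^ (-d)).sum = (N * (N + 1) ^ K) * (a.val : ℝ) ^ (-d) := by
    intro a
    rw [List.map_map]
    have e2 : ((fun r : Row => (r.1.val : ℝ) ^ (-d)) ∘ Prod.mk a) = fun _ => (a.val : ℝ) ^ (-d) :=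
      rfl
    rw [e2, List.map_const', List.sum_replicate, List.length_product, List.length_map,
      List.length_range, hT, nsmul_eq_mul]
    push_cast; rfl
  simp only [e1]
  rw [sum_map_mul_left', mul_comm]

/-- The number of prime factors of `B` is small, if all of them are large. -/
theorem omega_le {B n t M : ℕ} (hB : B ≠ 0) (hBn : B ≤ n) (hn : n ≤ t ^ M)
    (hq : ∀ q : ℕ, q.Prime → q ∣ B → t + 1 < q) : B.primeFactorsList.length ≤ M := by
  by_contra hc
  push Not at hc
  have h1 : (t + 1) ^ B.primeFactorsList.length ≤ B.primeFactorsList.prod := by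
    refine List.pow_card_le_prod _ _ fun q hq' => ?_
    exact (hq q (Nat.prime_of_mem_primeFactorsList hq')
      (Nat.dvd_of_mem_primeFactorsList hq')).le
  rw [Nat.prod_primeFactorsList hB] at h1
  have h2 : (t + 1) ^ (M + 1) ≤ (t + 1) ^ B.primeFactorsList.length :=
    Nat.pow_le_pow_right (by omega) hc
  have h3 : t ^ M ≤ (t + 1) ^ M := Nat.pow_le_pow_left (by omega) _
  have h4 : (t + 1) ^ M < (t + 1) ^ (M + 1) := by
    rcases Nat.eq_zero_or_pos t with h0 | h0
    · exfalso
      subst h0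
      rcases Nat.eq_zero_or_pos M with hM | hM
      · subst hM
        have hB1 : B = 1 := by simp at hn; omega
        rw [hB1] at hc; simp at hc
      · rw [zero_pow hM.ne'] at hn
        omega
    · exact Nat.pow_lt_pow_right (by omega) (by omega)
  omega

theorem length_eq_sum_ex {B : ℕ} : B.primeFactorsList.length = ∑ i, ex B i := by
  rw [← cardFactors_apply, cardFactors_eq_sum_factorization, Finsupp.sum, Nat.support_factorization,
    sum_pr B (fun q => B.factorization q)]
  rfl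

theorem card_le_omega {B : ℕ} (hB : B ≠ 0) : B.primeFactors.card ≤ B.primeFactorsList.length := by
  rw [length_eq_sum_ex]
  have : ∑ i : Fin B.primeFactors.card, 1 ≤ ∑ i, ex B i :=
    Finset.sum_le_sum fun i _ => ex_pos hB i
  simpa using this

theorem ex_le_omega {B : ℕ} (i : Fin B.primeFactors.card) :
    ex B i ≤ B.primeFactorsList.length := by
  rw [length_eq_sum_ex]
  exact Finset.single_le_sum (f := ex B) (fun _ _ => Nat.zero_le _) (Finset.mem_univ i)

theorem omega_lt_size {B n : ℕ} (hB : B ≠ 0) (hBn : B ≤ n) :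
    B.primeFactorsList.length < n.size := by
  rw [Nat.lt_size]
  have h1 : 2 ^ B.primeFactorsList.length ≤ B.primeFactorsList.prod :=
    List.pow_card_le_prod _ _ fun q hq => (Nat.prime_of_mem_primeFactorsList hq).two_le
  rw [Nat.prod_primeFactorsList hB] at h1
  omega

/-- The solution of the system is found. -/
theorem it_eq_of_large {K n M : ℕ} (S : Sys K n) (hKM : K ≤ M) (he : ∀ i, S.e i ≤ M)
    (hcol : ∀ j, ∑ i, S.f i j ≤ S.e j) {t : ℕ} {c : ℝ} (hc0 : 0 < c) (hc1 : c ≤ 1 / 2)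
    (hw : ∀ (K : ℕ) (e : Fin K → ℕ) (f : Fin K → Fin K → ℕ) (J : Finset (Fin K)), J.card ≤ M →
      (∀ j ∈ J, e j ≤ M) → (∀ j ∈ J, 1 ≤ e j) → (∀ j ∈ J, ∑ i ∈ J, f i j ≤ e j) →
      (∀ J' ⊆ J, J'.Nonempty → ¬ Closed e f J') →
      ∃ w : Fin K → ℝ, (∀ i ∈ J, 1 ≤ w i ∧ w i ≤ 2) ∧
        ∀ j ∈ J, ∑ i ∈ J, w i * (f i j : ℝ) ≤ (1 - c) * (w j * e j))
    (hp : ∀ i, t + 1 ≤ S.p i) (h1 : 4 / c ≤ t) (h2 : 2 * M ≤ t)
    (h3 : (1 - c / 2) ^ t * (2 * M * M * Real.log n) < 1 / (n + 1)) :
    S.it t = S.p := by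
  obtain ⟨w, w1, w2⟩ := hw K S.e S.f Finset.univ (by simpa using hKM) (fun j _ => he j)
    (fun j _ => S.e_pos j) (fun j _ => hcol j)
    (fun J' _ hJ' => S.not_closed (fun i => by have := hp i; omega) J' hJ')
  refine S.it_eq hc0 hc1 w (fun i => w1 i (Finset.mem_univ i)) (fun j => w2 j (Finset.mem_univ j))
    (fun i => h1.trans (by exact_mod_cast (Nat.le_succ t).trans (hp i))) (Ω := M) he t ?_
  refine lt_of_le_of_lt ?_ h3
  have g0 : 0 ≤ (1 - c / 2) ^ t := pow_nonneg (by linarith) t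
  refine mul_le_mul_of_nonneg_left ?_ g0
  have g1 : (K : ℝ) ≤ M := by exact_mod_cast hKM
  have g2 : 0 ≤ Real.log n := Real.log_natCast_nonneg n
  have g3 : (0 : ℝ) ≤ M := Nat.cast_nonneg _
  have g4 : (2 * (K : ℝ) * M) ≤ 2 * M * M := by nlinarith
  exact mul_le_mul_of_nonneg_right g4 g2

/-- The algorithm is correct, if `t` is large enough. -/
theorem factor_correct {n c t M : ℕ} (hn : 0 < n) (hc : 0 < c) (hct : c ≤ t)
    (hσ : σ 1 n ∣ c * n) (hnt : n ≤ t ^ M) {c0 : ℝ} (hc0 : 0 < c0) (hc1 : c0 ≤ 1 / 2)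
    (hw : ∀ (K : ℕ) (e : Fin K → ℕ) (f : Fin K → Fin K → ℕ) (J : Finset (Fin K)), J.card ≤ M →
      (∀ j ∈ J, e j ≤ M) → (∀ j ∈ J, 1 ≤ e j) → (∀ j ∈ J, ∑ i ∈ J, f i j ≤ e j) →
      (∀ J' ⊆ J, J'.Nonempty → ¬ Closed e f J') →
      ∃ w : Fin K → ℝ, (∀ i ∈ J, 1 ≤ w i ∧ w i ≤ 2) ∧
        ∀ j ∈ J, ∑ i ∈ J, w i * (f i j : ℝ) ≤ (1 - c0) * (w j * e j))
    (h1 : 4 / c0 ≤ t) (h2 : 2 * M ≤ t)
    (h3 : (1 - c0 / 2) ^ t * (2 * M * M * Real.log n) < 1 / (n + 1))
    (h5 : (n.size + 1) ^ M ≤ t) {d Z : ℝ} (hd : 0 ≤ d)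
    (hZ : ((td t (c * n)).2.map (gs d)).prod ≤ Z)
    (h4 : ((c * n : ℕ) : ℝ) ^ d * Z ≤ t)
    (h6 : ((c * n : ℕ) : ℝ) ^ d * (Z * (n.size * (n.size + 1) ^ M)) ^ M ≤ t) :
    (∀ z ∈ factor n c t, z.val.Prime) ∧ ((factor n c t).map Bin.val).prod = n := by
  obtain ⟨a1, a2, a3, a4⟩ := rough_smooth hn hc hct
  obtain ⟨b1, b2, b3, b4, b5⟩ := td_spec t n hn
  obtain ⟨d1, d2, d3, d4, d5⟩ := td_spec t (c * n) (Nat.mul_pos hc hn)
  set B := (td t n).1.val with hBdef
  set A := pp (td t (c * n)).2 with hAdef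
  have hB : B ≠ 0 := by
    intro h; rw [h, zero_mul] at a1; omega
  have hA : A ≠ 0 := by
    intro h; rw [h, mul_zero] at a2
    exact (Nat.mul_pos hc hn).ne' a2
  have hBdvd : B ∣ n := Dvd.intro _ a1.symm
  have hBn : B ≤ n := Nat.le_of_dvd hn hBdvd
  -- the sum of divisors
  have hσB : σ 1 B ∣ B * A := by
    have g1 : σ 1 n = σ 1 (pp (td t n).2) * σ 1 B := by
      rw [← isMultiplicative_sigma.map_mul_of_coprime a4, mul_comm, ← a1]
    rw [← a2]
    refine Dvd.dvd.trans ?_ hσ
    rw [g1]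
    exact Dvd.intro_left _ rfl
  obtain ⟨S, s1, s2, s3, s4, s5⟩ := exists_sys hB hBn a3 hσB
  have hΩ := omega_le hB hBn hnt b4
  have hKM : B.primeFactors.card ≤ M := (card_le_omega hB).trans hΩ
  have heM : ∀ i, S.e i ≤ M := fun i => by rw [s2]; exact (ex_le_omega i).trans hΩ
  have hcol : ∀ j, ∑ i, S.f i j ≤ S.e j := fun j => by rw [s2]; exact s4 j
  have hit : S.it t = S.p := it_eq_of_large S hKM heM hcol hc0 hc1 hw
    (fun i => by
      rw [s1]
      exact (b4 _ (pr_prime B i) (Nat.dvd_of_mem_primeFactors (pr_mem B i))).le) h1 h2 h3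
  -- the list of divisors
  have hcount := prod_succ_eq_card _ d2 d5
  have hAdvd : A ∣ c * n := by rw [a2]; exact Dvd.intro_left _ rfl
  have hAle : A ≤ c * n := Nat.le_of_dvd (Nat.mul_pos hc hn) hAdvd
  have hAd : (A : ℝ) ^ d ≤ ((c * n : ℕ) : ℝ) ^ d :=
    Real.rpow_le_rpow (Nat.cast_nonneg _) (by exact_mod_cast hAle) hd
  have hPi1 : 1 ≤ ((td t (c * n)).2.map (gs d)).prod := by
    have : ∀ l : List (Bin × ℕ), 1 ≤ (l.map (gs d)).prod := by
      intro l
      induction l with
      | nil => simp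
      | cons p l ih =>
        rw [List.map_cons, List.prod_cons]
        have := one_le_gs d p
        nlinarith
    exact this _
  have hcut : ((td t (c * n)).2.map fun p => p.2 + 1).prod ≤ t := by
    have g1 := prod_succ_le hd (td t (c * n)).2 d2
    have g2 : ((((td t (c * n)).2.map fun p => p.2 + 1).prod : ℕ) : ℝ) ≤ t := by
      refine g1.trans (le_trans ?_ h4)
      exact mul_le_mul hAd hZ (by linarith) (by positivity)
    exact_mod_cast g2
  have hL := mem_divL t (td t (c * n)).2 d2 hcut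
  have hLs := ws_divL d t (td t (c * n)).2 hcut
  set L := divL t (td t (c * n)).2 with hLdef
  set N := n.size with hN
  have hNpos : 1 ≤ N := Nat.size_pos.2 hn
  have hΩN := omega_lt_size hB hBn
  have hKN : B.primeFactors.card < N := (card_le_omega hB).trans_lt hΩN
  -- exponent vectors
  have hfl : (N + 1) ^ B.primeFactors.card ≤ t := (Nat.pow_le_pow_right (by omega) hKM).trans h5
  have hT1 := mem_tuples_of (List.range (N + 1)) t B.primeFactors.card (by simpa using hfl) (by simp)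
  rw [List.length_range] at hT1
  have hrow : ∀ i, ((⟨S.a i⟩, (S.e i, List.ofFn (S.f i))) : Row) ∈ rowsOf L N t B.primeFactors.card := by
    intro i
    rw [rowsOf, List.mem_product, List.mem_product]
    refine ⟨hL.2 _ (s3 i), List.mem_map.2 ⟨S.e i - 1, List.mem_range.2 ?_, ?_⟩, ?_⟩
    · have g1 : S.e i ≤ B.primeFactorsList.length := by rw [s2]; exact ex_le_omega i
      have g2 := S.e_pos i
      omega
    · have g2 := S.e_pos i
      omega
    · refine hT1.2 _ (by simp) fun b hb => ?_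
      obtain ⟨j, rfl⟩ := (List.mem_ofFn' _ _).1 hb
      rw [List.mem_range]
      have g1 : S.f i j ≤ S.e j :=
        (Finset.single_le_sum (f := fun i => S.f i j) (fun _ _ => Nat.zero_le _)
          (Finset.mem_univ i)).trans (hcol j)
      have g2 : S.e j ≤ B.primeFactorsList.length := by rw [s2]; exact ex_le_omega j
      omega
  have hSum := sum_rowsOf d L N t B.primeFactors.card hT1.1
  rw [hLs] at hSum
  have hNr : (1 : ℝ) ≤ N := by exact_mod_cast hNpos
  have hX1 : (1 : ℝ) ≤ N * (N + 1) ^ B.primeFactors.card := by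
    have : (1 : ℝ) ≤ ((N : ℝ) + 1) ^ B.primeFactors.card := one_le_pow₀ (by linarith)
    nlinarith
  have hXM : (N * ((N : ℝ) + 1) ^ B.primeFactors.card) ≤ N * (N + 1) ^ M :=
    mul_le_mul_of_nonneg_left (pow_le_pow_right₀ (by linarith) hKM) (by linarith)
  have hS1 : 1 ≤ ((td t (c * n)).2.map (gs d)).prod * (N * (N + 1) ^ B.primeFactors.card) := by
    nlinarith
  have hSZ : ((td t (c * n)).2.map (gs d)).prod * (N * (N + 1) ^ B.primeFactors.card)
      ≤ Z * (N * (N + 1) ^ M) :=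
    mul_le_mul hZ hXM (by linarith) (by linarith)
  have hT2 := rtuples_spec (Nat.pos_of_ne_zero hA) hd (rowsOf L N t B.primeFactors.card) t
    B.primeFactors.card hSum.symm hS1 (by
      refine le_trans ?_ h6
      refine mul_le_mul hAd ?_ (by positivity) (by positivity)
      calc _ ≤ (Z * (N * (N + 1) ^ M)) ^ B.primeFactors.card :=
            pow_le_pow_left₀ (by linarith) hSZ _
        _ ≤ (Z * (N * (N + 1) ^ M)) ^ M := pow_le_pow_right₀ (hS1.trans hSZ) hKM)
    B.primeFactors.card le_rfl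
  have hmem : rowsL S ∈ rtuples A (rowsOf L N t B.primeFactors.card) t B.primeFactors.card := by
    refine hT2.2 _ (by simp [rowsL]) (fun b hb => ?_) (by rw [rprod_rowsL]; exact s5)
    obtain ⟨i, rfl⟩ := (List.mem_ofFn' _ _).1 hb
    exact hrow i
  -- the true factorisation
  have hprodB : ∏ i, S.p i ^ S.e i = B := by
    rw [s1, s2]; exact (prod_pr_pow dvd_rfl hB).symm
  have hgood : (good B (solve n t (rowsL S)) (rowsL S)).length = B.primeFactorsList.length := by
    have hall : ((List.ofFn fun i => Bin.mk (S.p i)).all fun z => decide (2 ≤ z.val)) = true := by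
      rw [List.all_eq_true]
      intro z hz
      obtain ⟨i, rfl⟩ := (List.mem_ofFn' _ _).1 hz
      simpa using S.two_le i
    rw [solve_rowsL, hit]
    unfold good
    rw [map_e_rowsL, pp_ofFn, hprodB, if_pos ⟨rfl, hall⟩, length_expand, zip_ofFn',
      List.map_ofFn, List.sum_ofFn, length_eq_sum_ex]
    exact Finset.sum_congr rfl fun i _ => by simp only [Function.comp_apply, s2]
  have hcand : good B (solve n t (rowsL S)) (rowsL S) ∈ cands n B A t N L :=
    List.mem_flatMap.2 ⟨B.primeFactors.card, List.mem_range.2 (by omega), List.mem_map.2 ⟨rowsL S, hmem, rfl⟩⟩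
  obtain ⟨l1, l2⟩ := longest_spec (cands n B A t N L)
  have hlen := l2 _ hcand
  rw [hgood] at hlen
  have hmain : (∀ z ∈ longest (cands n B A t N L), z.val.Prime) ∧
      ((longest (cands n B A t N L)).map Bin.val).prod = B := by
    rcases l1 with l1 | l1
    · rw [l1] at hlen ⊢
      simp only [List.length_nil, nonpos_iff_eq_zero, List.length_eq_zero_iff] at hlen
      refine ⟨by simp, ?_⟩
      rw [Nat.primeFactorsList_eq_nil] at hlen
      rcases hlen with h | h
      · exact absurd h hB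
      · simp [h]
    · obtain ⟨K', _, h7⟩ := List.mem_flatMap.1 l1
      obtain ⟨rows, _, h8⟩ := List.mem_map.1 h7
      by_cases h9 : longest (cands n B A t N L) = []
      · rw [h9] at hlen ⊢
        simp only [List.length_nil, nonpos_iff_eq_zero, List.length_eq_zero_iff] at hlen
        refine ⟨by simp, ?_⟩
        rw [Nat.primeFactorsList_eq_nil] at hlen
        rcases hlen with h | h
        · exact absurd h hB
        · simp [h]
      · obtain ⟨g1, g2⟩ := good_spec h8 h9
        refine ⟨?_, g1⟩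
        have g3 := (prime_of_length ((longest (cands n B A t N L)).map Bin.val) (by
          intro z hz
          obtain ⟨w, hw, rfl⟩ := List.mem_map.1 hz
          exact g2 w hw)).2 (by rw [g1, List.length_map]; exact hlen)
        exact fun z hz => g3 _ (List.mem_map.2 ⟨z, hz, rfl⟩)
  have hfac : factor n c t = expand (td t n).2 ++ longest (cands n B A t N L) := rfl
  rw [hfac]
  refine ⟨fun z hz => ?_, ?_⟩
  · rcases List.mem_append.1 hz with hz | hz
    · obtain ⟨p, hp, hp0, rfl⟩ := mem_expand hz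
      exact b2 p hp hp0
    · exact hmain.1 z hz
  · rw [List.map_append, List.prod_append, prod_expand, hmain.2, mul_comm]
    exact a1.symm

end Pool.Agent.Lib.MP_394210_lc
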