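import Mathlib
import Pool.Agent.Lib.MP_394210_lc.System

/-!
# The algorithm is correct, with explicit thresholds
-/

namespace Pool.Agent.Lib.MP_394210_lc

open Finset ArithmeticFunction Pool.Agent.PolyTime

open scoped ArithmeticFunction.sigma

/-- The base of the threshold. -/
def hH (m : ℕ) : ℕ := 32 * (m + 2) ^ 2

theorem sq_le_two_pow {s : ℕ} (hs : 4 ≤ s) : s ^ 2 ≤ 2 ^ s := by
  induction s, hs using Nat.le_induction with
  | base => norm_num
  | succ s hs ih =>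
    rw [pow_succ 2 s]
    nlinarith

theorem cube_le_two_pow {y : ℕ} (hy : 10 ≤ y) : y ^ 3 ≤ 2 ^ y := by
  induction y, hy using Nat.le_induction with
  | base => norm_num
  | succ y hy ih =>
    rw [pow_succ 2 y]
    have h1 : 10 * y ^ 2 ≤ y ^ 3 := by rw [pow_succ y 2, mul_comm]; exact Nat.mul_le_mul_left _ hy
    have h2 : 10 * y ≤ y ^ 2 := by rw [pow_two]; exact Nat.mul_le_mul_right _ hy
    have h3 : (y + 1) ^ 3 = y ^ 3 + 3 * y ^ 2 + 3 * y + 1 := by ring
    omega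

theorem le_hH (M : ℕ) : 32 * (M + 2) ≤ hH M := by
  unfold hH
  rw [pow_two]
  exact Nat.mul_le_mul_left _ (Nat.le_mul_of_pos_left _ (by omega))

/-- A bound for the logarithm of the number of bits. -/
theorem exists_s {M y : ℕ} (hM : 1 ≤ M) (hy : hH M ^ (8 * M + 11) ≤ y) :
    ∃ s : ℕ, (M + 4) * y ≤ 2 ^ s ∧ 16 * M * hH M ^ (4 * M + 4) * s ≤ y := by
  have hH1 := le_hH M
  have hyH : hH M ≤ y := (Nat.le_self_pow (by omega) _).trans hy
  set r := Nat.sqrt ((M + 4) * y) with hr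
  have hr1 : r * r ≤ (M + 4) * y := Nat.sqrt_le _
  have hr2 : (M + 4) * y < (r + 1) * (r + 1) := Nat.lt_succ_sqrt _
  have hr3 : 4 ≤ r := by
    rw [hr, Nat.le_sqrt]
    nlinarith
  refine ⟨r + 1, ?_, ?_⟩
  · have := sq_le_two_pow (s := r + 1) (by omega)
    rw [pow_two] at this
    omega
  · set a := hH M ^ (4 * M + 4) with ha
    have h1 : 1024 * (M ^ 2 * (M + 4)) ≤ hH M ^ 3 := by
      have e1 : hH M ^ 3 = 32768 * (M + 2) ^ 6 := by unfold hH; ring
      rw [e1]
      have e2 : M ^ 2 ≤ (M + 2) ^ 2 := Nat.pow_le_pow_left (by omega) _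
      have e3 : M + 4 ≤ (M + 2) ^ 4 := by
        have : (M + 2) ^ 2 ≤ (M + 2) ^ 4 := Nat.pow_le_pow_right (by omega) (by norm_num)
        nlinarith
      have e4 := Nat.mul_le_mul e2 e3
      rw [← pow_add] at e4
      norm_num at e4
      omega
    have h2 : a ^ 2 * hH M ^ 3 ≤ y := by
      rw [ha, ← pow_mul, ← pow_add]
      refine le_trans (le_of_eq ?_) hy
      congr 1; ring
    have h3 : (16 * M * a * (r + 1)) ^ 2 ≤ y ^ 2 := by
      have g1 : (r + 1) ^ 2 ≤ 4 * ((M + 4) * y) := by nlinarith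
      calc (16 * M * a * (r + 1)) ^ 2 = (256 * M ^ 2 * a ^ 2) * (r + 1) ^ 2 := by ring
        _ ≤ (256 * M ^ 2 * a ^ 2) * (4 * ((M + 4) * y)) := Nat.mul_le_mul_left _ g1
        _ = (a ^ 2 * (1024 * (M ^ 2 * (M + 4)))) * y := by ring
        _ ≤ (a ^ 2 * hH M ^ 3) * y := Nat.mul_le_mul_right _ (Nat.mul_le_mul_left _ h1)
        _ ≤ y * y := Nat.mul_le_mul_right _ h2
        _ = y ^ 2 := by ring
    exact (Nat.pow_le_pow_iff_left (by norm_num)).1 h3

theorem two_pow_le {k y q : ℕ} (hq : 0 < q) (h : q * k ≤ y) :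
    (2 : ℝ) ^ k ≤ (2 : ℝ) ^ ((y : ℝ) / q) := by
  rw [← Real.rpow_natCast]
  refine Real.rpow_le_rpow_of_exponent_le (by norm_num) ?_
  rw [le_div_iff₀ (by exact_mod_cast hq)]
  rw [mul_comm]
  exact_mod_cast h

theorem two_pow_le_exp (k : ℕ) : (2 : ℝ) ^ k ≤ Real.exp k := by
  have h := Real.add_one_le_exp (1 : ℝ)
  have h2 : (2 : ℝ) ≤ Real.exp 1 := by linarith
  have h3 := pow_le_pow_left₀ (by norm_num) h2 k
  rwa [← Real.exp_nat_mul, mul_one] at h3

theorem exp_le_two_rpow {x : ℝ} (hx : 0 ≤ x) : Real.exp x ≤ (2 : ℝ) ^ (2 * x) := by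
  rw [Real.rpow_def_of_pos (by norm_num)]
  refine Real.exp_le_exp.2 ?_
  have := Real.log_two_gt_d9
  nlinarith

theorem four_div_cw {M y : ℕ} (hy : hH M ^ (M + 1) ≤ y) : 4 / cw M M ≤ y := by
  have e1 : 4 / cw M M = 8 * (8 * ((M : ℝ) + 1)) ^ M := by
    unfold cw
    rw [one_div, one_div, inv_pow]
    field_simp
    norm_num
  rw [e1]
  have h1 := le_hH M
  have h2 : 8 * (8 * (M + 1)) ^ M ≤ hH M ^ (M + 1) := by
    rw [pow_succ', mul_comm 8]
    rw [mul_comm (hH M)]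
    exact Nat.mul_le_mul (Nat.pow_le_pow_left (by omega) _) (by omega)
  exact_mod_cast h2.trans hy

theorem iter_bound {M y n : ℕ} (hM : 1 ≤ M) (hy : hH M ^ (M + 1) ≤ y)
    (hn : 0 < n) (hnt : n ≤ (2 ^ y) ^ M) :
    (1 - cw M M / 2) ^ (2 ^ y) * (2 * M * M * Real.log n) < 1 / ((n : ℝ) + 1) := by
  have hc0 := cw_pos M M
  have hc1 := cw_le M M
  have hH1 := le_hH M
  have hyH : hH M ≤ y := (Nat.le_self_pow (by omega) _).trans hy
  have h4 := four_div_cw hy
  have hy0 : (0 : ℝ) < y := by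
    have : 0 < y := by omega
    exact_mod_cast this
  have hcy : 4 ≤ (y : ℝ) * cw M M := by rwa [div_le_iff₀ hc0] at h4
  have h3 : ((y : ℝ)) ^ 3 ≤ (2 : ℝ) ^ y := by exact_mod_cast cube_le_two_pow (by omega)
  have hpow : (1 - cw M M / 2) ^ (2 ^ y) ≤ Real.exp (-(2 * (y : ℝ) ^ 2)) := by
    have g1 : 1 - cw M M / 2 ≤ Real.exp (-(cw M M / 2)) := by
      have := Real.add_one_le_exp (-(cw M M / 2)); linarith
    have g2 := pow_le_pow_left₀ (by linarith : 0 ≤ 1 - cw M M / 2) g1 (2 ^ y)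
    refine g2.trans ?_
    rw [← Real.exp_nat_mul]
    refine Real.exp_le_exp.2 ?_
    push_cast
    have g3 : 2 * (y : ℝ) ^ 2 ≤ (2 : ℝ) ^ y * (cw M M / 2) := by
      have g4 : (y : ℝ) ^ 3 * (cw M M / 2) ≤ (2 : ℝ) ^ y * (cw M M / 2) :=
        mul_le_mul_of_nonneg_right h3 (by linarith)
      have g5 : (y : ℝ) ^ 3 * (cw M M / 2) = (y : ℝ) ^ 2 * ((y : ℝ) * cw M M) / 2 := by ring
      have g6 : (y : ℝ) ^ 2 * 4 ≤ (y : ℝ) ^ 2 * ((y : ℝ) * cw M M) :=
        mul_le_mul_of_nonneg_left hcy (by positivity)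
      linarith
    linarith
  have hnr : (n : ℝ) ≤ (2 : ℝ) ^ (M * y) := by
    have : (n : ℝ) ≤ ((2 : ℝ) ^ y) ^ M := by exact_mod_cast hnt
    rwa [← pow_mul, mul_comm] at this
  have hn0 : (1 : ℝ) ≤ n := by exact_mod_cast hn
  have hlog : Real.log n ≤ (2 : ℝ) ^ (M * y) := by
    have := Real.log_le_sub_one_of_pos (x := (n : ℝ)) (by linarith)
    linarith
  have hlog0 : 0 ≤ Real.log n := Real.log_natCast_nonneg n
  have hM2 : 2 * (M : ℝ) * M ≤ (2 : ℝ) ^ y := by
    have g1 : 2 * M * M ≤ hH M := by unfold hH; nlinarith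
    have g2 : y ≤ 2 ^ y := Nat.lt_two_pow_self.le
    exact_mod_cast g1.trans (hyH.trans g2)
  have hn1 : (n : ℝ) + 1 ≤ (2 : ℝ) ^ (M * y + 1) := by
    rw [pow_succ]; linarith
  rw [lt_div_iff₀ (by linarith)]
  have h5 : 2 * (M : ℝ) * M * Real.log n * (n + 1) ≤ (2 : ℝ) ^ ((2 * M + 1) * y + 1) := by
    calc 2 * (M : ℝ) * M * Real.log n * (n + 1)
        ≤ (2 : ℝ) ^ y * (2 : ℝ) ^ (M * y) * (2 : ℝ) ^ (M * y + 1) := by
          refine mul_le_mul (mul_le_mul hM2 hlog hlog0 (by positivity)) hn1 (by linarith)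
            (by positivity)
      _ = (2 : ℝ) ^ ((2 * M + 1) * y + 1) := by
          rw [← pow_add, ← pow_add]; congr 1; ring
  have h6 : (2 : ℝ) ^ ((2 * M + 1) * y + 1) < Real.exp (2 * (y : ℝ) ^ 2) := by
    refine (two_pow_le_exp _).trans_lt (Real.exp_lt_exp.2 ?_)
    have g1 : (2 * M + 1) * y + 1 < 2 * y ^ 2 := by nlinarith
    exact_mod_cast g1
  calc (1 - cw M M / 2) ^ 2 ^ y * (2 * M * M * Real.log n) * (n + 1)
      = (1 - cw M M / 2) ^ 2 ^ y * (2 * M * M * Real.log n * (n + 1)) := by ring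
    _ ≤ Real.exp (-(2 * (y : ℝ) ^ 2)) * (2 : ℝ) ^ ((2 * M + 1) * y + 1) :=
        mul_le_mul hpow h5 (by positivity) (by positivity)
    _ < Real.exp (-(2 * (y : ℝ) ^ 2)) * Real.exp (2 * (y : ℝ) ^ 2) :=
        mul_lt_mul_of_pos_left h6 (Real.exp_pos _)
    _ = 1 := by rw [← Real.exp_add]; simp

theorem size_mul_le_hH {M y N' : ℕ} (hy : 1 ≤ y) (h : N' ≤ (M + 1) * y + 1) :
    4 * (N' * M) * 4 ≤ y * hH M := by
  have g4 : N' ≤ (M + 2) * y := by nlinarith
  calc 4 * (N' * M) * 4 = N' * (16 * M) := by ring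
    _ ≤ ((M + 2) * y) * (32 * (M + 2)) := Nat.mul_le_mul g4 (by omega)
    _ = y * hH M := by unfold hH; ring

theorem bits_succ_le {M y N' z : ℕ} (hy : 2 ≤ y) (h : N' ≤ (M + 1) * y + 1)
    (hs : (M + 4) * y ≤ z) : N' + 1 ≤ z := by
  have : (M + 4) * y = (M + 1) * y + 3 * y := by ring
  omega

/-- The algorithm is correct, with explicit thresholds. -/
theorem factor_explicit {M y n c : ℕ} (hM : 1 ≤ M) (hy : hH M ^ (8 * M + 11) ≤ y) (hn : 0 < n)
    (hc : 0 < c) (hct : c ≤ 2 ^ y) (hnt : n ≤ (2 ^ y) ^ M) (hσ : σ 1 n ∣ c * n) :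
    (∀ z ∈ factor n c (2 ^ y), z.val.Prime) ∧ ((factor n c (2 ^ y)).map Bin.val).prod = n := by
  obtain ⟨s, hs1, hs2⟩ := exists_s hM hy
  have hH1 := le_hH M
  have hHpos : 0 < hH M := by omega
  have hyM : hH M ^ (M + 1) ≤ y := (Nat.pow_le_pow_right hHpos (by omega)).trans hy
  have hyH : hH M ≤ y := (Nat.le_self_pow (by omega) _).trans hy
  set P0 := hH M ^ (4 * M + 4) with hP0
  have hHP0 : hH M ≤ P0 := Nat.le_self_pow (by omega) _
  set N' := (c * n).size with hN'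
  have hcn : c * n ≤ 2 ^ ((M + 1) * y) := by
    have e : 2 ^ ((M + 1) * y) = 2 ^ y * (2 ^ y) ^ M := by rw [← pow_mul, ← pow_add]; congr 1; ring
    rw [e]; exact Nat.mul_le_mul hct hnt
  have hN'le : N' ≤ (M + 1) * y + 1 := by
    rw [hN', Nat.size_le]
    exact hcn.trans_lt (Nat.pow_lt_pow_right (by norm_num) (by omega))
  have hNle : n.size ≤ M * y + 1 := by
    rw [Nat.size_le]
    refine hnt.trans_lt ?_
    rw [← pow_mul, mul_comm]
    exact Nat.pow_lt_pow_right (by norm_num) (by omega)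
  have hN's : N' + 1 ≤ 2 ^ s := bits_succ_le (by omega) hN'le hs1
  have hNs : n.size + 1 ≤ 2 ^ s := by
    refine bits_succ_le (M := M) (by omega) (hNle.trans ?_) hs1
    have : (M + 1) * y = M * y + y := by ring
    omega
  set H : ℝ := (hH M : ℝ) with hHr
  have hH2 : (2 : ℝ) ≤ H := by
    have : 2 ≤ hH M := by omega
    rw [hHr]; exact_mod_cast this
  have hMr : (1 : ℝ) ≤ M := by exact_mod_cast hM
  set d : ℝ := 1 / (4 * ((M : ℝ) + 1)) with hd
  have hd0 : 0 < d := by positivity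
  set Z1 : ℝ := ((N' : ℝ) + 1) ^ (P0 + 1) with hZ1
  set Z2 : ℝ := (1 + 2 * (1 / H)) ^ N' with hZ2
  set X : ℝ := (n.size : ℝ) * ((n.size : ℝ) + 1) ^ M with hX
  set Q : ℝ := (2 : ℝ) ^ ((y : ℝ) / 4) with hQ
  have hQ0 : 0 < Q := by positivity
  have hQ4 : Q * (Q * Q * Q) = ((2 ^ y : ℕ) : ℝ) := by
    rw [hQ, ← Real.rpow_add (by norm_num), ← Real.rpow_add (by norm_num),
      ← Real.rpow_add (by norm_num)]
    push_cast
    rw [← Real.rpow_natCast]
    congr 1; ring
  have hQ1 : 1 ≤ Q := Real.one_le_rpow (by norm_num) (by positivity)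
  -- the four bounds
  have T1 : ((c * n : ℕ) : ℝ) ^ d ≤ Q := by
    have g1 : ((c * n : ℕ) : ℝ) ≤ (2 : ℝ) ^ ((M + 1) * y) := by exact_mod_cast hcn
    refine (Real.rpow_le_rpow (Nat.cast_nonneg _) g1 hd0.le).trans (le_of_eq ?_)
    rw [← Real.rpow_natCast, ← Real.rpow_mul (by norm_num), hQ, hd]
    congr 1
    push_cast
    field_simp
  have T2 : Z1 ^ M ≤ Q := by
    have g1 : ((N' : ℝ) + 1) ≤ (2 : ℝ) ^ s := by exact_mod_cast hN's
    calc Z1 ^ M ≤ (((2 : ℝ) ^ s) ^ (P0 + 1)) ^ M :=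
          pow_le_pow_left₀ (by positivity) (pow_le_pow_left₀ (by positivity) g1 _) _
      _ = (2 : ℝ) ^ (s * (P0 + 1) * M) := by rw [← pow_mul, ← pow_mul, mul_assoc]
      _ ≤ Q := by
          have := two_pow_le (k := s * (P0 + 1) * M) (y := y) (q := 4) (by norm_num) (by
            have e1 : 16 * M * P0 * s = (4 * (s * M)) * (4 * P0) := by ring
            have e2 : 4 * (s * (P0 + 1) * M) = (4 * (s * M)) * (P0 + 1) := by ring
            rw [e2]
            rw [e1] at hs2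
            exact (Nat.mul_le_mul_left _ (by omega)).trans hs2)
          simpa using this
  have T3 : Z2 ^ M ≤ Q := by
    have g1 : 1 + 2 * (1 / H) ≤ Real.exp (2 * (1 / H)) := by
      have := Real.add_one_le_exp (2 * (1 / H)); linarith
    have g2 : Z2 ^ M ≤ Real.exp ((N' * M : ℕ) * (2 * (1 / H))) := by
      rw [hZ2, ← pow_mul, Real.exp_nat_mul]
      exact pow_le_pow_left₀ (by positivity) g1 _
    refine g2.trans ((exp_le_two_rpow (by positivity)).trans ?_)
    rw [hQ]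
    refine Real.rpow_le_rpow_of_exponent_le (by norm_num) ?_
    have e1 : 2 * (((N' * M : ℕ) : ℝ) * (2 * (1 / H))) = (4 * (N' * M : ℕ)) / H := by ring
    rw [e1, div_le_div_iff₀ (by linarith) (by norm_num)]
    have g3 := size_mul_le_hH (by omega) hN'le
    rw [hHr]
    exact_mod_cast g3
  have T4 : X ^ M ≤ Q := by
    have g1 : ((n.size : ℝ) + 1) ≤ (2 : ℝ) ^ s := by exact_mod_cast hNs
    have g0 : (0 : ℝ) ≤ n.size := Nat.cast_nonneg _
    have g2 : X ≤ ((2 : ℝ) ^ s) ^ (M + 1) := by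
      rw [hX, pow_succ', ]
      exact mul_le_mul (by linarith) (pow_le_pow_left₀ (by positivity) g1 _) (by positivity)
        (by positivity)
    calc X ^ M ≤ (((2 : ℝ) ^ s) ^ (M + 1)) ^ M := pow_le_pow_left₀ (by positivity) g2 _
      _ = (2 : ℝ) ^ (s * (M + 1) * M) := by rw [← pow_mul, ← pow_mul, mul_assoc]
      _ ≤ Q := by
          have := two_pow_le (k := s * (M + 1) * M) (y := y) (q := 4) (by norm_num) (by
            have e1 : 16 * M * P0 * s = (4 * (s * M)) * (4 * P0) := by ring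
            have e2 : 4 * (s * (M + 1) * M) = (4 * (s * M)) * (M + 1) := by ring
            rw [e2]
            rw [e1] at hs2
            exact (Nat.mul_le_mul_left _ (by omega)).trans hs2)
          simpa using this
  have hZ11 : 1 ≤ Z1 := one_le_pow₀ (by
    have : (0 : ℝ) ≤ N' := Nat.cast_nonneg _
    linarith)
  have hZ21 : 1 ≤ Z2 := one_le_pow₀ (by
    have : 0 ≤ 1 / H := by positivity
    linarith)
  refine factor_correct (M := M) hn hc hct hσ hnt (cw_pos M M) (cw_le M M)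
    (exists_weights M M) ?_ ?_ ?_ ?_ (d := d) (Z := Z1 * Z2) hd0.le ?_ ?_ ?_
  · refine (four_div_cw hyM).trans ?_
    exact_mod_cast Nat.lt_two_pow_self.le
  · have : y < 2 ^ y := Nat.lt_two_pow_self
    omega
  · exact iter_bound hM hyM hn hnt
  · calc (n.size + 1) ^ M ≤ (2 ^ s) ^ M := Nat.pow_le_pow_left hNs _
      _ = 2 ^ (s * M) := by rw [← pow_mul]
      _ ≤ 2 ^ y := Nat.pow_le_pow_right (by norm_num) (by
          have e1 : 16 * M * P0 * s = (s * M) * (16 * P0) := by ring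
          rw [e1] at hs2
          exact (Nat.le_mul_of_pos_right _ (by omega)).trans hs2)
  · obtain ⟨d1, d2, d3, d4, d5⟩ := td_spec (2 ^ y) (c * n) (Nat.mul_pos hc hn)
    have hsum : ((td (2 ^ y) (c * n)).2.map Prod.snd).sum ≤ N' := by
      have g1 := sum_snd_le (td (2 ^ y) (c * n)).2 d2
      have g2 : pp (td (2 ^ y) (c * n)).2 ≤ c * n :=
        Nat.le_of_dvd (Nat.mul_pos hc hn) (Dvd.intro_left _ d1.symm)
      have g3 : ((td (2 ^ y) (c * n)).2.map Prod.snd).sum < N' := by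
        rw [hN', Nat.lt_size]; exact g1.trans g2
      exact g3.le
    have hbound := prod_gs_le (d := d) (δ := 1 / H) hd0.le (by positivity) (by
      rw [div_le_div_iff₀ (by linarith) (by norm_num)]; linarith) P0 N' (by
      intro p hp
      have hp0 : (P0 : ℝ) ≤ p := by exact_mod_cast hp.le
      have hP0r : (P0 : ℝ) ^ d = H := by
        rw [hP0]; push_cast
        rw [← Real.rpow_natCast, ← Real.rpow_mul (by positivity), hd]
        have : (((4 * M + 4 : ℕ) : ℝ)) * (1 / (4 * ((M : ℝ) + 1))) = 1 := by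
          push_cast; field_simp
        rw [this, Real.rpow_one]
      have hP00 : (0 : ℝ) < P0 := by
        have : 0 < P0 := by omega
        exact_mod_cast this
      rw [Real.rpow_neg (by linarith), one_div]
      refine inv_anti₀ (by linarith) ?_
      rw [← hP0r]
      exact Real.rpow_le_rpow hP00.le hp0 hd0.le) (td (2 ^ y) (c * n)).2 d2 (by
      intro p hp
      exact (List.single_le_sum (fun _ _ => Nat.zero_le _) _
        (List.mem_map.2 ⟨p, hp, rfl⟩)).trans hsum)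
    refine hbound.trans ?_
    refine mul_le_mul ?_ ?_ (by positivity) (by positivity)
    · exact pow_le_pow_right₀ (by
        have : (0 : ℝ) ≤ N' := Nat.cast_nonneg _
        linarith) (length_filter_le_of_nodup _ d5 P0)
    · exact pow_le_pow_right₀ (by
        have : 0 ≤ 1 / H := by positivity
        linarith) hsum
  · rw [← hQ4]
    refine mul_le_mul T1 ?_ (by positivity) (by positivity)
    have g1 : Z1 ≤ Q := (le_self_pow₀ hZ11 (by omega)).trans T2
    have g2 : Z2 ≤ Q := (le_self_pow₀ hZ21 (by omega)).trans T3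
    calc Z1 * Z2 ≤ Q * Q := mul_le_mul g1 g2 (by positivity) (by positivity)
      _ ≤ Q * Q * Q := le_mul_of_one_le_right (by positivity) hQ1
  · rw [← hQ4]
    refine mul_le_mul T1 ?_ (by positivity) (by positivity)
    rw [mul_pow, mul_pow]
    exact mul_le_mul (mul_le_mul T2 T3 (by positivity) (by positivity)) T4 (by positivity)
      (by positivity)

end Pool.Agent.Lib.MP_394210_lc
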