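import Mathlib
import Pool.Agent.Lib.MP_394210_lc.Alg
import Pool.Agent.Lib.AKS.Corr

/-!
# Checking a factorisation and the sum of divisors
-/

namespace Pool.Agent.Lib.MP_394210_lc

open Finset ArithmeticFunction Pool.Agent.PolyTime

open scoped ArithmeticFunction.sigma

/-- The sum of divisors of the product of a list of primes. -/
def sigL (l : List Bin) : ℕ := pp ((nub l).map fun p => (⟨sg (l.count p) p.val⟩, 1))

/-- Check that `l` is the prime factorisation of `n` and that the sum of divisors of `n`
is `s`. -/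
def isFact (l : List Bin) (n s : ℕ) : Bool :=
  (l.all fun z => AKS.aks z.val) && (decide (pp (l.map fun z => (z, 1)) = n) &&
    decide (sigL l = s))

theorem pp_map_one (l : List Bin) : pp (l.map fun z => (z, 1)) = (l.map Bin.val).prod := by
  rw [pp_eq, List.map_map]
  congr 1
  refine List.map_congr_left fun z _ => ?_
  simp

theorem nub_append {β : Type*} [DecidableEq β] (l : List β) (b : β) :
    nub (l ++ [b]) = nub l ++ (if b ∈ l then [] else [b]) := by
  unfold nub
  rw [List.length_append, List.length_singleton, List.range_succ, List.filterMap_append]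
  congr 1
  · refine List.filterMap_congr fun i hi => ?_
    have hi' : i < l.length := List.mem_range.1 hi
    rw [List.getElem?_append_left hi', List.take_append_of_le_length hi'.le]
  · simp only [List.filterMap_cons, List.filterMap_nil]
    rw [List.getElem?_append_right le_rfl]
    simp only [Nat.sub_self, List.getElem?_cons_zero, Option.bind_some, List.take_left']
    split_ifs with h <;> simp

theorem mem_nub {β : Type*} [DecidableEq β] {l : List β} {b : β} : b ∈ nub l ↔ b ∈ l := by
  induction l using List.reverseRecOn with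
  | nil => simp [nub]
  | append_singleton l c ih =>
    rw [nub_append, List.mem_append, List.mem_append, ih]
    split_ifs with h
    · simp only [List.not_mem_nil, or_false, List.mem_singleton]
      refine ⟨Or.inl, ?_⟩
      rintro (h1 | rfl)
      · exact h1
      · exact h
    · simp

theorem nodup_nub {β : Type*} [DecidableEq β] (l : List β) : (nub l).Nodup := by
  induction l using List.reverseRecOn with
  | nil => simp [nub]
  | append_singleton l c ih =>
    rw [nub_append]
    split_ifs with h
    · simpa using ih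
    · rw [List.nodup_append]
      refine ⟨ih, by simp, fun a ha b hb => ?_⟩
      rw [List.mem_singleton] at hb
      subst hb
      rw [mem_nub] at ha
      rintro rfl
      exact h ha

theorem sigL_eq (l : List Bin) (hl : ∀ z ∈ l, z.val.Prime) :
    sigL l = σ 1 (l.map Bin.val).prod := by
  set n := (l.map Bin.val).prod with hn
  have hinj : Function.Injective Bin.val := fun a b h => Bin.ext h
  have hperm : (l.map Bin.val).Perm n.primeFactorsList :=
    Nat.primeFactorsList_unique rfl (by
      intro p hp
      obtain ⟨z, hz, rfl⟩ := List.mem_map.1 hp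
      exact hl z hz)
  have hn0 : n ≠ 0 := by
    rw [hn, Ne, List.prod_eq_zero_iff]
    intro h
    obtain ⟨z, hz, h0⟩ := List.mem_map.1 h
    exact (hl z hz).ne_zero h0
  have hcount : ∀ z : Bin, l.count z = n.factorization z.val := by
    intro z
    rw [← Nat.primeFactorsList_count_eq, ← hperm.count_eq, List.count_map_of_injective _ _ hinj]
  rw [sigma_eq_prod_primeFactors_sum_range_factorization_pow_mul hn0]
  have e1 : n.primeFactors = ((nub l).map Bin.val).toFinset := by
    ext p
    rw [List.mem_toFinset, Nat.primeFactors, List.mem_toFinset, ← hperm.mem_iff]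
    simp only [List.mem_map, mem_nub]
  rw [e1, List.prod_toFinset _ ((nodup_nub l).map hinj), List.map_map, sigL, pp_eq, List.map_map]
  congr 1
  refine List.map_congr_left fun z _ => ?_
  simp only [Function.comp_apply, pow_one, mul_one]
  rw [sg_eq_sum, hcount]

theorem isFact_iff (l : List Bin) (n s : ℕ) :
    isFact l n s = true ↔ (∀ z ∈ l, z.val.Prime) ∧ (l.map Bin.val).prod = n ∧ σ 1 n = s := by
  unfold isFact
  rw [Bool.and_eq_true, Bool.and_eq_true, decide_eq_true_iff, decide_eq_true_iff,
    List.all_eq_true, pp_map_one]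
  simp only [AKS.aks_iff]
  constructor
  · rintro ⟨h1, h2, h3⟩
    refine ⟨h1, h2, ?_⟩
    rw [← h3, sigL_eq l h1, h2]
  · rintro ⟨h1, h2, h3⟩
    refine ⟨h1, h2, ?_⟩
    rw [← h3, sigL_eq l h1, h2]

universe u

variable {α : Type u} [Rep α]

theorem BT.sigL {l : α → List Bin} (hl : PT l) : BT (fun a => sigL (l a)) := by
  refine BT.pp (PT.map (g := fun a (p : Bin) => ((⟨MP_394210_lc.sg ((l a).count p) p.val⟩ : Bin), 1))
    (PT.nub hl) ?_)
  exact PT.pair (BT.sg (PT.count (PT.comp hl PT.id.fst) PT.id.snd) (PT.val PT.id.snd))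
    (PT.const 1)

theorem PT.isFact {l : α → List Bin} {n s : α → ℕ} (hl : PT l) (hn : BT n) (hs : BT s) :
    PT (fun a => isFact (l a) (n a) (s a)) := by
  refine PT.and (PT.all (g := fun _ (z : Bin) => AKS.aks z.val) hl
    (AKS.PT.aks (PT.val PT.id.snd))) (PT.and (BT.eq (BT.pp ?_) hn) (BT.eq (BT.sigL hl) hs))
  exact PT.map (g := fun _ (z : Bin) => (z, 1)) hl (PT.pair PT.id.snd (PT.const 1))

/-- The sum of divisors of `n` is at most `(size n + 1) n`. -/
theorem sigma_le {n : ℕ} (hn : 0 < n) : σ 1 n ≤ (n.size + 1) * n := by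
  have h1 : ((σ 1 n : ℕ) : ℝ) = n * ∑ d ∈ n.divisors, (1 / (d : ℝ)) := by
    rw [sigma_one_apply, ← Nat.sum_div_divisors n (fun d => d), Nat.cast_sum, Finset.mul_sum]
    refine Finset.sum_congr rfl fun d hd => ?_
    have hd' := Nat.dvd_of_mem_divisors hd
    have hd0 : (d : ℝ) ≠ 0 := by
      exact_mod_cast (Nat.pos_of_mem_divisors hd).ne'
    rw [Nat.cast_div hd' hd0]; ring
  have h2 : ∑ d ∈ n.divisors, (1 / (d : ℝ)) ≤ ∑ d ∈ Finset.Icc 1 n, (1 / (d : ℝ)) := by
    refine Finset.sum_le_sum_of_subset_of_nonneg (fun d hd => ?_) fun d _ _ => by positivity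
    rw [Finset.mem_Icc]
    exact ⟨Nat.pos_of_mem_divisors hd, Nat.divisor_le hd⟩
  have h3 : ∑ d ∈ Finset.Icc 1 n, (1 / (d : ℝ)) = ((harmonic n : ℚ) : ℝ) := by
    rw [harmonic_eq_sum_Icc]; push_cast
    exact Finset.sum_congr rfl fun d _ => by rw [one_div]
  have h4 := harmonic_le_one_add_log n
  have h5 : Real.log n ≤ n.size := by
    have h6 : (n : ℝ) ≤ (2 : ℝ) ^ n.size := by
      exact_mod_cast (Nat.lt_size_self n).le
    have h7 := Real.log_le_log (by exact_mod_cast hn) h6
    rw [Real.log_pow] at h7
    have h8 : Real.log 2 ≤ 1 := by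
      have := Real.log_two_lt_d9; linarith
    have h9 : (0 : ℝ) ≤ n.size := Nat.cast_nonneg _
    nlinarith
  have h6 : ((σ 1 n : ℕ) : ℝ) ≤ ((n.size + 1) * n : ℕ) := by
    rw [h1]; push_cast
    have hn0 : (0 : ℝ) ≤ n := Nat.cast_nonneg _
    nlinarith
  exact_mod_cast h6

end Pool.Agent.Lib.MP_394210_lc
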