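import Mathlib
import Pool.Agent.Lib.MP_394210_lc.Final
import Pool.Agent.Lib.MP_394210_lc.Recog
import Pool.Agent.Lib.PolyTime.Time

/-!
# The recognition machines and their running time
-/

namespace Pool.Agent.Lib.MP_394210_lc

open Finset ArithmeticFunction Pool.Agent.PolyTime Turing Computability

open scoped ArithmeticFunction.sigma

/-! ### The choice of the parameter -/

/-- The threshold for the exponent `m`. -/
def thr (m : ℕ) : ℕ := hH m ^ (8 * m + 12)

/-- The exponent for numbers with `N` bits. -/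
def mm (N : ℕ) : ℕ := Nat.findGreatest (fun m => thr m ≤ N) N

theorem thr_mm {N : ℕ} (h : mm N ≠ 0) : thr (mm N) ≤ N :=
  Nat.findGreatest_of_ne_zero (P := fun m => thr m ≤ N) (n := N) rfl h

theorem lt_thr (m : ℕ) : m < thr m := by
  unfold thr
  have h1 := le_hH m
  exact lt_of_lt_of_le (by omega) (Nat.le_self_pow (by omega) (hH m))

theorem thr_mm_succ (N : ℕ) : N < thr (mm N + 1) := by
  by_contra hc
  push Not at hc
  have h1 : mm N + 1 ≤ N := (lt_thr _).le.trans hc
  have h2 : mm N + 1 ≤ mm N := Nat.le_findGreatest h1 hc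
  omega

/-- The parameter. -/
def jj (N : ℕ) : ℕ := if mm N = 0 then N else N / (2 * mm N) + 1

/-- Correctness if trial division finds everything. -/
theorem factor_small {n c t : ℕ} (hn : 0 < n) (hnt : n ≤ t + 1) :
    (∀ z ∈ factor n c t, z.val.Prime) ∧ ((factor n c t).map Bin.val).prod = n := by
  obtain ⟨b1, b2, b3, b4, b5⟩ := td_spec t n hn
  have hB : (td t n).1.val = 1 := by
    by_contra hne
    obtain ⟨q, hq, hqd⟩ := Nat.exists_prime_and_dvd hne
    have h1 := b4 q hq hqd
    have h2 : (td t n).1.val ∣ n := Dvd.intro _ b1.symm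
    have h3 := Nat.le_of_dvd hn (hqd.trans h2)
    omega
  have hfac : factor n c t = expand (td t n).2 ++ longest (cands n (td t n).1.val
    (pp (td t (c * n)).2) t n.size (divL t (td t (c * n)).2)) := rfl
  obtain ⟨l1, -⟩ := longest_spec (cands n (td t n).1.val
    (pp (td t (c * n)).2) t n.size (divL t (td t (c * n)).2))
  have hnil : longest (cands n (td t n).1.val
    (pp (td t (c * n)).2) t n.size (divL t (td t (c * n)).2)) = [] := by
    rcases l1 with l1 | l1
    · exact l1
    · by_contra h9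
      obtain ⟨K', _, h7⟩ := List.mem_flatMap.1 l1
      obtain ⟨rows, _, h8⟩ := List.mem_map.1 h7
      obtain ⟨g1, g2⟩ := good_spec h8 h9
      have g1 := g1.trans hB
      obtain ⟨z, hz⟩ := List.exists_mem_of_ne_nil _ h9
      have g3 := g2 z hz
      have g4 : z.val ∣ 1 := by
        rw [← g1]; exact List.dvd_prod (List.mem_map.2 ⟨z, hz, rfl⟩)
      have := Nat.le_of_dvd one_pos g4
      omega
  rw [hfac, hnil, List.append_nil]
  refine ⟨fun z hz => ?_, ?_⟩
  · obtain ⟨p, hp, hp0, rfl⟩ := mem_expand hz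
    exact b2 p hp hp0
  · rw [prod_expand]
    rw [hB, one_mul] at b1
    exact b1.symm

/-- Correctness for the chosen parameter. -/
theorem factor_jj {n c : ℕ} (hn : 0 < n) (hc : 0 < c) (hcN : c ≤ n.size + 1)
    (hσ : σ 1 n ∣ c * n) :
    (∀ z ∈ factor n c (2 ^ (2 * jj n.size + 1)), z.val.Prime) ∧
      ((factor n c (2 ^ (2 * jj n.size + 1))).map Bin.val).prod = n := by
  set N := n.size with hN
  have hlt : n < 2 ^ N := Nat.lt_size_self n
  by_cases h0 : mm N = 0
  · refine factor_small hn ?_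
    unfold jj
    rw [if_pos h0]
    have : 2 ^ N ≤ 2 ^ (2 * N + 1) := Nat.pow_le_pow_right (by norm_num) (by omega)
    omega
  · set M := mm N with hM
    set y := 2 * jj N + 1 with hy
    have hthr : thr M ≤ N := thr_mm h0
    have hMpos : 1 ≤ M := Nat.pos_of_ne_zero h0
    have hjj : jj N = N / (2 * M) + 1 := by unfold jj; rw [if_neg h0]
    have hyM : N ≤ y * M := by
      have h1 : N < 2 * M * (N / (2 * M) + 1) := by
        have := Nat.lt_mul_div_succ N (show 0 < 2 * M by omega)
        exact this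
      rw [hy, hjj]
      nlinarith
    have hH1 := le_hH M
    have hyH : hH M ^ (8 * M + 11) ≤ y := by
      have e1 : thr M = hH M ^ (8 * M + 11) * hH M := by unfold thr; rw [← pow_succ]
      have h1 : hH M ^ (8 * M + 11) * hH M ≤ y * hH M := by
        rw [← e1]
        exact hthr.trans (hyM.trans (Nat.mul_le_mul_left _ (by omega)))
      exact Nat.le_of_mul_le_mul_right h1 (by omega)
    have hyH' : hH M ≤ y := (Nat.le_self_pow (by omega) _).trans hyH
    refine factor_explicit hMpos hyH hn hc ?_ ?_ hσ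
    · have h1 := sq_le_two_pow (s := y) (by omega)
      have h2 : N + 1 ≤ y ^ 2 := by nlinarith
      omega
    · refine hlt.le.trans ?_
      rw [← pow_mul]
      exact Nat.pow_le_pow_right (by norm_num) hyM

/-! ### The recognition functions -/

/-- Recognition of the numbers `n` with sum of divisors `c * n`. -/
def recC (p : Bin × ℕ) (c : ℕ) : Bool := isFact (factor p.1.val c p.2) p.1.val (c * p.1.val)

/-- Recognition of multiply perfect numbers. -/
def recM (p : Bin × ℕ) : Bool := (List.range (p.1.val.size + 2)).any fun c => recC p c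

theorem PT.recC : PT (fun q : (Bin × ℕ) × ℕ => recC q.1 q.2) := by
  have h1 : BT (fun q : (Bin × ℕ) × ℕ => q.1.1.val) := PT.val PT.id.fst.fst
  have h2 : BT (fun q : (Bin × ℕ) × ℕ => q.2) := PT.toBin PT.id.snd
  exact PT.isFact (PT.factor h1 h2 PT.id.fst.snd) h1 (BT.mul h2 h1)

theorem PT.recC' (k : ℕ) : PT (fun p : Bin × ℕ => MP_394210_lc.recC p k) :=
  PT.comp (g := fun q : (Bin × ℕ) × ℕ => MP_394210_lc.recC q.1 q.2)
    (f := fun p : Bin × ℕ => (p, k)) PT.recC (PT.pair PT.id (PT.const k))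

theorem PT.recM : PT recM :=
  PT.any (g := MP_394210_lc.recC)
    (PT.range (PT.add (BT.size (PT.val PT.id.fst)) (PT.const 2))) PT.recC

theorem pos_of_isFact {l : List Bin} {n s : ℕ} (h : isFact l n s = true) : 0 < n := by
  obtain ⟨h1, h2, h3⟩ := (isFact_iff l n s).1 h
  rw [← h2]
  refine Nat.pos_of_ne_zero fun h0 => ?_
  rw [List.prod_eq_zero_iff] at h0
  obtain ⟨z, hz, hz0⟩ := List.mem_map.1 h0
  exact (h1 z hz).ne_zero hz0

theorem recC_iff (k n : ℕ) :
    recC (⟨n⟩, 2 ^ (2 * jj n.size + 1)) k = true ↔ 0 < n ∧ σ 1 n = k * n := by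
  constructor
  · intro h
    exact ⟨pos_of_isFact h, ((isFact_iff _ _ _).1 h).2.2⟩
  · rintro ⟨hn, h2⟩
    have hσ : 0 < σ 1 n := by
      rw [sigma_one_apply]
      exact Finset.sum_pos (fun d hd => Nat.pos_of_mem_divisors hd)
        ⟨1, Nat.one_mem_divisors.2 hn.ne'⟩
    have hk0 : 0 < k := by
      rcases Nat.eq_zero_or_pos k with h | h
      · rw [h, zero_mul] at h2; omega
      · exact h
    have hkle : k ≤ n.size + 1 := by
      have h1 := sigma_le hn
      rw [h2] at h1
      exact Nat.le_of_mul_le_mul_right h1 hn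
    obtain ⟨g1, g2⟩ := factor_jj hn hk0 hkle (dvd_of_eq h2)
    exact (isFact_iff _ _ _).2 ⟨g1, g2, h2⟩

theorem recM_iff (n : ℕ) :
    recM (⟨n⟩, 2 ^ (2 * jj n.size + 1)) = true ↔ 0 < n ∧ n ∣ σ 1 n := by
  constructor
  · intro h
    obtain ⟨c, _, h1⟩ := List.any_eq_true.1 h
    obtain ⟨hn, h3⟩ := (recC_iff c n).1 h1
    exact ⟨hn, Dvd.intro_left c h3.symm⟩
  · rintro ⟨hn, c, hc⟩
    have h2 : σ 1 n = c * n := by rw [hc, mul_comm]
    have hcle : c ≤ n.size + 1 := by
      have h1 := sigma_le hn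
      rw [h2] at h1
      exact Nat.le_of_mul_le_mul_right h1 hn
    exact List.any_eq_true.2 ⟨c, List.mem_range.2 (by simp only; omega),
      (recC_iff c n).2 ⟨hn, h2⟩⟩

/-! ### The parameter is computable in polynomial time -/

theorem PT.mm {α : Type*} [Rep α] {N : α → ℕ} (hN : PT N) : PT (fun a => mm (N a)) := by
  have key : ∀ N k : ℕ, (Nat.rec (motive := fun _ => ℕ) 0
      (fun i s => if thr (i + 1) ≤ N then i + 1 else s) k)
      = Nat.findGreatest (fun m => thr m ≤ N) k := by
    intro N k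
    induction k with
    | zero => rfl
    | succ k ih =>
      rw [Nat.findGreatest_succ, ← ih]
  refine (PT.natRec (g := fun a i s => if thr (i + 1) ≤ N a then i + 1 else s) hN (PT.const 0)
    ?_ (B := fun a => sz (N a)) hN.bdd ?_).congr fun a => key (N a) (N a)
  · have h1 : BT (fun p : α × (ℕ × ℕ) => thr (p.2.1 + 1)) := by
      have hm : PT (fun p : α × (ℕ × ℕ) => p.2.1 + 1) := PT.succ PT.id.snd.fst
      have hb : BT (fun p : α × (ℕ × ℕ) => hH (p.2.1 + 1)) :=
        BT.mul (BT.const 32) (BT.pow (BT.add (PT.toBin hm) (BT.const 2)) (PT.const 2))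
      exact BT.pow hb (PT.add (PT.mul (PT.const 8) hm) (PT.const 12))
    exact PT.iteProp (c := fun p : α × (ℕ × ℕ) => thr (p.2.1 + 1) ≤ N p.1)
      (BT.le h1 (PT.toBin (PT.comp hN PT.id.fst))) (PT.succ PT.id.snd.fst) PT.id.snd.snd
  · intro a m hm
    rw [key, sz_nat, sz_nat]
    have := Nat.findGreatest_le (P := fun m => thr m ≤ N a) m
    omega

theorem PT.jj {α : Type*} [Rep α] {N : α → ℕ} (hN : PT N) : PT (fun a => jj (N a)) := by
  have h := PT.mm hN
  exact PT.iteProp (PT.isZero h) hN (PT.succ (PT.div hN (PT.mul (PT.const 2) h)))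

end Pool.Agent.Lib.MP_394210_lc
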