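import Mathlib
import Pool.Agent.Lib.MP_394210_lc.Machine

/-!
# The running time
-/

namespace Pool.Agent.Lib.MP_394210_lc

open Finset ArithmeticFunction Pool.Agent.PolyTime Turing Computability Filter

open scoped ArithmeticFunction.sigma Topology

/-- The exponent `L log log L / log L`. -/
noncomputable def ff (L : ℕ) : ℝ := L * Real.log (Real.log L) / Real.log L

theorem log_three : (1.02 : ℝ) ≤ Real.log 3 := by
  have h1 : Real.log 3 = Real.log 2 + Real.log (3 / 2) := by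
    rw [← Real.log_mul (by norm_num) (by norm_num)]; norm_num
  have h2 := Real.one_sub_inv_le_log_of_pos (x := (3 / 2 : ℝ)) (by norm_num)
  have h3 := Real.log_two_gt_d9
  norm_num at h2 h3 ⊢
  linarith

section

variable {L : ℕ} (hL : 3 ≤ L)

include hL

theorem log_ge : (1.02 : ℝ) ≤ Real.log L :=
  log_three.trans (Real.log_le_log (by norm_num) (by exact_mod_cast hL))

theorem loglog_ge : (1 / 52 : ℝ) ≤ Real.log (Real.log L) := by
  have h1 := log_ge hL
  have h2 := Real.one_sub_inv_le_log_of_pos (x := Real.log L) (by linarith)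
  have h3 : (Real.log L)⁻¹ ≤ (1.02 : ℝ)⁻¹ := inv_anti₀ (by norm_num) h1
  norm_num at h3
  linarith

theorem log_le_self' : Real.log L ≤ L := by
  have h : (0 : ℝ) < L := by
    have : 0 < L := by omega
    exact_mod_cast this
  have := Real.log_le_sub_one_of_pos h
  linarith

theorem ff_ge : (1 / 52 : ℝ) ≤ ff L := by
  have h1 := log_ge hL
  have h2 := loglog_ge hL
  have h3 := log_le_self' hL
  refine h2.trans ?_
  rw [ff, le_div_iff₀ (by linarith)]
  nlinarith

omit hL in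
theorem log_thr {M : ℕ} (hL0 : 0 < L) (hlt : L < thr (M + 1)) :
    Real.log L ≤ 48 * ((M : ℝ) + 3) * Real.log ((M : ℝ) + 3) := by
  have hL0' : (0 : ℝ) < L := by exact_mod_cast hL0
  obtain ⟨b, hb⟩ : ∃ b, b = 8 * (M + 1) + 12 := ⟨_, rfl⟩
  obtain ⟨x, hx⟩ : ∃ x : ℝ, x = (M : ℝ) + 3 := ⟨_, rfl⟩
  have hbr : (b : ℝ) ≤ 8 * x := by rw [hb, hx]; push_cast; linarith
  have hM0 : (0 : ℝ) ≤ M := Nat.cast_nonneg _
  have hx3 : 3 ≤ x := by rw [hx]; linarith
  have g1 : (L : ℝ) ≤ (32 * x ^ 2) ^ b := by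
    have hlt' : L < (32 * (M + 1 + 2) ^ 2) ^ b := by
      unfold thr hH at hlt
      rw [hb]; exact hlt
    have g2 : (L : ℝ) ≤ (((32 * (M + 1 + 2) ^ 2) ^ b : ℕ) : ℝ) := Nat.cast_le.2 hlt'.le
    refine g2.trans (le_of_eq ?_)
    push_cast
    rw [hx]; congr 3; ring
  clear hlt hb
  rw [← hx]
  clear hx hM0 M
  have hlx : (1.02 : ℝ) ≤ Real.log x := log_three.trans (Real.log_le_log (by norm_num) hx3)
  have g3 := Real.log_le_log hL0' g1
  have hx2 : x ^ 2 ≠ 0 := pow_ne_zero 2 (by linarith)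
  have h32 : (32 : ℝ) ≠ 0 := by norm_num
  rw [Real.log_pow, Real.log_mul h32 hx2, Real.log_pow] at g3
  have g4 : Real.log 32 = 5 * Real.log 2 := by
    rw [show (32 : ℝ) = 2 ^ 5 by norm_num, Real.log_pow]; norm_num
  have g5 := Real.log_two_lt_d9
  push_cast at g3
  have g6 : Real.log 32 + 2 * Real.log x ≤ 6 * Real.log x := by
    rw [g4]; norm_num at g5; linarith
  have g8 : 0 ≤ Real.log 32 + 2 * Real.log x := by
    have : 0 ≤ Real.log 32 := Real.log_nonneg (by norm_num)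
    linarith
  have g9 := mul_le_mul hbr g6 g8 (by linarith)
  calc Real.log L ≤ _ := g3
    _ ≤ _ := g9
    _ = 48 * x * Real.log x := by ring

theorem mm_ge : Real.log L ≤ 52 * ((mm L : ℝ) + 3) * Real.log (Real.log L) := by
  have h1 := log_ge hL
  have h2 := loglog_ge hL
  have hkey := log_thr (by omega) (thr_mm_succ L)
  have hM0 : (0 : ℝ) ≤ mm L := Nat.cast_nonneg _
  obtain ⟨x, hx⟩ : ∃ x : ℝ, x = (mm L : ℝ) + 3 := ⟨_, rfl⟩
  have hx3 : 3 ≤ x := by rw [hx]; linarith
  rw [← hx] at hkey ⊢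
  clear hx hM0
  by_contra hc
  push Not at hc
  have hxl : x ≤ Real.log L := by
    have : x * 1 ≤ x * (52 * Real.log (Real.log L)) :=
      mul_le_mul_of_nonneg_left (by linarith) (by linarith)
    have e : x * (52 * Real.log (Real.log L)) = 52 * x * Real.log (Real.log L) := by ring
    linarith
  have h5 : Real.log x ≤ Real.log (Real.log L) := Real.log_le_log (by linarith) hxl
  have h6 : 48 * x * Real.log x ≤ 48 * x * Real.log (Real.log L) :=
    mul_le_mul_of_nonneg_left h5 (by linarith)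
  have h7 : 0 ≤ x * Real.log (Real.log L) := mul_nonneg (by linarith) (by linarith)
  linarith

theorem jj_le : (jj L : ℝ) ≤ 200 * ff L := by
  have h1 := log_ge hL
  have h2 := loglog_ge hL
  have h3 := mm_ge hL
  have hff := ff_ge hL
  have hL0 : (0 : ℝ) < L := by
    have : 0 < L := by omega
    exact_mod_cast this
  set ℓ := Real.log L with hℓ
  set lam := Real.log ℓ with hlam
  have hf : ff L = L * lam / ℓ := rfl
  by_cases h0 : mm L = 0
  · have e : jj L = L := by unfold jj; rw [if_pos h0]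
    rw [e, hf, mul_div_assoc', le_div_iff₀ (by linarith)]
    rw [h0] at h3
    norm_num at h3
    nlinarith
  · have e : jj L = L / (2 * mm L) + 1 := by unfold jj; rw [if_neg h0]
    set M := mm L with hM
    have hM1 : (1 : ℝ) ≤ M := by exact_mod_cast Nat.pos_of_ne_zero h0
    have e2 : ((L / (2 * M) : ℕ) : ℝ) ≤ L / (2 * M) := by
      have := @Nat.cast_div_le ℝ _ _ _ L (2 * M)
      push_cast at this
      exact this
    have e3 : (L : ℝ) / (2 * M) ≤ 104 * ff L := by
      rw [hf, mul_div_assoc', div_le_div_iff₀ (by linarith) (by linarith)]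
      have g1 : ℓ ≤ 52 * (4 * (M : ℝ)) * lam := by
        refine h3.trans ?_
        have : (M : ℝ) + 3 ≤ 4 * M := by linarith
        nlinarith
      nlinarith
    rw [e]
    push_cast
    linarith

theorem base_le : ((L + 2 ^ (2 * jj L + 1) : ℕ) : ℝ) ≤ Real.exp (600 * ff L) := by
  have h1 := log_ge hL
  have h2 := loglog_ge hL
  have hff := ff_ge hL
  have hj := jj_le hL
  have hL0 : (0 : ℝ) < L := by
    have : 0 < L := by omega
    exact_mod_cast this
  have g1 : ((2 ^ (2 * jj L + 1) : ℕ) : ℝ) ≤ Real.exp (452 * ff L) := by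
    push_cast
    refine (two_pow_le_exp _).trans (Real.exp_le_exp.2 ?_)
    push_cast
    linarith
  have g2 : (L : ℝ) ≤ Real.exp (452 * ff L) := by
    rw [← Real.log_le_iff_le_exp hL0]
    have g3 : Real.log L ≤ 2 * Real.sqrt L := by
      have e1 : Real.log L = 2 * Real.log (Real.sqrt L) := by
        rw [Real.log_sqrt hL0.le]; ring
      have e2 := Real.log_le_sub_one_of_pos (Real.sqrt_pos.2 hL0)
      linarith
    have g4 : Real.log L * Real.log L ≤ 4 * L := by
      have e1 := mul_self_nonneg (Real.sqrt L)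
      have e2 := Real.mul_self_sqrt hL0.le
      have e3 := Real.sqrt_nonneg (L : ℝ)
      nlinarith
    rw [ff, mul_div_assoc', le_div_iff₀ (by linarith)]
    nlinarith
  have g5 : (2 : ℝ) ≤ Real.exp 1 := by
    have := Real.add_one_le_exp (1 : ℝ); linarith
  push_cast at g1 ⊢
  calc (L : ℝ) + 2 ^ (2 * jj L + 1) ≤ 2 * Real.exp (452 * ff L) := by linarith
    _ ≤ Real.exp 1 * Real.exp (452 * ff L) :=
        mul_le_mul_of_nonneg_right g5 (Real.exp_pos _).le
    _ = Real.exp (1 + 452 * ff L) := by rw [← Real.exp_add]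
    _ ≤ Real.exp (600 * ff L) := Real.exp_le_exp.2 (by linarith)

end

theorem poly_le (Q : Polynomial ℕ) {x : ℕ} (hx : 1 ≤ x) :
    Q.eval x ≤ Q.eval 1 * x ^ Q.natDegree := by
  rw [Polynomial.eval_eq_sum_range, Polynomial.eval_eq_sum_range, Finset.sum_mul]
  refine Finset.sum_le_sum fun i hi => ?_
  rw [one_pow, mul_one]
  exact Nat.mul_le_mul_left _ (Nat.pow_le_pow_right hx (Nat.lt_succ_iff.1 (Finset.mem_range.1 hi)))

theorem time_le (Q : Polynomial ℕ) : ∃ C : ℝ, 0 ≤ C ∧ ∀ L : ℕ, 3 ≤ L →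
    ((Q.eval (L + 2 ^ (2 * jj L + 1)) : ℕ) : ℝ) ≤ Real.exp (C * ff L) := by
  refine ⟨52 * (Q.eval 1 : ℕ) + 600 * Q.natDegree, by positivity, fun L hL => ?_⟩
  have h1 := poly_le Q (x := L + 2 ^ (2 * jj L + 1))
    ((by omega : 1 ≤ L).trans (Nat.le_add_right _ _))
  have h2 := base_le hL
  have hff := ff_ge hL
  have h3 : ((Q.eval (L + 2 ^ (2 * jj L + 1)) : ℕ) : ℝ) ≤
      ((Q.eval 1 : ℕ) : ℝ) * ((L + 2 ^ (2 * jj L + 1) : ℕ) : ℝ) ^ Q.natDegree := by
    exact_mod_cast h1
  refine h3.trans ?_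
  have h4 : ((L + 2 ^ (2 * jj L + 1) : ℕ) : ℝ) ^ Q.natDegree
      ≤ Real.exp (Q.natDegree * (600 * ff L)) := by
    rw [Real.exp_nat_mul]
    exact pow_le_pow_left₀ (Nat.cast_nonneg _) h2 _
  have h5 : ((Q.eval 1 : ℕ) : ℝ) ≤ Real.exp (52 * (Q.eval 1 : ℕ) * ff L) := by
    have g1 := Real.add_one_le_exp ((Q.eval 1 : ℕ) : ℝ)
    have g2 : ((Q.eval 1 : ℕ) : ℝ) ≤ 52 * (Q.eval 1 : ℕ) * ff L := by
      have : (0 : ℝ) ≤ (Q.eval 1 : ℕ) := Nat.cast_nonneg _
      nlinarith
    have g3 := Real.exp_le_exp.2 g2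
    linarith
  calc _ ≤ Real.exp (52 * (Q.eval 1 : ℕ) * ff L) * Real.exp (Q.natDegree * (600 * ff L)) :=
        mul_le_mul h5 h4 (by positivity) (Real.exp_pos _).le
    _ = Real.exp ((52 * (Q.eval 1 : ℕ) + 600 * Q.natDegree) * ff L) := by
        rw [← Real.exp_add]; congr 1; ring

/-- The exponent is `o (L)`. -/
theorem ff_small {C ε : ℝ} (hε : 0 < ε) : ∀ᶠ L : ℕ in atTop, C * ff L ≤ ε * L := by
  have h1 : Tendsto (fun x : ℝ => Real.log x / x) atTop (𝓝 0) := by
    have := Real.isLittleO_log_id_atTop.tendsto_div_nhds_zero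
    simpa using this
  have h2 : Tendsto (fun L : ℕ => Real.log (Real.log L) / Real.log L) atTop (𝓝 0) :=
    h1.comp (Real.tendsto_log_atTop.comp tendsto_natCast_atTop_atTop)
  have h3 : Tendsto (fun L : ℕ => C * (Real.log (Real.log L) / Real.log L)) atTop (𝓝 0) := by
    simpa using h2.const_mul C
  filter_upwards [h3.eventually (gt_mem_nhds hε)] with L hL
  have h4 : C * ff L = (C * (Real.log (Real.log L) / Real.log L)) * L := by
    rw [ff]; ring
  rw [h4]
  exact mul_le_mul_of_nonneg_right hL.le (Nat.cast_nonneg _)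

/-- A running time `exp (C L log log L / log L)` is `n ^ o (1)`. -/
theorem time_rpow {T : ℕ → ℕ} {C : ℝ}
    (hT : ∀ L : ℕ, 3 ≤ L → (T L : ℝ) ≤ Real.exp (C * ff L)) (ε : ℝ) (hε : 0 < ε) :
    ∃ C' : ℝ, ∀ n : ℕ, 0 < n → (T n.size : ℝ) ≤ C' * (n : ℝ) ^ ε := by
  have hε' : 0 < ε * Real.log 2 / 2 := by
    have : 0 < Real.log 2 := Real.log_pos (by norm_num)
    positivity
  obtain ⟨L0, hL0⟩ := eventually_atTop.1 (ff_small (C := C) hε')
  refine ⟨1 + ∑ L ∈ Finset.range (L0 + 3), (T L : ℝ), fun n hn => ?_⟩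
  have hn1 : (1 : ℝ) ≤ n := by exact_mod_cast hn
  have hpow : (1 : ℝ) ≤ (n : ℝ) ^ ε := Real.one_le_rpow hn1 hε.le
  have hsum0 : 0 ≤ ∑ L ∈ Finset.range (L0 + 3), (T L : ℝ) :=
    Finset.sum_nonneg fun _ _ => Nat.cast_nonneg _
  by_cases hs : n.size < L0 + 3
  · have h1 : (T n.size : ℝ) ≤ ∑ L ∈ Finset.range (L0 + 3), (T L : ℝ) :=
      Finset.single_le_sum (f := fun L => (T L : ℝ)) (fun _ _ => Nat.cast_nonneg _)
        (Finset.mem_range.2 hs)
    nlinarith
  · push Not at hs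
    have h1 := hT n.size (by omega)
    have h2 := hL0 n.size (by omega)
    have h3 : Real.exp (C * ff n.size) ≤ (n : ℝ) ^ ε := by
      rw [Real.rpow_def_of_pos (by linarith)]
      refine Real.exp_le_exp.2 (h2.trans ?_)
      have h4 : (2 : ℝ) ^ (n.size - 1) ≤ n := by
        have : 2 ^ (n.size - 1) ≤ n := by
          rw [← Nat.lt_size]
          omega
        exact_mod_cast this
      have h5 := Real.log_le_log (by positivity) h4
      rw [Real.log_pow] at h5
      have h6 : ((n.size - 1 : ℕ) : ℝ) = (n.size : ℝ) - 1 := by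
        have : n.size = (n.size - 1) + 1 := by omega
        have h7 : (n.size : ℝ) = ((n.size - 1 : ℕ) : ℝ) + 1 := by exact_mod_cast this
        linarith
      rw [h6] at h5
      have h8 : (3 : ℝ) ≤ n.size := by
        have : 3 ≤ n.size := by omega
        exact_mod_cast this
      have h9 : 0 < Real.log 2 := Real.log_pos (by norm_num)
      have h10 : (n.size : ℝ) / 2 * Real.log 2 ≤ Real.log n := by nlinarith
      calc ε * Real.log 2 / 2 * n.size = ε * ((n.size : ℝ) / 2 * Real.log 2) := by ring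
        _ ≤ ε * Real.log n := mul_le_mul_of_nonneg_left h10 hε.le
        _ = Real.log n * ε := by ring
    nlinarith

/-- Machines for functions computed by the algorithm. -/
theorem exists_fast {R : Bin × ℕ → Bool} (hR : PT R) {f : ℕ → Bool}
    (hf : ∀ n : ℕ, R (⟨n⟩, 2 ^ (2 * jj n.size + 1)) = f n) :
    ∃ (M : TM2ComputableInTime encodeNat encodeBool f) (C : ℝ),
      ∀ L : ℕ, 3 ≤ L → (M.time L : ℝ) ≤ Real.exp (C * ff L) := by
  have hj : PT (fun n : Bin => jj n.val.size) := PT.jj (BT.size (PT.val PT.id))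
  obtain ⟨Q, M, hM⟩ := exists_machine hR hj hf jj (fun n => le_rfl)
  obtain ⟨C, _, hC⟩ := time_le Q
  exact ⟨M, C, fun L hL => by rw [hM L]; exact hC L hL⟩

end Pool.Agent.Lib.MP_394210_lc
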